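import Pool.Agent.H43.TL2.H17BP.ResS
import Pool.Agent.H43.TL2.M136
import Pool.Agent.H43.TL2.M137

/-!
# SR3 GDefs: definitions for part (G) of the gap without a hypothesis on affine lines

Lines, their ends, holes (the small discs which contain the points where the lift is bounded).  -/

set_option autoImplicit false

open Topology Filter Metric

noncomputable section

namespace Pool.Agent.SR3

end Pool.Agent.SR3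

namespace Pool.Agent.SR3.Geo

open Pool.Agent.SR3 (Off Far)
open Pool.Agent.H36.BP (EN fs wd Sub OrdTwo)
open Pool.Agent.H62.EF (MN pr)
open Pool.Agent.G3 (LLift)

variable {N : ℕ} (G : Geo N)

/-- `Y` is a finite set which contains the ends of the lines, uniformly -/
structure Ends (Y : Finset (EN N)) : Prop where
  mem : ∀ y ∈ Y, y ∈ G.X ∧ y ∉ G.K
  inj : ∀ y ∈ Y, ∀ y' ∈ Y, pr y = pr y' → y = y'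
  near : ∀ ε : ℝ, 0 < ε → ∃ B : ℝ, ∀ φ, G.Line φ → ∀ z, B ≤ Real.log ‖φ z‖ → ∃ y ∈ Y, dist (pr (φ z)) (pr y) < ε

/-- the boundary: local equations, crossings are isolated, the other entire curves in the boundary are constant -/
structure Bdry : Prop where
  zero : ∀ y ∈ G.X, y ∉ G.K → ∃ i, G.E i y = 0
  loc : ∀ y ∈ G.X, y ∉ G.K → ∀ i, G.E i y = 0 → ∃ (l : Fin (G.M + 1)) (r c : ℝ), 0 < r ∧ 0 < c ∧
    ∀ x ∈ G.X, dist (pr x) (pr y) < r → c * ‖G.E i x‖ ≤ ‖(G.E i x).ofLp l‖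
  two : ∀ i i', i ≠ i' → {P : MN N | ∃ y ∈ G.X, y ∉ G.K ∧ G.E i y = 0 ∧ G.E i' y = 0 ∧ P = pr y}.Finite
  one : ∀ H : ℂ → EN N, Differentiable ℂ H → (∀ z, H z ∈ G.X ∧ H z ∉ G.K) → ∀ i, (∀ z, G.E i (H z) = 0) → (∀ i', i' ≠ i → ∀ z, G.E i' (H z) ≠ 0) →
    ∀ z z', pr (H z) = pr (H z')

/-- `l` is the index of a local equation of the component `i` at distance `ε` from `y` -/
def LocEq (ε : ℝ) (y : EN N) (i : G.ι) (l : Fin (G.M + 1)) : Prop :=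
  ∃ c : ℝ, 0 < c ∧ ∀ x ∈ G.X, dist (pr x) (pr y) < ε → c * ‖G.E i x‖ ≤ ‖(G.E i x).ofLp l‖

/-- `2 π i` times the number of zeros minus poles of the local equation `(E i Γ) l / ⟪y, Γ⟫ ^ c i` in the disc of radius `r` -/
def wnd (Γ : ℂ → EN N) (y : EN N) (i : G.ι) (l : Fin (G.M + 1)) (r : ℝ) : ℂ :=
  ∮ w in C(0, r), (logDeriv (fun w => (G.E i (Γ w)).ofLp l) w - G.c i * logDeriv (fun w => (inner ℂ y (Γ w) : ℂ)) w)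

/-- The rescaled curve `Γ` at a hole (the disc of radius one): bounded near it, near the end `y` on the annulus around it; one coordinate takes the value
`2 exp B₃` in it; not almost constant; the local equations of the components through `y` have more poles than zeros in it. -/
structure Rim (Y : Finset (EN N)) (B₃ B₄ ε K : ℝ) (Γ : ℂ → EN N) (y : EN N) : Prop where
  mem : y ∈ Y
  bdd : ∀ w, ‖w‖ ≤ K → Real.log ‖Γ w‖ ≤ B₄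
  low : Real.log ‖Γ 0‖ ≤ B₃
  ann : ∀ w, 1 / 2 ≤ ‖w‖ → ‖w‖ ≤ K → B₃ < Real.log ‖Γ w‖ ∧ dist (pr (Γ w)) (pr y) < ε
  val : ∃ (l : Fin (N + 1)) (w : ℂ), ‖w‖ < 1 / 2 ∧ (Γ w).ofLp l = 2 * (Real.exp B₃ : ℝ)
  up : ∃ w, ‖w‖ < 1 / 2 ∧ B₃ + 1 ≤ Real.log ‖Γ w‖
  wind : ∀ i l, G.LocEq ε y i l → ∃ k : ℕ, (k : ℝ) ≤ B₄ ∧ (G.E i y = 0 → 1 ≤ k) ∧ ∀ r : ℝ, 1 ≤ r → r ≤ 2 → G.wnd Γ y i l r = -(2 * Real.pi * Complex.I * k)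

/-- The holes of the curve `F` in the disc with centre `z₀` and radius `r`: centres `t`, radii `s`, ends `y`. -/
structure Holes (Y : Finset (EN N)) (B₃ B₄ ε K S : ℝ) (F : ℂ → EN N) (z₀ : ℂ) (r : ℝ) (t : Finset ℂ) (s : ℂ → ℝ) (y : ℂ → EN N) : Prop where
  cen : ∀ a ∈ t, a ∈ closedBall z₀ r
  pos : ∀ a ∈ t, 0 < s a ∧ s a ≤ S
  sep : ∀ a ∈ t, ∀ b ∈ t, a ≠ b → K * max (s a) (s b) < ‖a - b‖
  cov : ∀ z ∈ closedBall z₀ r, Real.log ‖F z‖ ≤ B₃ → ∃ a ∈ t, ‖z - a‖ < s a / 2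
  rim : ∀ a ∈ t, G.Rim Y B₃ B₄ ε K (fun w => F (a + s a * w)) (y a)

/-- Sequences of curves with holes, locally under control on the open set `U`; the discs are relatively small. -/
structure Loc (Y : Finset (EN N)) (B₃ B₄ ε K ε₂ : ℝ) (𝒰 : Ultrafilter ℕ) (U : Set ℂ) (Γ : ℕ → ℂ → EN N) (t : ℕ → Finset ℂ) (s : ℕ → ℂ → ℝ)
    (y : ℕ → ℂ → EN N) : Prop where
  opn : IsOpen U
  conn : IsPreconnected U
  crv : ∀ n, Differentiable ℂ (Γ n) ∧ (∀ z, Γ n z ∈ G.K) ∧ ∀ z, G.p (Γ n z) = 1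
  pos : ∀ n, ∀ a ∈ t n, 0 < s n a
  sep : ∀ n, ∀ a ∈ t n, ∀ b ∈ t n, a ≠ b → K * max (s n a) (s n b) < ‖a - b‖
  rim : ∀ n, ∀ a ∈ t n, G.Rim Y B₃ B₄ ε K (fun w => Γ n (a + s n a * w)) (y n a)
  cov : ∀ z ∈ U, ∃ r : ℝ, 0 < r ∧ ∀ᶠ n in (𝒰 : Filter ℕ), ∀ w ∈ ball z r, Real.log ‖Γ n w‖ ≤ B₃ → ∃ a ∈ t n, ‖w - a‖ < s n a / 2
  out : ∀ z ∈ U, ∃ r : ℝ, 0 < r ∧ ∀ᶠ n in (𝒰 : Filter ℕ), ∀ a ∈ t n, r ≤ ‖a - z‖ → s n a ≤ ‖a - z‖ / 2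
  tiny : ∀ R τ : ℝ, 0 < τ → ∀ᶠ n in (𝒰 : Filter ℕ), ∀ a ∈ t n, ‖a‖ ≤ R → s n a ≤ τ
  small : ∀ z ∈ U, ∃ r : ℝ, 0 < r ∧ Tendsto (fun n => ∑ a ∈ (t n).filter (fun a => ‖a - z‖ < r), √(s n a)) (𝒰 : Filter ℕ) (𝓝 0)
  loc : ∀ z ∈ U, ∃ r : ℝ, 0 < r ∧ ∀ᶠ n in (𝒰 : Filter ℕ),
    (∃ a ∈ t n, ∀ w ∈ ball z r, Off (t n) (s n) w → dist (pr (Γ n w)) (pr (y n a)) < ε₂) ∨
      ((∀ a ∈ t n, r ≤ ‖a - z‖) ∧ ∀ w ∈ ball z r, fs (Γ n w) (deriv (Γ n) w) ≤ 1 / r)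

section LocLemmas

variable {G} {Y : Finset (EN N)} {B₃ B₄ ε K ε₂ : ℝ} {𝒰 : Ultrafilter ℕ} {U : Set ℂ} {Γ : ℕ → ℂ → EN N} {t : ℕ → Finset ℂ} {s : ℕ → ℂ → ℝ} {y : ℕ → ℂ → EN N}

/-- `tiny` for the distance to a point -/
theorem Loc.tiny_at (h : G.Loc Y B₃ B₄ ε K ε₂ 𝒰 U Γ t s y) (z : ℂ) (R τ : ℝ) (hτ : 0 < τ) :
    ∀ᶠ n in (𝒰 : Filter ℕ), ∀ a ∈ t n, ‖a - z‖ ≤ R → s n a ≤ τ := by
  filter_upwards [h.tiny (R + ‖z‖) τ hτ] with n hn a ha hr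
  refine hn a ha ?_
  calc ‖a‖ = ‖(a - z) + z‖ := by rw [sub_add_cancel]
    _ ≤ ‖a - z‖ + ‖z‖ := norm_add_le _ _
    _ ≤ R + ‖z‖ := by linarith

/-- `out` for every radius -/
theorem Loc.out_all (h : G.Loc Y B₃ B₄ ε K ε₂ 𝒰 U Γ t s y) {z : ℂ} (hz : z ∈ U) {r : ℝ} (hr : 0 < r) :
    ∀ᶠ n in (𝒰 : Filter ℕ), ∀ a ∈ t n, r ≤ ‖a - z‖ → s n a ≤ ‖a - z‖ / 2 := by
  obtain ⟨r₀, h0, h1⟩ := h.out z hz
  filter_upwards [h1, h.tiny_at z r₀ (r / 2) (by positivity)] with n h1 h2 a ha har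
  by_cases hc : r₀ ≤ ‖a - z‖
  · exact h1 a ha hc
  · exact (h2 a ha (not_le.1 hc).le).trans (by linarith)

/-- the discs at distance at least `r`: also `√s` -/
theorem Loc.out_sqrt (h : G.Loc Y B₃ B₄ ε K ε₂ 𝒰 U Γ t s y) {z : ℂ} (hz : z ∈ U) {r : ℝ} (hr : 0 < r) :
    ∀ᶠ n in (𝒰 : Filter ℕ), ∀ a ∈ t n, r ≤ ‖a - z‖ → s n a ≤ ‖a - z‖ / 2 ∧ (‖a - z‖ ≤ 2 → √(s n a) ≤ r / 2 ∧ √(s n a) ≤ ‖a - z‖ / 2) := by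
  filter_upwards [h.out_all hz hr, h.tiny_at z 2 ((r / 2) ^ 2) (by positivity)] with n h1 h2 a ha har
  refine ⟨h1 a ha har, fun h3 => ?_⟩
  have h4 : √(s n a) ≤ r / 2 := (Real.sqrt_le_sqrt (h2 a ha h3)).trans (by rw [Real.sqrt_sq (by positivity)])
  exact ⟨h4, h4.trans (by linarith)⟩

end LocLemmas

/-- `f` is the limit of the curves `Γ n` outside the discs -/
structure LimOf (𝒰 : Ultrafilter ℕ) (U : Set ℂ) (Γ : ℕ → ℂ → EN N) (t : ℕ → Finset ℂ) (s : ℕ → ℂ → ℝ) (f : ℂ → MN N) : Prop where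
  lift : ∀ z ∈ U, LLift f z
  lim : ∀ L ⊆ U, IsCompact L → ∀ ε : ℝ, 0 < ε → ∀ᶠ n in (𝒰 : Filter ℕ), ∀ z ∈ L, Far (t n) (s n) z → dist (pr (Γ n z)) (f z) < ε

/-- The sequences after rescaling at a minimal exit radius: there is a hole with centre `0`, the curve is near its end on the unit disc, but not on the unit
circle. -/
structure Res (Y : Finset (EN N)) (B₃ B₄ ε K ε₂ θ : ℝ) (𝒰 : Ultrafilter ℕ) (Γ : ℕ → ℂ → EN N) (t : ℕ → Finset ℂ) (s : ℕ → ℂ → ℝ)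
    (y : ℕ → ℂ → EN N) : Prop where
  loc : G.Loc Y B₃ B₄ ε K ε₂ 𝒰 Set.univ Γ t s y
  zero : ∀ n, (0 : ℂ) ∈ t n
  stay : ∀ n z, ‖z‖ < 1 → Off (t n) (s n) z → dist (pr (Γ n z)) (pr (y n 0)) < ε₂
  exit : ∀ n, ∃ z, ‖z‖ = 1 ∧ Off (t n) (s n) z ∧ dist (pr (Γ n z)) (pr (y n 0)) = ε₂
  exitFar : ∀ᶠ n in (𝒰 : Filter ℕ), ∀ z, ‖z‖ = 1 → Off (t n) (s n) z → dist (pr (Γ n z)) (pr (y n 0)) = ε₂ → ∀ a ∈ t n, 1 / 4 ≤ ‖z - a‖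
  cnt : ∀ᶠ n in (𝒰 : Filter ℕ), ∑ a ∈ ((t n).erase 0).filter (fun a => ‖a‖ < 1), s n a / ‖a‖ ≤ θ

/-- The sequences before rescaling: `a n` is a hole with minimal exit radius `ρ n`, among the holes at distance at most `A n * ρ n`. -/
structure Pre (T : Set (EN N)) (rho : EN N → ℝ) (δ : ℝ) (Y : Finset (EN N)) (B₃ B₄ ε K ε₂ η B₅ : ℝ) (q : ℕ → G.J → ℂ) (F : ℕ → ℂ → EN N) (t : ℕ → Finset ℂ)
    (s : ℕ → ℂ → ℝ) (y : ℕ → ℂ → EN N) (a : ℕ → ℂ) (ρ d A : ℕ → ℝ) : Prop where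
  cl : ∀ n, G.Cl T (q n) (F n)
  dA : ∀ n : ℕ, 0 < ρ n ∧ (n : ℝ) ≤ d n ∧ (n : ℝ) ≤ A n ∧ A n * ρ n ≤ d n
  dd : ∀ n z, ‖z - a n‖ ≤ A n * ρ n → d n ≤ infDist z (Gd rho δ (F n))
  du : ∀ n, infDist (a n) (Gd rho δ (F n)) ≤ B₅ * d n
  mem : ∀ n, a n ∈ t n
  pos : ∀ n, ∀ b ∈ t n, 0 < s n b ∧ s n b ≤ Real.exp (-(η * d n))
  sep : ∀ n, ∀ b ∈ t n, ∀ b' ∈ t n, b ≠ b' → K * max (s n b) (s n b') < ‖b - b'‖
  cov : ∀ n z, ‖z - a n‖ ≤ A n * ρ n → Real.log ‖F n z‖ ≤ B₃ → ∃ b ∈ t n, ‖z - b‖ < s n b / 2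
  rim : ∀ n, ∀ b ∈ t n, G.Rim Y B₃ B₄ ε K (fun w => F n (b + s n b * w)) (y n b)
  cnt : ∀ n r, 0 < r → r < d n → ((((t n).erase (a n)).filter (fun b => ‖b - a n‖ ≤ r)).card : ℝ) * Real.log (d n / r) ≤ B₅ * d n
  stay : ∀ n z, ‖z - a n‖ < ρ n → Off (t n) (s n) z → dist (pr (F n z)) (pr (y n (a n))) < ε₂
  exit : ∀ n, ∃ z, ‖z - a n‖ = ρ n ∧ Off (t n) (s n) z ∧ dist (pr (F n z)) (pr (y n (a n))) = ε₂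
  hof : ∀ n, ∀ b ∈ t n, ‖b - a n‖ ≤ A n * ρ n → ∀ z, ‖z - b‖ < ρ n / 2 → Off (t n) (s n) z → dist (pr (F n z)) (pr (y n b)) < ε₂

end Pool.Agent.SR3.Geo
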