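import Pool.Agent.H43.TL2.H62.EF.PrA_1
import Pool.Agent.H43.TL2.H62.EF.PrLip
import Pool.Agent.H43.TL2.M136

/-!
# SR3 ASet: the Fubini-Study length as the pseudo-length of `SDA`
-/

set_option autoImplicit false

open Topology Filter Metric

noncomputable section

namespace Pool.Agent.SR3

open Pool.Agent.H36.BP (EN fs wd Sub OrdTwo)
open Pool.Agent.H14.PP (IsCone Tan)
open Pool.Agent.SY (Ent)
open Pool.Agent.SDA (EnergyK Near AffOpen Nm nForms Lg)
open Geo (Gd)

variable {N : ℕ} {G : Geo N} {T : Set (EN N)} {rho : EN N → ℝ} {M : ℕ} {c₀ C δ : ℝ} {g : (ℂ → EN N) → ℂ → ℝ}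

/-- a curve of speed zero is constant -/
theorem const_of_fs {F : ℂ → EN N} (hF : Differentiable ℂ F) (h0 : ∀ z, F z ≠ 0) (h : ∀ z, fs (F z) (deriv F z) = 0) (z w : ℂ) :
    ∃ c : ℂ, F z = c • F w := by
  have h1 := Pool.Agent.H62.EF.pr_lipschitz isOpen_univ convex_univ hF.differentiableOn (fun z _ => h0 z) (L := 0)
    (fun z _ => (h z).le) z (Set.mem_univ _) w (Set.mem_univ _)
  rw [mul_zero, zero_mul] at h1
  obtain ⟨c, -, hc⟩ := (Pool.Agent.H62.EF.pr_eq_iff (h0 z) (h0 w)).1 (dist_le_zero.1 h1)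
  exact ⟨c, hc⟩

theorem fs_contOn {s : Set (EN N × EN N)} (hs : ∀ p ∈ s, p.1 ≠ 0) : ContinuousOn (fun p : EN N × EN N => fs p.1 p.2) s := by
  show ContinuousOn (fun p : EN N × EN N => wd p.1 p.2 / ‖p.1‖ ^ 2) s
  exact (Pool.Agent.H36.BP.wd_cont (N := N)).continuousOn.div (continuous_fst.norm.pow 2).continuousOn
    fun p hp => pow_ne_zero 2 (norm_ne_zero_iff.2 (hs p hp))

theorem setup_fs (hG : G.Ok) (hM : G.Met T rho M c₀ C δ g) : Pool.Agent.SDA.Setup G.X G.K T G.P G.d rho M c₀ C g fs where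
  cone := hG.cone
  aff := hG.aff
  gauge :=
    { nonneg := fun x _ v _ => Pool.Agent.H36.BP.fs_nonneg x v
      cont := fs_contOn fun p hp => ne0 hG hp.1
      inv := fun x hx v _ c a hc => Pool.Agent.H36.BP.fs_inv (ne0 hG hx) v hc a
      hom := fun x _ v _ c => Pool.Agent.H36.BP.fs_smul_right x v c
      growth := fun ε hε => ⟨1, zero_le_one, fun x _ v _ => by
        have h1 : 0 ≤ Lg G.P G.d x v := add_nonneg (Pool.Agent.H36.BP.fs_nonneg x v) (Finset.sum_nonneg fun _ _ => norm_nonneg _)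
        have h2 := mul_nonneg hε.le h1
        linarith⟩ }
  en := hM.en
  TX := hM.TX
  Ts := hM.Ts
  KT := hM.KT
  rho0 := hM.rho0
  rhoT := hM.rhoT
  rhoc := hM.rhoc
  rhos := hM.rhos
  Ti := hM.Ti
  null := fun F hF hK _ h => Or.inr fun z w => const_of_fs hF (fun z => ne0 hG (hK z)) h z w

end Pool.Agent.SR3
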