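import Pool.Agent.H43.TL2.H36.BP.WdA
import Pool.Agent.H43.TL2.M136

/-!
# SR3 ALam: the functions `lam i`
-/

set_option autoImplicit false

open Topology Filter Metric

noncomputable section

namespace Pool.Agent.SR3

open Pool.Agent.H36.BP (EN fs wd Sub OrdTwo wd_sq wd_nonneg fs_inv fs_nonneg)
open Pool.Agent.H14.PP (IsCone Tan)
open Pool.Agent.SY (Ent)
open Pool.Agent.SDA (EnergyK Near AffOpen Nm nForms)
open Geo (Gd)

variable {N : ℕ} {G : Geo N}

theorem ell_smul (hG : G.Ok) (i : G.ι) (x v : EN N) (a : ℂ) : G.ell i x (a • v) = a * G.ell i x v := by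
  have _ := hG
  unfold Geo.ell
  rw [map_smul, inner_smul_right, inner_smul_right]
  ring

theorem ALam_ell_add (i : G.ι) (x v w : EN N) : G.ell i x (v + w) = G.ell i x v + G.ell i x w := by
  unfold Geo.ell
  rw [map_add, inner_add_right, inner_add_right]
  ring

/-- Euler's relation -/
theorem ALam_euler (hG : G.Ok) (i : G.ι) (x : EN N) : fderiv ℂ (G.E i) x x = (G.c i : ℂ) • G.E i x := by
  have h1 : HasFDerivAt (G.E i) (fderiv ℂ (G.E i) x) x := (hG.anE i x).differentiableAt.hasFDerivAt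
  have h2 : HasDerivAt (fun t : ℂ => t • x) x 1 := by
    simpa using (hasDerivAt_id (1 : ℂ)).smul_const x
  have h3 : HasDerivAt (fun t : ℂ => G.E i (t • x)) (fderiv ℂ (G.E i) x x) 1 := by
    have h1' : HasFDerivAt (G.E i) (fderiv ℂ (G.E i) x) ((1 : ℂ) • x) := by rwa [one_smul]
    exact h1'.comp_hasDerivAt 1 h2
  have h4 : HasDerivAt (fun t : ℂ => t ^ G.c i • G.E i x) ((G.c i : ℂ) • G.E i x) 1 := by
    have := (hasDerivAt_pow (G.c i) (1 : ℂ)).smul_const (G.E i x)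
    simpa using this
  have h5 : (fun t : ℂ => G.E i (t • x)) = fun t : ℂ => t ^ G.c i • G.E i x := funext fun t => hG.smulE i t x
  rw [h5] at h3
  exact h3.unique h4

theorem ALam_ell_self (hG : G.Ok) (i : G.ι) {x : EN N} (hx : x ∈ G.K) : G.ell i x x = 0 := by
  unfold Geo.ell
  have hE : (‖G.E i x‖ : ℂ) ≠ 0 := by exact_mod_cast norm_ne_zero_iff.2 (hG.neE i x hx)
  have hx0 : (‖x‖ : ℂ) ≠ 0 := by exact_mod_cast norm_ne_zero_iff.2 (ne0 hG hx)
  rw [ALam_euler hG, inner_smul_right, inner_self_eq_norm_sq_to_K, inner_self_eq_norm_sq_to_K]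
  simp only [Complex.coe_algebraMap]
  rw [mul_div_assoc, div_self (pow_ne_zero 2 hE), div_self (pow_ne_zero 2 hx0), sub_self]

/-- the length where the lift is bounded -/
theorem L_le_fs (hG : G.Ok) (B : ℝ) : ∃ A : ℝ, 0 < A ∧ ∀ x ∈ G.K, G.p x = 1 → ‖x‖ ≤ B → ∀ v, G.L x v ≤ A * fs x v := by
  have hK := cpt hG B
  -- the bounds on the compact set
  have h1 : ∀ i : G.ι, ∃ A : ℝ, 0 ≤ A ∧ ∀ x ∈ {x : EN N | x ∈ G.K ∧ G.p x = 1 ∧ ‖x‖ ≤ B}, ‖fderiv ℂ (G.E i) x‖ / ‖G.E i x‖ ≤ A := by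
    intro i
    have hc : ContinuousOn (fun x : EN N => ‖fderiv ℂ (G.E i) x‖ / ‖G.E i x‖) {x : EN N | x ∈ G.K ∧ G.p x = 1 ∧ ‖x‖ ≤ B} := by
      intro x hx
      have hE : ‖G.E i x‖ ≠ 0 := norm_ne_zero_iff.2 (hG.neE i x hx.1)
      exact (((hG.anE i x).fderiv.continuousAt.norm).div ((hG.anE i x).continuousAt.norm) hE).continuousWithinAt
    obtain ⟨A, hA⟩ := (hK.image_of_continuousOn hc).isBounded.bddAbove
    exact ⟨max A 0, le_max_right _ _, fun x hx => (hA ⟨x, hx, rfl⟩).trans (le_max_left _ _)⟩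
  choose A hA0 hA using h1
  have hS : 0 ≤ ∑ i, A i := Finset.sum_nonneg fun i _ => hA0 i
  refine ⟨1 + |B| * ∑ i, A i, by positivity, fun x hx hp hxB v => ?_⟩
  have hx0 : x ≠ 0 := ne0 hG hx
  have hxn : 0 < ‖x‖ := norm_pos_iff.2 hx0
  have hxc : (‖x‖ : ℂ) ≠ 0 := by exact_mod_cast hxn.ne'
  -- the part orthogonal to `x`
  set a : ℂ := inner ℂ x v / (‖x‖ : ℂ) ^ 2 with ha
  set v' : EN N := v - a • x with hv'
  have hort : inner ℂ x v' = (0 : ℂ) := by
    rw [hv', inner_sub_right, inner_smul_right, inner_self_eq_norm_sq_to_K, ha]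
    simp only [Complex.coe_algebraMap]
    rw [div_mul_cancel₀ _ (pow_ne_zero 2 hxc), sub_self]
  have hfs : fs x v = ‖v'‖ / ‖x‖ := by
    have h2 : fs x v = fs x v' := by
      have h3 := fs_inv hx0 v' (c := 1) one_ne_zero a
      rw [one_smul, one_smul] at h3
      rw [← h3, hv']
      congr 1
      abel
    rw [h2]
    have h3 : wd x v' = ‖x‖ * ‖v'‖ := by
      have h4 := wd_sq x v'
      rw [hort, norm_zero] at h4
      have h5 : wd x v' ^ 2 = (‖x‖ * ‖v'‖) ^ 2 := by rw [h4]; ring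
      exact (pow_left_inj₀ (wd_nonneg _ _) (by positivity) two_ne_zero).1 h5
    unfold fs
    rw [h3]
    field_simp
  have hell : ∀ i, ‖G.ell i x v‖ ≤ |B| * A i * fs x v := by
    intro i
    have h2 : G.ell i x v = G.ell i x v' := by
      have h3 : v = v' + a • x := by rw [hv']; abel
      conv_lhs => rw [h3]
      rw [ALam_ell_add, ell_smul hG, ALam_ell_self hG i hx, mul_zero, add_zero]
    have hE : 0 < ‖G.E i x‖ := norm_pos_iff.2 (hG.neE i x hx)
    have h3 : G.ell i x v' = inner ℂ (G.E i x) (fderiv ℂ (G.E i) x v') / (‖G.E i x‖ : ℂ) ^ 2 := by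
      unfold Geo.ell
      rw [hort, zero_div, mul_zero, sub_zero]
    have h4 : ‖G.ell i x v'‖ ≤ ‖fderiv ℂ (G.E i) x‖ / ‖G.E i x‖ * ‖v'‖ := by
      rw [h3, norm_div, norm_pow, Complex.norm_real, norm_norm, div_le_iff₀ (by positivity)]
      calc ‖inner ℂ (G.E i x) (fderiv ℂ (G.E i) x v')‖ ≤ ‖G.E i x‖ * ‖fderiv ℂ (G.E i) x v'‖ := norm_inner_le_norm _ _
        _ ≤ ‖G.E i x‖ * (‖fderiv ℂ (G.E i) x‖ * ‖v'‖) := by
          exact mul_le_mul_of_nonneg_left ((fderiv ℂ (G.E i) x).le_opNorm v') hE.le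
        _ = _ := by field_simp
    have h5 := hA i x ⟨hx, hp, hxB⟩
    have h6 : ‖v'‖ = fs x v * ‖x‖ := by rw [hfs, div_mul_cancel₀ _ hxn.ne']
    have h7 : ‖x‖ ≤ |B| := hxB.trans (le_abs_self B)
    have h8 := fs_nonneg x v
    rw [h2]
    calc ‖G.ell i x v'‖ ≤ ‖fderiv ℂ (G.E i) x‖ / ‖G.E i x‖ * ‖v'‖ := h4
      _ ≤ A i * ‖v'‖ := mul_le_mul_of_nonneg_right h5 (norm_nonneg _)
      _ = A i * (fs x v * ‖x‖) := by rw [h6]
      _ ≤ A i * (fs x v * |B|) := mul_le_mul_of_nonneg_left (mul_le_mul_of_nonneg_left h7 h8) (hA0 i)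
      _ = |B| * A i * fs x v := by ring
  unfold Geo.L
  have h9 : ∑ i, ‖G.ell i x v‖ ≤ ∑ i, |B| * A i * fs x v := Finset.sum_le_sum fun i _ => hell i
  rw [← Finset.sum_mul, ← Finset.mul_sum] at h9
  linarith

end Pool.Agent.SR3
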