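import Pool.Agent.H43.TL2.H62.EF.PrA_1
import Pool.Agent.H43.TL2.M143
import Pool.Agent.H43.TL2.M155
import Pool.Agent.H43.TL2.M43

/-!
# SR3 RimA: the scale of a hole, for a limit line

* `RimA_ev`: open properties on compact sets for locally uniform limits.
* `RimA_lead`, `RimA_lt`, `RimA_deg`: degrees of the local equations along a line; the quotient `(E i φ) l / ⟪y, φ⟫ ^ c i` tends to its value at the end `y`.
* `RimA_hur`: Hurwitz for a coordinate.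
* `RimA_circ`: the contour integrals.
-/

set_option autoImplicit false

open Topology Filter Metric

noncomputable section

namespace Pool.Agent.SR3

open Pool.Agent.H36.BP (EN fs wd Sub OrdTwo)
open Pool.Agent.H62.EF (MN pr nm nm_close continuousAt_pr norm_inner_sq)

variable {N : ℕ} {G : Geo N}

/-- a property of pairs of points on a compact set, for curves which converge locally uniformly -/
theorem RimA_ev {V : Type} [NormedAddCommGroup V] {𝒰 : Ultrafilter ℕ} {Γ : ℕ → ℂ → V} {φ : ℂ → V} (hφ : Continuous φ)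
    (hc : TendstoLocallyUniformlyOn Γ φ (𝒰 : Filter ℕ) Set.univ) {L : Set ℂ} (hL : IsCompact L) {Q : V × V → Prop}
    (hQ : ∀ z ∈ L, ∀ᶠ p in 𝓝 (φ z, φ z), Q p) : ∀ᶠ n in (𝒰 : Filter ℕ), ∀ z ∈ L, Q (Γ n z, φ z) := by
  by_contra hcon
  have h1 : ∀ᶠ n in (𝒰 : Filter ℕ), ¬ ∀ z ∈ L, Q (Γ n z, φ z) := Ultrafilter.eventually_not.2 hcon
  have h2 : ∀ n, ∃ z : ℂ, (¬ ∀ z ∈ L, Q (Γ n z, φ z)) → z ∈ L ∧ ¬ Q (Γ n z, φ z) := by
    intro n
    by_cases h : ∀ z ∈ L, Q (Γ n z, φ z)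
    · exact ⟨0, fun h' => absurd h h'⟩
    · push Not at h
      obtain ⟨z, hz, hz'⟩ := h
      exact ⟨z, fun _ => ⟨hz, hz'⟩⟩
  choose z hz using h2
  have h3 : ∀ᶠ n in (𝒰 : Filter ℕ), z n ∈ L ∧ ¬ Q (Γ n (z n), φ (z n)) := h1.mono fun n hn => hz n hn
  obtain ⟨z₀, hz₀, hlim⟩ := hL.ultrafilter_le_nhds (𝒰.map z) (by
    rw [Filter.le_principal_iff]
    exact h3.mono fun n hn => hn.1)
  have h4 : Tendsto z (𝒰 : Filter ℕ) (𝓝 z₀) := hlim
  have h5 : Tendsto (fun n => Γ n (z n)) (𝒰 : Filter ℕ) (𝓝 (φ z₀)) :=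
    (tendstoLocallyUniformlyOn_univ.1 hc).tendsto_comp hφ.continuousAt h4
  have h6 : Tendsto (fun n => φ (z n)) (𝒰 : Filter ℕ) (𝓝 (φ z₀)) := (hφ.tendsto z₀).comp h4
  obtain ⟨n, hn, hn'⟩ := (((h5.prodMk_nhds h6).eventually (hQ z₀ hz₀)).and h3).exists
  exact hn'.2 hn

theorem RimA_inv : Tendsto (fun z : ℂ => z⁻¹) (cocompact ℂ) (𝓝 0) := by
  rw [← Metric.cobounded_eq_cocompact]
  exact tendsto_inv₀_cobounded

theorem RimA_ne0 : ∀ᶠ z : ℂ in cocompact ℂ, z ≠ 0 := (isCompact_singleton (x := (0 : ℂ))).compl_mem_cocompact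

/-- the leading coefficient as a limit -/
theorem RimA_lead (p : Polynomial ℂ) : Tendsto (fun z : ℂ => p.eval z / z ^ p.natDegree) (cocompact ℂ) (𝓝 p.leadingCoeff) := by
  have h1 : Tendsto (fun z : ℂ => p.reverse.eval z⁻¹) (cocompact ℂ) (𝓝 (p.reverse.eval 0)) :=
    (p.reverse.continuous.tendsto 0).comp RimA_inv
  have h3 : p.reverse.eval 0 = p.leadingCoeff := by
    rw [← Polynomial.coeff_zero_eq_eval_zero, Polynomial.coeff_zero_reverse]
  rw [h3] at h1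
  refine h1.congr' ?_
  filter_upwards [RimA_ne0] with z hz
  let _ : Invertible z := invertibleOfNonzero hz
  have h5 := Polynomial.eval₂_reverse_mul_pow (RingHom.id ℂ) z p
  rw [invOf_eq_inv] at h5
  have h6 : Polynomial.eval z⁻¹ p.reverse * z ^ p.natDegree = Polynomial.eval z p := h5
  rw [← h6, mul_div_assoc, div_self (pow_ne_zero _ hz), mul_one]

theorem RimA_lt {p q : Polynomial ℂ} (hp : p ≠ 0) (hq : q ≠ 0) (h : Tendsto (fun z : ℂ => p.eval z / q.eval z) (cocompact ℂ) (𝓝 0)) :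
    p.natDegree < q.natDegree := by
  by_contra hcon
  have hcon' : q.natDegree ≤ p.natDegree := not_lt.1 hcon
  have h1 := RimA_lead p
  have h2 := RimA_lead q
  have h3 : Tendsto (fun z : ℂ => (z⁻¹) ^ (p.natDegree - q.natDegree)) (cocompact ℂ) (𝓝 ((0 : ℂ) ^ (p.natDegree - q.natDegree))) := RimA_inv.pow _
  have h4 := (h.mul h2).mul h3
  rw [zero_mul, zero_mul] at h4
  have hq0 : ∀ᶠ z : ℂ in cocompact ℂ, q.eval z ≠ 0 := by
    have h5 : ∀ᶠ z in cocompact ℂ, q.eval z / z ^ q.natDegree ≠ 0 := h2.eventually_ne (Polynomial.leadingCoeff_ne_zero.2 hq)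
    filter_upwards [h5] with z hz h
    exact hz (by rw [h, zero_div])
  have h5 : Tendsto (fun z : ℂ => p.eval z / z ^ p.natDegree) (cocompact ℂ) (𝓝 0) := by
    refine h4.congr' ?_
    filter_upwards [RimA_ne0, hq0] with z hz hq
    have : z ^ p.natDegree = z ^ q.natDegree * z ^ (p.natDegree - q.natDegree) := by rw [← pow_add, Nat.add_sub_cancel' hcon']
    rw [this, inv_pow]
    field_simp
  exact Polynomial.leadingCoeff_ne_zero.2 hp (tendsto_nhds_unique h1 h5)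

theorem RimA_hur {𝒰 : Ultrafilter ℕ} {Γ : ℕ → ℂ → EN N} {φ : ℂ → EN N} (hΓ : ∀ n, Differentiable ℂ (Γ n)) (hφ : Differentiable ℂ φ)
    (hc : TendstoLocallyUniformlyOn Γ φ (𝒰 : Filter ℕ) Set.univ) (l : Fin (N + 1)) (a : ℂ) {w₀ : ℂ} (h0 : (φ w₀).ofLp l = a)
    (hne : ∃ z z', (φ z).ofLp l ≠ (φ z').ofLp l) : ∀ᶠ n in (𝒰 : Filter ℕ), ∃ w, ‖w - w₀‖ < 1 ∧ (Γ n w).ofLp l = a := by
  by_contra hcon
  have h1 : ∀ᶠ n in (𝒰 : Filter ℕ), ¬ ∃ w, ‖w - w₀‖ < 1 ∧ (Γ n w).ofLp l = a := Ultrafilter.eventually_not.2 hcon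
  have hd : ∀ {F : ℂ → EN N}, Differentiable ℂ F → Differentiable ℂ fun z => (F z).ofLp l - a := by
    intro F hF
    exact ((EuclideanSpace.proj (𝕜 := ℂ) l).differentiable.comp hF).sub_const a
  rcases Pool.Agent.H62.Log.hurwitz 𝒰 (φ := fun n z => (Γ n z).ofLp l - a) (ψ := fun z => (φ z).ofLp l - a) (a := w₀) (r := 1)
    (Eventually.of_forall fun n => (hd (hΓ n)).differentiableOn) (h1.mono fun n hn z hz h => hn ⟨z, by rwa [mem_ball_iff_norm] at hz, sub_eq_zero.1 h⟩)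
    (hd hφ).differentiableOn (by
      intro z z₀ hz₀ hz
      have h4 := (tendstoLocallyUniformlyOn_univ.1 hc).tendsto_comp hφ.continuous.continuousAt hz
      exact (((EuclideanSpace.proj (𝕜 := ℂ) l).continuous.tendsto _).comp h4).sub_const a) with h | h
  · obtain ⟨z, z', hz⟩ := hne
    have h2 : AnalyticOnNhd ℂ (fun z => (φ z).ofLp l - a) Set.univ := (hd hφ).differentiableOn.analyticOnNhd isOpen_univ
    have h3 := h2.eqOn_zero_of_preconnected_of_eventuallyEq_zero isPreconnected_univ (Set.mem_univ w₀) (by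
      filter_upwards [ball_mem_nhds w₀ one_pos] with z hz using h z hz)
    exact hz ((sub_eq_zero.1 (h3 (Set.mem_univ z))).trans (sub_eq_zero.1 (h3 (Set.mem_univ z'))).symm)
  · exact h w₀ (mem_ball_self one_pos) (sub_eq_zero.2 h0)

theorem RimA_Ec (hG : G.Ok) (i : G.ι) : Continuous (G.E i) := continuous_iff_continuousAt.2 fun x => (hG.anE i x).continuousAt

theorem RimA_Ed (hG : G.Ok) (i : G.ι) {φ : ℂ → EN N} (hφ : Differentiable ℂ φ) (l : Fin (G.M + 1)) : Differentiable ℂ fun z => (G.E i (φ z)).ofLp l :=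
  (EuclideanSpace.proj (𝕜 := ℂ) l).differentiable.comp fun z => ((hG.anE i (φ z)).differentiableAt).comp z (hφ z)

theorem RimA_deg (hG : G.Ok) {φ : ℂ → EN N} (hφ : G.Line φ) {y : EN N} (hy0 : y ≠ 0)
    (hlim : Tendsto (fun w => pr (φ w)) (cocompact ℂ) (𝓝 (pr y))) (i : G.ι) (l : Fin (G.M + 1))
    {p q : Polynomial ℂ} (hp : ∀ z, (G.E i (φ z)).ofLp l = p.eval z) (hq : ∀ z, (inner ℂ y (φ z) : ℂ) = q.eval z) (hp0 : p ≠ 0) (hq0 : q ≠ 0) :
    p.natDegree ≤ G.c i * q.natDegree ∧ (G.E i y = 0 → p.natDegree < G.c i * q.natDegree) := by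
  have hyn : ((‖y‖ ^ 2 : ℝ) : ℂ) ≠ 0 := by
    have : ‖y‖ ≠ 0 := norm_ne_zero_iff.2 hy0
    exact_mod_cast pow_ne_zero 2 this
  have h1 : Tendsto (fun z => nm y (φ z)) (cocompact ℂ) (𝓝 y) := by
    rw [Metric.tendsto_nhds]
    intro ε hε
    obtain ⟨δ, hδ, h⟩ := nm_close hy0 hε
    have h2 := (Metric.tendsto_nhds.1 hlim) δ hδ
    filter_upwards [h2] with z hz
    rw [dist_eq_norm]
    exact (h (φ z) (ne0 hG (hφ.mem z)) hz).2
  have h2 : Tendsto (fun z => (G.E i (nm y (φ z))).ofLp l / ((‖y‖ ^ 2 : ℝ) : ℂ) ^ G.c i) (cocompact ℂ)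
      (𝓝 ((G.E i y).ofLp l / ((‖y‖ ^ 2 : ℝ) : ℂ) ^ G.c i)) :=
    ((((EuclideanSpace.proj (𝕜 := ℂ) l).continuous.comp (RimA_Ec hG i)).tendsto y).comp h1).div_const _
  have h3 : ∀ z, (G.E i (nm y (φ z))).ofLp l / ((‖y‖ ^ 2 : ℝ) : ℂ) ^ G.c i = p.eval z / (q ^ G.c i).eval z := by
    intro z
    have h4 : nm y (φ z) = (((‖y‖ ^ 2 : ℝ) : ℂ) / inner ℂ y (φ z)) • φ z := rfl
    rw [h4, hG.smulE, PiLp.smul_apply, smul_eq_mul, hp z, hq z, Polynomial.eval_pow, div_pow]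
    rw [div_mul_eq_mul_div, div_div, mul_comm (q.eval z ^ G.c i), ← div_div, mul_div_cancel_left₀ _ (pow_ne_zero _ hyn)]
  have h4 : Tendsto (fun z => p.eval z / (q ^ G.c i).eval z) (cocompact ℂ) (𝓝 ((G.E i y).ofLp l / ((‖y‖ ^ 2 : ℝ) : ℂ) ^ G.c i)) :=
    h2.congr h3
  have hqc : q ^ G.c i ≠ 0 := pow_ne_zero _ hq0
  constructor
  · have h5 : Tendsto (fun z => p.eval z / (Polynomial.X * q ^ G.c i).eval z) (cocompact ℂ) (𝓝 0) := by
      have h6 := h4.mul RimA_inv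
      rw [mul_zero] at h6
      refine h6.congr fun z => ?_
      rw [Polynomial.eval_mul, Polynomial.eval_X, div_eq_mul_inv, div_eq_mul_inv, mul_inv, mul_assoc, mul_comm z⁻¹]
    have h7 := RimA_lt hp0 (mul_ne_zero Polynomial.X_ne_zero hqc) h5
    rw [Polynomial.natDegree_mul Polynomial.X_ne_zero hqc, Polynomial.natDegree_X, Polynomial.natDegree_pow] at h7
    omega
  · intro h5
    rw [h5] at h4
    have h6 : ((0 : EN G.M).ofLp l / ((‖y‖ ^ 2 : ℝ) : ℂ) ^ G.c i) = 0 := by simp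
    rw [h6] at h4
    have h7 := RimA_lt hp0 hqc h4
    rwa [Polynomial.natDegree_pow] at h7

/-- the contour integral of `logDeriv` for two entire functions, close on the circle, the second one a polynomial of `κ w` -/
theorem RimA_circ {f g : ℂ → ℂ} {p : Polynomial ℂ} {κ r : ℝ} (hf : Differentiable ℂ f) (hg : Differentiable ℂ g) (hκ : 1 ≤ κ) (hr : 1 ≤ r)
    (hp : ∀ z, g z = p.eval z) (h0 : ∀ z, κ ≤ ‖z‖ → g z ≠ 0) (h : ∀ z, κ ≤ ‖z‖ → ‖z‖ ≤ κ * r → ‖f z - g z‖ < ‖g z‖) :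
    CircleIntegrable (logDeriv fun w => f (κ * w)) 0 r ∧ (∮ w in C(0, r), logDeriv (fun w => f (κ * w)) w) = 2 * Real.pi * Complex.I * p.natDegree := by
  have hr0 : 0 < r := by linarith
  have hκ0 : (κ : ℂ) ≠ 0 := by
    have : κ ≠ 0 := by linarith
    exact_mod_cast this
  have hn : ∀ w : ℂ, ‖(κ : ℂ) * w‖ = κ * ‖w‖ := fun w => by rw [norm_mul, Complex.norm_real, Real.norm_of_nonneg (by linarith)]
  have hm : Differentiable ℂ fun w : ℂ => (κ : ℂ) * w := differentiable_id.const_mul _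
  have hfd : Differentiable ℂ fun w => f (κ * w) := hf.comp hm
  have hgd : Differentiable ℂ fun w => g (κ * w) := hg.comp hm
  have hs : ∀ w ∈ sphere (0 : ℂ) r, ‖f (κ * w) - g (κ * w)‖ < ‖g (κ * w)‖ := by
    intro w hw
    have hw' : ‖w‖ = r := by rwa [mem_sphere_zero_iff_norm] at hw
    refine h _ ?_ ?_
    · rw [hn, hw']
      nlinarith
    · rw [hn, hw']
  have hf0 : ∀ w ∈ sphere (0 : ℂ) r, f (κ * w) ≠ 0 := by
    intro w hw h1
    have h2 := hs w hw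
    rw [h1, zero_sub, norm_neg] at h2
    exact lt_irrefl _ h2
  refine ⟨ContinuousOn.circleIntegrable hr0.le fun w hw => ?_, ?_⟩
  · have h1 : ContinuousAt (fun w => deriv (fun w => f (κ * w)) w / f (κ * w)) w :=
      ((hfd.analyticAt w).deriv.continuousAt).div hfd.continuous.continuousAt (hf0 w hw)
    exact h1.continuousWithinAt
  · rw [circle_close hr0 (fun z _ => hfd.analyticAt z) (fun z _ => hgd.analyticAt z) hs]
    have h1 : (fun w : ℂ => g (κ * w)) = fun w => (p.comp (Polynomial.C (κ : ℂ) * Polynomial.X)).eval w := by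
      funext w
      rw [hp, Polynomial.eval_comp, Polynomial.eval_mul, Polynomial.eval_C, Polynomial.eval_X]
    rw [h1, circle_poly (p := p.comp (Polynomial.C (κ : ℂ) * Polynomial.X)) ?_ hr0 ?_, Polynomial.natDegree_comp, Polynomial.natDegree_C_mul_X _ hκ0, mul_one]
    · intro h2
      have h3 : g (κ * 1) = 0 := by
        have := congrFun h1 1
        rw [h2, Polynomial.eval_zero] at this
        exact this
      refine h0 _ ?_ h3
      rw [hn, norm_one, mul_one]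
    · intro z hz
      by_contra hcon
      have h2 : g (κ * z) = 0 := (congrFun h1 z).trans hz
      refine h0 _ ?_ h2
      rw [hn]
      have := not_lt.1 hcon
      nlinarith

theorem rim_of_line (hG : G.Ok) {Y : Finset (EN N)} (hY : G.Ends Y) : ∃ ε₁ : ℝ, 0 < ε₁ ∧ ∀ ε : ℝ, 0 < ε → ε ≤ ε₁ → ∀ (B₃ K : ℝ) (𝒰 : Ultrafilter ℕ)
    (Γ : ℕ → ℂ → EN N) (φ : ℂ → EN N), (∀ n, Differentiable ℂ (Γ n) ∧ (∀ z, Γ n z ∈ G.K) ∧ (∀ z, G.p (Γ n z) = 1) ∧ Real.log ‖Γ n 0‖ ≤ B₃) → G.Line φ →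
    TendstoLocallyUniformlyOn Γ φ (𝒰 : Filter ℕ) Set.univ →
    ∃ (κ B₆ : ℝ) (y : EN N), 1 ≤ κ ∧ ∀ᶠ n in (𝒰 : Filter ℕ), ∀ B₄ : ℝ, B₆ ≤ B₄ → (∀ w : ℂ, ‖w‖ ≤ K → Real.log ‖Γ n (κ * w)‖ ≤ B₄) →
      G.Rim Y B₃ B₄ ε K (fun w => Γ n (κ * w)) y := by
  refine ⟨1, one_pos, fun ε hε hε1 B₃ K 𝒰 Γ φ hΓ hφ hc => ?_⟩
  obtain ⟨⟨P, hP⟩, hinf, y, hyY, hyl⟩ := line_end hG hY hφ
  have hy0 : y ≠ 0 := fun h => hG.cone.zero_notMem (h ▸ (hY.mem y hyY).1)
  have hin : ∀ x : EN N, x ≠ 0 → dist (pr x) (pr y) < ε → (inner ℂ y x : ℂ) ≠ 0 := by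
    intro x hx hd h
    have h1 := norm_inner_sq hy0 hx
    rw [h, norm_zero, dist_comm] at h1
    have hx' : 0 < ‖x‖ := norm_pos_iff.2 hx
    have hy' : 0 < ‖y‖ := norm_pos_iff.2 hy0
    have h2 : 0 < ‖y‖ ^ 2 * ‖x‖ ^ 2 := by positivity
    have h3 : 0 < 1 - dist (pr x) (pr y) ^ 2 / 2 := by
      have : dist (pr x) (pr y) < 1 := lt_of_lt_of_le hd hε1
      nlinarith [dist_nonneg (x := pr x) (y := pr y)]
    have h4 := mul_pos h2 h3
    rw [← h1] at h4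
    norm_num at h4
  obtain ⟨C, k, hC⟩ := hφ.pol
  have hpE : ∀ i l, ∃ p : Polynomial ℂ, ∀ z, (G.E i (φ z)).ofLp l = p.eval z := by
    intro i l
    obtain ⟨B, hB1, hB⟩ := ALam_hom (RimA_Ec hG i) (hG.smulE i)
    refine Pool.Agent.SY.exists_poly_of_growth (k * G.c i) _ (B * C ^ G.c i) (RimA_Ed hG i hφ.diff l) fun z => ?_
    have h1 := hB (φ z) (norm_ne_zero_iff.2 (ne0 hG (hφ.mem z)))
    calc ‖(G.E i (φ z)).ofLp l‖ ≤ ‖G.E i (φ z)‖ := PiLp.norm_apply_le _ l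
      _ ≤ B * ‖φ z‖ ^ G.c i := h1
      _ ≤ B * (C * (1 + ‖z‖) ^ k) ^ G.c i := by
        have := hC z
        gcongr
      _ = B * C ^ G.c i * (1 + ‖z‖) ^ (k * G.c i) := by
        rw [mul_pow, ← pow_mul]
        ring
  choose p hp using hpE
  obtain ⟨q, hq⟩ : ∃ q : Polynomial ℂ, ∀ z, (inner ℂ y (φ z) : ℂ) = q.eval z := by
    refine Pool.Agent.SY.exists_poly_of_growth k _ (‖y‖ * C) ((innerSL ℂ y).differentiable.comp hφ.diff) fun z => ?_
    calc ‖(innerSL ℂ y) (φ z)‖ ≤ ‖y‖ * ‖φ z‖ := norm_inner_le_norm y (φ z)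
      _ ≤ ‖y‖ * (C * (1 + ‖z‖) ^ k) := by
        have := hC z
        gcongr
      _ = ‖y‖ * C * (1 + ‖z‖) ^ k := by ring
  obtain ⟨l₀, hl₀⟩ : ∃ l, ∃ z z', (φ z).ofLp l ≠ (φ z').ofLp l := by
    obtain ⟨z, z', h⟩ := hφ.ne
    by_contra hcon
    push Not at hcon
    exact h (by
      ext l
      exact hcon l z z')
  obtain ⟨w₀, hw₀⟩ : ∃ w₀, (φ w₀).ofLp l₀ = 2 * (Real.exp B₃ : ℝ) := by
    have h1 : (P l₀ - Polynomial.C (2 * ((Real.exp B₃ : ℝ) : ℂ))).degree ≠ 0 := by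
      intro h1
      have h2 := Polynomial.eq_C_of_degree_eq_zero h1
      obtain ⟨z, z', h⟩ := hl₀
      have h3 : ∀ z, (P l₀).eval z = (P l₀ - Polynomial.C (2 * ((Real.exp B₃ : ℝ) : ℂ))).coeff 0 + 2 * ((Real.exp B₃ : ℝ) : ℂ) := by
        intro z
        have h4 := congrArg (Polynomial.eval z) h2
        rw [Polynomial.eval_sub, Polynomial.eval_C, Polynomial.eval_C] at h4
        rw [← h4]
        ring
      rw [hP, hP, h3, h3] at h
      exact h rfl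
    obtain ⟨w₀, h2⟩ := IsAlgClosed.exists_root _ h1
    refine ⟨w₀, ?_⟩
    rw [Polynomial.IsRoot.def, Polynomial.eval_sub, Polynomial.eval_C] at h2
    rw [hP]
    exact sub_eq_zero.1 h2
  obtain ⟨R, hR⟩ : ∃ R : ℝ, ∀ z : ℂ, R ≤ ‖z‖ → Real.exp (B₃ + 2) < ‖φ z‖ ∧ dist (pr (φ z)) (pr y) < ε := by
    have h1 := (hinf.eventually_gt_atTop (Real.exp (B₃ + 2))).and ((Metric.tendsto_nhds.1 hyl) ε hε)
    rw [← Metric.cobounded_eq_cocompact] at h1
    obtain ⟨R, -, hR⟩ := hasBasis_cobounded_norm.eventually_iff.1 h1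
    exact ⟨R, fun z hz => hR hz⟩
  obtain ⟨κ, hκ⟩ : ∃ κ : ℝ, κ = 2 * (max R 0 + ‖w₀‖ + 1) + 1 := ⟨_, rfl⟩
  have hR0 : (0 : ℝ) ≤ max R 0 := le_max_right _ _
  have hRR : R ≤ max R 0 := le_max_left _ _
  have hwn := norm_nonneg w₀
  have hκ1 : 1 ≤ κ := by linarith
  have hκR : R ≤ κ / 2 := by linarith
  have hκ0 : (κ : ℂ) ≠ 0 := by
    have : κ ≠ 0 := by linarith
    exact_mod_cast this
  have hn : ∀ w : ℂ, ‖(κ : ℂ) * w‖ = κ * ‖w‖ := fun w => by rw [norm_mul, Complex.norm_real, Real.norm_of_nonneg (by linarith)]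
  have hK2 : (2 : ℝ) ≤ max K 2 := le_max_right _ _
  have hKK : K ≤ max K 2 := le_max_left _ _
  obtain ⟨L, hL⟩ : ∃ L : Set ℂ, L = {z : ℂ | κ / 2 ≤ ‖z‖ ∧ ‖z‖ ≤ κ * max K 2} := ⟨_, rfl⟩
  have hLc : IsCompact L := by
    have h1 : L = {z : ℂ | κ / 2 ≤ ‖z‖} ∩ closedBall 0 (κ * max K 2) := by
      rw [hL]
      ext z
      simp
    rw [h1]
    exact (isCompact_closedBall _ _).inter_left (isClosed_le continuous_const continuous_norm)
  have hφc := hφ.diff.continuous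
  have hLR : ∀ z ∈ L, R ≤ ‖z‖ := by
    intro z hz
    rw [hL] at hz
    exact hκR.trans hz.1
  have hmemK := hφ.mem
  -- the curve on the annulus
  have ev1 : ∀ᶠ n in (𝒰 : Filter ℕ), ∀ z ∈ L, Real.exp B₃ < ‖Γ n z‖ ∧ dist (pr (Γ n z)) (pr y) < ε := by
    refine RimA_ev (Q := fun x => Real.exp B₃ < ‖x.1‖ ∧ dist (pr x.1) (pr y) < ε) hφc hc hLc fun z hz => ?_
    have h1 := hR z (hLR z hz)
    have h2 : Tendsto (fun x : EN N × EN N => x.1) (𝓝 (φ z, φ z)) (𝓝 (φ z)) := continuous_fst.tendsto _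
    have h3 : Real.exp B₃ < ‖φ z‖ := lt_of_le_of_lt (Real.exp_le_exp.2 (by linarith)) h1.1
    have h4 : Tendsto (fun x : EN N × EN N => dist (pr x.1) (pr y)) (𝓝 (φ z, φ z)) (𝓝 (dist (pr (φ z)) (pr y))) :=
      ((continuousAt_pr (ne0 hG (hmemK z))).tendsto.comp h2).dist tendsto_const_nhds
    exact (h2.norm.eventually_const_lt h3).and (h4.eventually_lt_const h1.2)
  -- one point with a large value
  have ev2 : ∀ᶠ n in (𝒰 : Filter ℕ), Real.exp (B₃ + 1) < ‖Γ n ((max R 0 : ℝ) : ℂ)‖ := by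
    have h1 : Tendsto (fun n => ‖Γ n ((max R 0 : ℝ) : ℂ)‖) (𝒰 : Filter ℕ) (𝓝 ‖φ ((max R 0 : ℝ) : ℂ)‖) :=
      (hc.tendsto_at (Set.mem_univ _)).norm
    refine h1.eventually_const_lt (lt_trans (Real.exp_lt_exp.2 (by linarith)) (hR _ ?_).1)
    rw [Complex.norm_real, Real.norm_of_nonneg hR0]
    exact hRR
  have ev3 := RimA_hur (fun n => (hΓ n).1) hφ.diff hc l₀ _ hw₀ hl₀
  -- the functions
  have ev4 : ∀ᶠ n in (𝒰 : Filter ℕ), ∀ z ∈ L, ‖(inner ℂ y (Γ n z) : ℂ) - inner ℂ y (φ z)‖ < ‖(inner ℂ y (φ z) : ℂ)‖ := by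
    refine RimA_ev (Q := fun x => ‖(inner ℂ y x.1 : ℂ) - inner ℂ y x.2‖ < ‖(inner ℂ y x.2 : ℂ)‖) hφc hc hLc fun z hz => ?_
    have h1 : (inner ℂ y (φ z) : ℂ) ≠ 0 := hin _ (ne0 hG (hmemK z)) (hR z (hLR z hz)).2
    have h2 : ContinuousAt (fun x : EN N × EN N => ‖(inner ℂ y x.1 : ℂ) - inner ℂ y x.2‖) (φ z, φ z) := by fun_prop
    have h3 : ContinuousAt (fun x : EN N × EN N => ‖(inner ℂ y x.2 : ℂ)‖) (φ z, φ z) := by fun_prop
    refine h2.eventually_lt h3 ?_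
    simp only [sub_self, norm_zero]
    exact norm_pos_iff.2 h1
  have hEn : ∀ i l, G.LocEq ε y i l → ∀ z : ℂ, R ≤ ‖z‖ → (G.E i (φ z)).ofLp l ≠ 0 := by
    intro i l hl z hz h
    obtain ⟨c, hc0, hcl⟩ := hl
    have h1 := hcl (φ z) (KX hG (hmemK z)) (hR z hz).2
    rw [h, norm_zero] at h1
    have h2 : 0 < ‖G.E i (φ z)‖ := norm_pos_iff.2 (hG.neE i _ (hmemK z))
    nlinarith
  have ev5 : ∀ i l, ∀ᶠ n in (𝒰 : Filter ℕ), G.LocEq ε y i l → ∀ z ∈ L, ‖(G.E i (Γ n z)).ofLp l - (G.E i (φ z)).ofLp l‖ < ‖(G.E i (φ z)).ofLp l‖ := by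
    intro i l
    by_cases hl : G.LocEq ε y i l
    · refine (RimA_ev (Q := fun x => ‖(G.E i x.1).ofLp l - (G.E i x.2).ofLp l‖ < ‖(G.E i x.2).ofLp l‖) hφc hc hLc fun z hz => ?_).mono fun n hn _ => hn
      have hEc : Continuous fun x : EN N => (G.E i x).ofLp l := (EuclideanSpace.proj (𝕜 := ℂ) l).continuous.comp (RimA_Ec hG i)
      have h2 : ContinuousAt (fun x : EN N × EN N => ‖(G.E i x.1).ofLp l - (G.E i x.2).ofLp l‖) (φ z, φ z) :=
        (((hEc.comp continuous_fst).sub (hEc.comp continuous_snd)).norm).continuousAt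
      have h3 : ContinuousAt (fun x : EN N × EN N => ‖(G.E i x.2).ofLp l‖) (φ z, φ z) := ((hEc.comp continuous_snd).norm).continuousAt
      refine h2.eventually_lt h3 ?_
      simp only [sub_self, norm_zero]
      exact norm_pos_iff.2 (hEn i l hl z (hLR z hz))
    · exact Eventually.of_forall fun n h => absurd h hl
  have ev6 := Filter.eventually_all.2 fun i => Filter.eventually_all.2 fun l => ev5 i l
  refine ⟨κ, ∑ i, ∑ l, ((G.c i * q.natDegree - (p i l).natDegree : ℕ) : ℝ), y, hκ1, ?_⟩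
  filter_upwards [ev1, ev2, ev3, ev4, ev6] with n e1 e2 e3 e4 e6 B₄ hB₄ hbd
  obtain ⟨hΓd, hΓK, hΓp, hΓ0⟩ := hΓ n
  have hLm : ∀ w : ℂ, 1 / 2 ≤ ‖w‖ → ‖w‖ ≤ max K 2 → (κ : ℂ) * w ∈ L := by
    intro w h1 h2
    rw [hL]
    refine ⟨?_, ?_⟩
    · rw [hn]
      nlinarith
    · rw [hn]
      exact mul_le_mul_of_nonneg_left h2 (by linarith)
  have hpos : ∀ z, 0 < ‖Γ n z‖ := fun z => norm_pos_iff.2 (ne0 hG (hΓK z))
  refine ⟨hyY, hbd, ?_, ?_, ?_, ?_, ?_⟩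
  · show Real.log ‖Γ n (κ * 0)‖ ≤ B₃
    rw [mul_zero]
    exact hΓ0
  · intro w h1 h2
    have h3 := e1 _ (hLm w h1 (h2.trans hKK))
    exact ⟨(Real.lt_log_iff_exp_lt (hpos _)).2 h3.1, h3.2⟩
  · obtain ⟨w, hw, hw'⟩ := e3
    refine ⟨l₀, w / κ, ?_, ?_⟩
    · rw [norm_div, Complex.norm_real, Real.norm_of_nonneg (by linarith), div_lt_iff₀ (by linarith)]
      have h1 : ‖w‖ ≤ ‖w₀‖ + 1 := by
        have := norm_sub_norm_le w w₀
        linarith
      linarith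
    · show (Γ n (κ * (w / κ))).ofLp l₀ = _
      rw [mul_div_cancel₀ _ hκ0]
      exact hw'
  · refine ⟨((max R 0 : ℝ) : ℂ) / κ, ?_, ?_⟩
    · rw [norm_div, Complex.norm_real, Complex.norm_real, Real.norm_of_nonneg hR0, Real.norm_of_nonneg (by linarith), div_lt_iff₀ (by linarith)]
      linarith
    · show B₃ + 1 ≤ Real.log ‖Γ n (κ * (((max R 0 : ℝ) : ℂ) / κ))‖
      rw [mul_div_cancel₀ _ hκ0]
      exact ((Real.lt_log_iff_exp_lt (hpos _)).2 e2).le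
  · intro i l hl
    have hcR : ∀ z : ℂ, κ ≤ ‖z‖ → R ≤ ‖z‖ := fun z hz => by linarith
    have hqn : ∀ z : ℂ, κ ≤ ‖z‖ → (inner ℂ y (φ z) : ℂ) ≠ 0 := fun z hz => hin _ (ne0 hG (hmemK z)) (hR z (hcR z hz)).2
    have hpn : ∀ z : ℂ, κ ≤ ‖z‖ → (G.E i (φ z)).ofLp l ≠ 0 := fun z hz => hEn i l hl z (hcR z hz)
    have hκn : κ ≤ ‖(κ : ℂ)‖ := by rw [Complex.norm_real, Real.norm_of_nonneg (by linarith)]
    have hp0 : p i l ≠ 0 := by
      intro h
      refine hpn κ hκn ?_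
      rw [hp, h, Polynomial.eval_zero]
    have hq0 : q ≠ 0 := by
      intro h
      refine hqn κ hκn ?_
      rw [hq, h, Polynomial.eval_zero]
    obtain ⟨hd1, hd2⟩ := RimA_deg hG hφ hy0 hyl i l (hp i l) hq hp0 hq0
    refine ⟨G.c i * q.natDegree - (p i l).natDegree, ?_, ?_, ?_⟩
    · refine le_trans ?_ hB₄
      refine le_trans ?_ (Finset.single_le_sum (f := fun i => ∑ l, ((G.c i * q.natDegree - (p i l).natDegree : ℕ) : ℝ))
        (fun _ _ => Finset.sum_nonneg fun _ _ => Nat.cast_nonneg _) (Finset.mem_univ i))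
      exact Finset.single_le_sum (f := fun l => ((G.c i * q.natDegree - (p i l).natDegree : ℕ) : ℝ)) (fun _ _ => Nat.cast_nonneg _) (Finset.mem_univ l)
    · intro h
      have := hd2 h
      omega
    · intro r hr1 hr2
      have hbr : ∀ z : ℂ, κ ≤ ‖z‖ → ‖z‖ ≤ κ * r → z ∈ L := by
        intro z h1 h2
        rw [hL]
        refine ⟨by linarith, h2.trans (mul_le_mul_of_nonneg_left (hr2.trans hK2) (by linarith))⟩
      obtain ⟨ha1, ha2⟩ := RimA_circ (RimA_Ed hG i hΓd l) (RimA_Ed hG i hφ.diff l) hκ1 hr1 (hp i l) hpn fun z h1 h2 => e6 i l hl z (hbr z h1 h2)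
      obtain ⟨hb1, hb2⟩ := RimA_circ (f := fun z => (inner ℂ y (Γ n z) : ℂ)) (g := fun z => (inner ℂ y (φ z) : ℂ)) ((innerSL ℂ y).differentiable.comp hΓd)
        ((innerSL ℂ y).differentiable.comp hφ.diff) hκ1 hr1 hq hqn fun z h1 h2 => e4 z (hbr z h1 h2)
      have h1 : G.wnd (fun w => Γ n (κ * w)) y i l r = (∮ w in C(0, r), logDeriv (fun w => (G.E i (Γ n (κ * w))).ofLp l) w) -
          G.c i * ∮ w in C(0, r), logDeriv (fun w => (inner ℂ y (Γ n (κ * w)) : ℂ)) w := by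
        have hb3 : CircleIntegrable (fun w => (G.c i : ℂ) * logDeriv (fun w => (inner ℂ y (Γ n (κ * w)) : ℂ)) w) 0 r :=
          IntervalIntegrable.const_mul hb1 _
        unfold Geo.wnd
        rw [circleIntegral.integral_sub ha1 hb3, circleIntegral.integral_const_mul]
      rw [h1, ha2, hb2, Nat.cast_sub hd1]
      push_cast
      ring

end Pool.Agent.SR3
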