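import Pool.Agent.H43.TL2.M139
import Pool.Agent.H43.TL2.M143

/-!
# SR3 LNear: the points near a crossing

`LNear.proj`: for a linear form `ℓ` with `κ ‖u‖ ≤ |ℓ u|`: `|⟪u, u'⟫ / ‖u‖ ^ 2 - ℓ u' / ℓ u| ≤ (A / κ) fs u u'`.
-/

set_option autoImplicit false

open Topology Filter Metric

noncomputable section

namespace Pool.Agent.SR3

open Pool.Agent.H36.BP (EN fs wd Sub OrdTwo)
open Pool.Agent.H14.PP (IsCone Tan)
open Pool.Agent.SY (Ent)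
open Pool.Agent.H62.EF (MN pr)
open Geo (Gd)

variable {N : ℕ} {G : Geo N} {y : EN N} {i : Fin 2 → G.ι} {l : Fin 2 → Fin (G.M + 1)} {P : G.J → MvPolynomial (Fin 2) ℂ} {r C α : ℝ}

namespace LNear

theorem wd_orth {m : ℕ} {u v : EN m} (h : inner ℂ u v = (0 : ℂ)) : wd u v = ‖u‖ * ‖v‖ := by
  unfold wd
  rw [h, norm_zero, ← mul_pow, show (‖u‖ * ‖v‖) ^ 2 - (0 : ℝ) ^ 2 = (‖u‖ * ‖v‖) ^ 2 by ring]
  exact Real.sqrt_sq (by positivity)

theorem wd_add {m : ℕ} (u v : EN m) (a : ℂ) : wd u (v + a • u) = wd u v := by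
  have h := Pool.Agent.H36.BP.wd_inv u v 1 a
  rw [one_smul, one_smul, norm_one] at h
  rw [h]
  ring

theorem proj {m : ℕ} (ℓ : EN m →L[ℂ] ℂ) {u u' : EN m} {A κ : ℝ} (hu : u ≠ 0) (hκ : 0 < κ) (hA : ∀ v, ‖ℓ v‖ ≤ A * ‖v‖) (h : κ * ‖u‖ ≤ ‖ℓ u‖) :
    ‖(inner ℂ u u' : ℂ) / (‖u‖ : ℂ) ^ 2 - ℓ u' / ℓ u‖ ≤ A / κ * fs u u' := by
  have hun : 0 < ‖u‖ := norm_pos_iff.mpr hu
  have hu2 : ((‖u‖ : ℂ)) ^ 2 ≠ 0 := by
    have : (‖u‖ : ℂ) ≠ 0 := by exact_mod_cast hun.ne'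
    exact pow_ne_zero 2 this
  have hℓu : ℓ u ≠ 0 := by
    rw [← norm_pos_iff]
    exact lt_of_lt_of_le (by positivity) h
  set a : ℂ := (inner ℂ u u' : ℂ) / (‖u‖ : ℂ) ^ 2 with ha
  set v : EN m := u' - a • u with hv
  have huv : u' = v + a • u := by rw [hv]; abel
  have hor : (inner ℂ u v : ℂ) = 0 := by
    rw [hv, inner_sub_right, inner_smul_right, inner_self_eq_norm_sq_to_K, ha]
    exact sub_eq_zero.mpr (div_mul_cancel₀ _ hu2).symm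
  have hw : wd u u' = ‖u‖ * ‖v‖ := by
    rw [huv, wd_add, wd_orth hor]
  have h1 : a - ℓ u' / ℓ u = -(ℓ v / ℓ u) := by
    have h2 : ℓ u' = ℓ v + a * ℓ u := by
      conv_lhs => rw [huv]
      rw [map_add, map_smul, smul_eq_mul]
    rw [h2]
    field_simp
    ring
  rw [h1, norm_neg, norm_div]
  have hAv : 0 ≤ A * ‖v‖ := (norm_nonneg _).trans (hA v)
  calc ‖ℓ v‖ / ‖ℓ u‖ ≤ (A * ‖v‖) / (κ * ‖u‖) := div_le_div₀ hAv (hA v) (by positivity) h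
    _ = A / κ * fs u u' := by
      unfold fs
      rw [hw]
      field_simp

end LNear

theorem crs_lam (hG : G.Ok) (hc : G.Crs y i l P r C α) : ∃ C' : ℝ, ∀ x ∈ G.K, dist (pr x) (pr y) < r → ∀ a,
    |G.lam (i a) x - (G.c (i a) * Real.log ‖(inner ℂ y x : ℂ)‖ - Real.log ‖(G.E (i a) x).ofLp (l a)‖)| ≤ C' := by
  choose κ hκ hloc using hc.loc
  refine ⟨∑ a, (G.c (i a) * (|Real.log ‖y‖| + Real.log 2) + |Real.log (κ a)|), fun x hx hd a => ?_⟩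
  have hlog2 : 0 ≤ Real.log 2 := Real.log_nonneg (by norm_num)
  have hsum : G.c (i a) * (|Real.log ‖y‖| + Real.log 2) + |Real.log (κ a)| ≤
      ∑ a, (G.c (i a) * (|Real.log ‖y‖| + Real.log 2) + |Real.log (κ a)|) :=
    Finset.single_le_sum (f := fun a => G.c (i a) * (|Real.log ‖y‖| + Real.log 2) + |Real.log (κ a)|)
      (fun b _ => by positivity) (Finset.mem_univ a)
  refine le_trans ?_ hsum
  have hx0 : x ≠ 0 := ne0 hG hx
  have hxn : 0 < ‖x‖ := norm_pos_iff.mpr hx0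
  have hyn : 0 < ‖y‖ := norm_pos_iff.mpr hc.ne
  have hin := crs_inner hx0 hc.ne (hd.le.trans hc.r_le)
  have hinp : 0 < ‖(inner ℂ y x : ℂ)‖ := by
    have : 0 < ‖x‖ * ‖y‖ := by positivity
    linarith
  have h1 : Real.log ‖(inner ℂ y x : ℂ)‖ ≤ Real.log ‖y‖ + Real.log ‖x‖ := by
    rw [← Real.log_mul hyn.ne' hxn.ne']
    exact Real.log_le_log hinp (norm_inner_le_norm y x)
  have h2 : Real.log ‖x‖ + Real.log ‖y‖ ≤ Real.log 2 + Real.log ‖(inner ℂ y x : ℂ)‖ := by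
    rw [← Real.log_mul hxn.ne' hyn.ne', ← Real.log_mul two_ne_zero hinp.ne']
    exact Real.log_le_log (by positivity) hin
  have hE0 : G.E (i a) x ≠ 0 := hG.neE (i a) x hx
  have hEn : 0 < ‖G.E (i a) x‖ := norm_pos_iff.mpr hE0
  have h3 := hloc a x (KX hG hx) hd
  have hEl : 0 < ‖(G.E (i a) x).ofLp (l a)‖ := lt_of_lt_of_le (mul_pos (hκ a) hEn) h3
  have h4 : ‖(G.E (i a) x).ofLp (l a)‖ ≤ ‖G.E (i a) x‖ := PiLp.norm_apply_le (G.E (i a) x) (l a)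
  have h5 : Real.log ‖(G.E (i a) x).ofLp (l a)‖ ≤ Real.log ‖G.E (i a) x‖ := Real.log_le_log hEl h4
  have h6 : Real.log (κ a) + Real.log ‖G.E (i a) x‖ ≤ Real.log ‖(G.E (i a) x).ofLp (l a)‖ := by
    rw [← Real.log_mul (hκ a).ne' hEn.ne']
    exact Real.log_le_log (mul_pos (hκ a) hEn) h3
  have h7 := neg_abs_le (Real.log (κ a))
  have h8 := abs_le.mp (le_refl |Real.log ‖y‖|)
  have hcc : (0 : ℝ) ≤ G.c (i a) := Nat.cast_nonneg _
  unfold Geo.lam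
  have h9 : |Real.log ‖x‖ - Real.log ‖(inner ℂ y x : ℂ)‖| ≤ |Real.log ‖y‖| + Real.log 2 := by
    rw [abs_le]
    constructor <;> linarith [h8.1, h8.2]
  have h10 : |Real.log ‖G.E (i a) x‖ - Real.log ‖(G.E (i a) x).ofLp (l a)‖| ≤ |Real.log (κ a)| := by
    rw [abs_le]
    constructor <;> linarith [abs_nonneg (Real.log (κ a))]
  have h11 : (G.c (i a) : ℝ) * Real.log ‖x‖ - Real.log ‖G.E (i a) x‖ -
      (G.c (i a) * Real.log ‖(inner ℂ y x : ℂ)‖ - Real.log ‖(G.E (i a) x).ofLp (l a)‖) =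
      G.c (i a) * (Real.log ‖x‖ - Real.log ‖(inner ℂ y x : ℂ)‖) - (Real.log ‖G.E (i a) x‖ - Real.log ‖(G.E (i a) x).ofLp (l a)‖) := by ring
  rw [h11]
  refine (abs_sub _ _).trans ?_
  rw [abs_mul, abs_of_nonneg hcc]
  exact add_le_add (mul_le_mul_of_nonneg_left h9 hcc) h10

theorem crs_ell (hG : G.Ok) (hc : G.Crs y i l P r C α) : ∃ C' : ℝ, ∀ F : ℂ → EN N, Differentiable ℂ F → (∀ z, F z ∈ G.K) → ∀ z, dist (pr (F z)) (pr y) < r →
    ∀ a, ‖G.ell (i a) (F z) (deriv F z) -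
      (logDeriv (fun w => (G.E (i a) (F w)).ofLp (l a)) z - G.c (i a) * logDeriv (fun w => (inner ℂ y (F w) : ℂ)) z)‖ ≤ C' * fs (F z) (deriv F z) := by
  choose κ hκ hloc using hc.loc
  obtain ⟨Cf, hCf, hfs⟩ := hG.fsE
  refine ⟨∑ a, (1 / κ a * Cf + G.c (i a) * 2), fun F hF hK z hd a => ?_⟩
  have hpos : ∀ b, 0 ≤ 1 / κ b * Cf + G.c (i b) * 2 := by
    intro b
    have := hκ b
    positivity
  have hsum : 1 / κ a * Cf + G.c (i a) * 2 ≤ ∑ a, (1 / κ a * Cf + G.c (i a) * 2) :=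
    Finset.single_le_sum (f := fun a => 1 / κ a * Cf + G.c (i a) * 2) (fun b _ => hpos b) (Finset.mem_univ a)
  have hfs0 : 0 ≤ fs (F z) (deriv F z) := Pool.Agent.H36.BP.fs_nonneg _ _
  refine le_trans ?_ (mul_le_mul_of_nonneg_right hsum hfs0)
  have hx := hK z
  have hx0 : F z ≠ 0 := ne0 hG hx
  have hyn : 0 < ‖y‖ := norm_pos_iff.mpr hc.ne
  have hT : Tan G.X (F z) (deriv F z) := tan hG hF hK z
  have hE0 : G.E (i a) (F z) ≠ 0 := hG.neE (i a) _ hx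
  -- the derivatives
  have hE : HasFDerivAt (G.E (i a)) (fderiv ℂ (G.E (i a)) (F z)) (F z) := (hG.anE (i a) (F z)).differentiableAt.hasFDerivAt
  have hd1 : HasDerivAt (fun w => G.E (i a) (F w)) (fderiv ℂ (G.E (i a)) (F z) (deriv F z)) z := hE.comp_hasDerivAt z (hF z).hasDerivAt
  have hd2 : HasDerivAt (fun w => (G.E (i a) (F w)).ofLp (l a)) ((fderiv ℂ (G.E (i a)) (F z) (deriv F z)).ofLp (l a)) z :=
    (EuclideanSpace.proj (𝕜 := ℂ) (l a)).hasFDerivAt.comp_hasDerivAt z hd1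
  have hd3 : HasDerivAt (fun w => (inner ℂ y (F w) : ℂ)) (inner ℂ y (deriv F z)) z :=
    (innerSL ℂ y).hasFDerivAt.comp_hasDerivAt z (hF z).hasDerivAt
  rw [logDeriv_apply, logDeriv_apply, hd2.deriv, hd3.deriv]
  have h1 := LNear.proj (EuclideanSpace.proj (𝕜 := ℂ) (l a)) (u := G.E (i a) (F z)) (u' := fderiv ℂ (G.E (i a)) (F z) (deriv F z)) (A := 1) (κ := κ a)
    hE0 (hκ a) (fun v => by rw [one_mul]; exact PiLp.norm_apply_le v (l a)) (hloc a _ (KX hG hx) hd)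
  have h2 := LNear.proj (innerSL ℂ y) (u := F z) (u' := deriv F z) (A := ‖y‖) (κ := ‖y‖ / 2) hx0 (by positivity)
    (fun v => norm_inner_le_norm y v) (by
      have := crs_inner hx0 hc.ne (hd.le.trans hc.r_le)
      show ‖y‖ / 2 * ‖F z‖ ≤ ‖(inner ℂ y (F z) : ℂ)‖
      linarith)
  have h3 : ‖y‖ / (‖y‖ / 2) = 2 := by field_simp
  rw [h3] at h2
  have h4 := hfs (i a) (F z) hx (deriv F z) hT
  have hcc : (0 : ℝ) ≤ G.c (i a) := Nat.cast_nonneg _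
  have h5 : G.ell (i a) (F z) (deriv F z) -
      ((fderiv ℂ (G.E (i a)) (F z) (deriv F z)).ofLp (l a) / (G.E (i a) (F z)).ofLp (l a) - G.c (i a) * ((inner ℂ y (deriv F z) : ℂ) / (inner ℂ y (F z) : ℂ))) =
      ((inner ℂ (G.E (i a) (F z)) (fderiv ℂ (G.E (i a)) (F z) (deriv F z)) : ℂ) / (‖G.E (i a) (F z)‖ : ℂ) ^ 2 -
        (fderiv ℂ (G.E (i a)) (F z) (deriv F z)).ofLp (l a) / (G.E (i a) (F z)).ofLp (l a)) -
      G.c (i a) * ((inner ℂ (F z) (deriv F z) : ℂ) / (‖F z‖ : ℂ) ^ 2 - (inner ℂ y (deriv F z) : ℂ) / (inner ℂ y (F z) : ℂ)) := by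
    unfold Geo.ell
    ring
  rw [h5]
  refine (norm_sub_le _ _).trans ?_
  rw [norm_mul, Complex.norm_natCast]
  have h6 : 1 / κ a * fs (G.E (i a) (F z)) (fderiv ℂ (G.E (i a)) (F z) (deriv F z)) ≤ 1 / κ a * (Cf * fs (F z) (deriv F z)) :=
    mul_le_mul_of_nonneg_left h4 (by have := hκ a; positivity)
  have h7 : (G.c (i a) : ℝ) * ‖(inner ℂ (F z) (deriv F z) : ℂ) / (‖F z‖ : ℂ) ^ 2 - (inner ℂ y (deriv F z) : ℂ) / (inner ℂ y (F z) : ℂ)‖ ≤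
      G.c (i a) * (2 * fs (F z) (deriv F z)) := mul_le_mul_of_nonneg_left h2 hcc
  refine (add_le_add (le_trans h1 h6) h7).trans (le_of_eq ?_)
  ring

end Pool.Agent.SR3
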