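import Pool.Agent.H43.TL2.M139
import Pool.Agent.H43.TL2.M143
import Pool.Agent.H43.TL2.M153

/-!
# SR3 LZer: factorization along the holes

`fac` and `fac_count` with the radii `s k / 2`; at a point of the rim `‖z - ζ k‖ = s k` the functions `⟪y, F⟫` and `(E i F) l` are bounded below.
-/

set_option autoImplicit false

open Topology Filter Metric

noncomputable section

namespace Pool.Agent.SR3

open Pool.Agent.H36.BP (EN fs wd Sub OrdTwo)
open Pool.Agent.H14.PP (IsCone Tan)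
open Pool.Agent.H62.EF (MN pr)

variable {N : ℕ} {G : Geo N} {y : EN N} {i : Fin 2 → G.ι} {l : Fin 2 → Fin (G.M + 1)} {P : G.J → MvPolynomial (Fin 2) ℂ} {r C α : ℝ}

/-- factorization of one function, with the number of zeros -/
private theorem one_fac {κ : Type} [Fintype κ] {ζ : κ → ℂ} {s : κ → ℝ} {z₀ : ℂ} {ρ : ℝ} (hρ : 0 < ρ) (hs : ∀ k, 0 < s k) (hin : ∀ k, ‖ζ k - z₀‖ + 4 * s k < ρ)
    (hsep : ∀ j k, j ≠ k → 20 * s j ≤ ‖ζ j - ζ k‖) {f : ℂ → ℂ} (hf : Differentiable ℂ f) {A B : ℝ}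
    (hA : ∀ z, ‖z - z₀‖ ≤ ρ → (∀ k, s k / 2 ≤ ‖z - ζ k‖) → Real.exp A ≤ ‖f z‖) (hB : ∀ k z, ‖z - ζ k‖ ≤ 4 * s k → ‖f z‖ ≤ Real.exp B) :
    ∃ (n : κ → ℕ) (b : (k : κ) → Fin (n k) → ℂ) (g : ℂ → ℂ), DifferentiableOn ℂ g (ball z₀ ρ) ∧ (∀ k j, b k j ∈ closedBall (ζ k) (s k / 2)) ∧
      (∀ z ∈ ball z₀ ρ, f z = Complex.exp (g z) * ∏ k, ∏ j, (z - b k j)) ∧ ∀ k, (n k : ℝ) * Real.log (7 / 3) ≤ B - A := by
  classical
  have hsub : ∀ k, closedBall (ζ k) (4 * s k) ⊆ ball z₀ ρ := by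
    intro k
    refine closedBall_subset_ball' ?_
    rw [dist_eq_norm]
    linarith [hin k]
  have hdis : ∀ j k, j ≠ k → Disjoint (closedBall (ζ j) (s j / 2)) (closedBall (ζ k) (s k / 2)) := by
    intro j k hjk
    refine closedBall_disjoint_closedBall ?_
    have h1 := hsep j k hjk
    have h2 := hsep k j (Ne.symm hjk)
    rw [norm_sub_rev] at h2
    rw [dist_eq_norm]
    linarith [hs j, hs k]
  obtain ⟨n, b, g, hg, hb, hfg⟩ := fac hf hρ (fun k => (closedBall_subset_closedBall (by linarith [hs k])).trans (hsub k)) hdis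
    (fun z hz hk => by
      rw [mem_closedBall, dist_eq_norm] at hz
      have h1 := hA z hz fun k => (hk k).le
      intro h2
      rw [h2, norm_zero] at h1
      exact absurd (Real.exp_pos A) (not_lt.2 h1))
  refine ⟨n, b, g, hg, hb, hfg, fun k => ?_⟩
  -- the function without the zeros in the hole `k`
  have hG : DifferentiableOn ℂ (fun z => Complex.exp (g z) * ∏ k' ∈ Finset.univ.erase k, ∏ j, (z - b k' j)) (ball z₀ ρ) := by
    refine hg.cexp.mul (Differentiable.differentiableOn ?_)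
    fun_prop
  have hz : ‖(ζ k + (s k : ℂ)) - ζ k‖ = s k := by
    rw [add_sub_cancel_left, Complex.norm_real, Real.norm_of_nonneg (hs k).le]
  have hz0 : ‖(ζ k + (s k : ℂ)) - z₀‖ ≤ ρ := by
    have h1 : ‖(ζ k + (s k : ℂ)) - z₀‖ ≤ ‖(ζ k + (s k : ℂ)) - ζ k‖ + ‖ζ k - z₀‖ := norm_sub_le_norm_sub_add_norm_sub _ _ _
    linarith [hin k, hs k]
  have hzo : ∀ j, s j / 2 ≤ ‖(ζ k + (s k : ℂ)) - ζ j‖ := by
    intro j
    by_cases hjk : j = k
    · subst hjk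
      rw [hz]
      linarith [hs j]
    · have h1 := hsep j k hjk
      have h2 := hsep k j (Ne.symm hjk)
      have h3 : ‖ζ k - ζ j‖ ≤ ‖ζ k - (ζ k + (s k : ℂ))‖ + ‖(ζ k + (s k : ℂ)) - ζ j‖ := norm_sub_le_norm_sub_add_norm_sub _ _ _
      rw [norm_sub_rev (ζ k) (ζ k + (s k : ℂ)), hz] at h3
      rw [norm_sub_rev] at h1
      linarith [hs j, hs k]
  refine fac_count hf (half_pos (hs k)) (hb k) isOpen_ball (U := ball z₀ ρ) ?_ hG ?_ (B := B) (A := A) ?_ (z := ζ k + (s k : ℂ)) ?_ (hA _ hz0 hzo)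
  · rw [show 8 * (s k / 2) = 4 * s k by ring]
    exact hsub k
  · intro z hz
    rw [hfg z hz, mul_assoc, Finset.prod_erase_mul _ _ (Finset.mem_univ k)]
  · intro z hz
    exact hB k z (by rw [hz]; linarith)
  · rw [hz]
    linarith

theorem hl_zer (hG : G.Ok) (hc : G.Crs y i l P r C α) {B η : ℝ} (hB : 1 ≤ B) (hη : 0 < η) : ∃ n₁ : ℝ, 0 ≤ n₁ ∧ ∀ (F : ℂ → EN N) (κ : Type) [Fintype κ]
    (ζ : κ → ℂ) (s : κ → ℝ) (M : κ → Fin 2 → ℕ) (z₀ : ℂ) (ρ K : ℝ), G.Hl y i l r F ζ s M z₀ ρ B η K → 0 < ρ → ∀ a, ∃ (n n' : κ → ℕ)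
      (b : (k : κ) → Fin (n k) → ℂ) (b' : (k : κ) → Fin (n' k) → ℂ) (g g' : ℂ → ℂ), DifferentiableOn ℂ g (ball z₀ ρ) ∧ DifferentiableOn ℂ g' (ball z₀ ρ) ∧
      (∀ k j, b k j ∈ closedBall (ζ k) (s k / 2)) ∧ (∀ k j, b' k j ∈ closedBall (ζ k) (s k / 2)) ∧
      (∀ z ∈ ball z₀ ρ, (inner ℂ y (F z) : ℂ) = Complex.exp (g z) * ∏ k, ∏ j, (z - b k j)) ∧
      (∀ z ∈ ball z₀ ρ, (G.E (i a) (F z)).ofLp (l a) = Complex.exp (g' z) * ∏ k, ∏ j, (z - b' k j)) ∧ ∀ k, (n k : ℝ) ≤ n₁ ∧ (n' k : ℝ) ≤ n₁ := by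
  have _ := hB
  have _ := hη
  obtain ⟨B₁, hB₁0, hB₁⟩ := log_lower hG
  obtain ⟨B₂, hB₂0, hB₂⟩ := lam_upperA hG
  have hE : ∀ a : Fin 2, ∃ B : ℝ, 1 ≤ B ∧ ∀ x : EN N, ‖x‖ ≠ 0 → ‖G.E (i a) x‖ ≤ B * ‖x‖ ^ G.c (i a) := fun a =>
    ALam_hom (continuous_iff_continuousAt.2 fun x => (hG.anE (i a) x).continuousAt) fun t x => hG.smulE (i a) t x
  choose D hD1 hD using hE
  have hloc : ∀ a : Fin 2, ∃ c : ℝ, 0 < c ∧ ∀ x ∈ G.X, dist (pr x) (pr y) < r → c * ‖G.E (i a) x‖ ≤ ‖(G.E (i a) x).ofLp (l a)‖ := fun a => hc.loc a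
  choose c hc0 hcl using hloc
  have hy0 : 0 < ‖y‖ := norm_pos_iff.2 hc.ne
  have h73 : 0 < Real.log (7 / 3) := Real.log_pos (by norm_num)
  -- the constants for `(E i F) l`
  have hq : ∀ a : Fin 2, ∃ q : ℝ, 0 ≤ q ∧ Real.log (D a) + G.c (i a) * B - (Real.log (c a) - ((G.c (i a) - G.h) * B₁ + B₂)) ≤ q := fun a => ⟨max 0 _, le_max_left _ _, le_max_right _ _⟩
  choose q hq0 hq1 using hq
  have hqs : ∀ a, q a ≤ ∑ a, q a := fun a => Finset.single_le_sum (fun a _ => hq0 a) (Finset.mem_univ a)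
  refine ⟨(|B + B₁ + Real.log 2| + ∑ a, q a) / Real.log (7 / 3), div_nonneg (add_nonneg (abs_nonneg _) (Finset.sum_nonneg fun a _ => hq0 a)) h73.le, ?_⟩
  intro F κ _ ζ s M z₀ ρ K H hρ a
  have hK0 : ∀ z, F z ≠ 0 := fun z => ne0 hG (H.mem z)
  have hKX : ∀ z, F z ∈ G.X := fun z => KX hG (H.mem z)
  have hn0 : ∀ z, 0 < ‖F z‖ := fun z => norm_pos_iff.2 (hK0 z)
  -- `⟪y, F⟫`
  have hf1 : Differentiable ℂ (fun z => (inner ℂ y (F z) : ℂ)) := by
    have h1 : Differentiable ℂ (fun z => (innerSL ℂ y) (F z)) := (innerSL ℂ y).differentiable.comp H.diff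
    exact h1
  obtain ⟨n, b, g, hg, hb, hfg, hn⟩ := one_fac (A := Real.log ‖y‖ - Real.log 2 - B₁) (B := Real.log ‖y‖ + B) hρ H.s_pos H.inb H.sep hf1
    (fun z hz hk => by
      have h1 := crs_inner (hK0 z) hc.ne ((H.near z hz hk).le.trans hc.r_le)
      have h2 := hB₁ (F z) (H.nm z)
      have h3 : Real.exp (-B₁) ≤ ‖F z‖ := by
        rw [← Real.exp_log (hn0 z)]
        exact Real.exp_le_exp.2 h2
      have h4 : Real.exp (Real.log ‖y‖ - Real.log 2 - B₁) = ‖y‖ / 2 * Real.exp (-B₁) := by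
        rw [show Real.log ‖y‖ - Real.log 2 - B₁ = (Real.log ‖y‖ - Real.log 2) + -B₁ by ring, Real.exp_add, Real.exp_sub, Real.exp_log hy0,
          Real.exp_log (by norm_num : (0 : ℝ) < 2)]
      rw [h4]
      have h5 : ‖y‖ / 2 * Real.exp (-B₁) ≤ ‖y‖ / 2 * ‖F z‖ := mul_le_mul_of_nonneg_left h3 (by positivity)
      show ‖y‖ / 2 * Real.exp (-B₁) ≤ ‖(inner ℂ y (F z) : ℂ)‖
      linarith)
    (fun k z hz => by
      have h1 := H.bdd k z hz
      have h2 : ‖F z‖ ≤ Real.exp B := by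
        rw [← Real.exp_log (hn0 z)]
        exact Real.exp_le_exp.2 h1
      show ‖(inner ℂ y (F z) : ℂ)‖ ≤ Real.exp (Real.log ‖y‖ + B)
      rw [Real.exp_add, Real.exp_log hy0]
      exact (norm_inner_le_norm _ _).trans (mul_le_mul_of_nonneg_left h2 hy0.le))
  -- `(E i F) l`
  have hEd : Differentiable ℂ (G.E (i a)) := fun x => (hG.anE (i a) x).differentiableAt
  have hf2 : Differentiable ℂ (fun z => (G.E (i a) (F z)).ofLp (l a)) := by
    have h1 : Differentiable ℂ (fun z => G.E (i a) (F z)) := hEd.comp H.diff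
    exact (EuclideanSpace.proj (𝕜 := ℂ) (l a)).differentiable.comp h1
  have hch : (G.h : ℝ) + 1 ≤ G.c (i a) := by exact_mod_cast hG.c_ge (i a)
  obtain ⟨n', b', g', hg', hb', hfg', hn'⟩ := one_fac (A := Real.log (c a) - ((G.c (i a) - G.h) * B₁ + B₂)) (B := Real.log (D a) + G.c (i a) * B) hρ H.s_pos H.inb H.sep hf2
    (fun z hz hk => by
      have h1 := hcl a (F z) (hKX z) (H.near z hz hk)
      have h2 := hB₁ (F z) (H.nm z)
      have h3 := (hB₂ (F z) (H.mem z) (H.nm z)).1 (i a)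
      have hE0 : 0 < ‖G.E (i a) (F z)‖ := norm_pos_iff.2 (hG.neE (i a) (F z) (H.mem z))
      have h4 : -((G.c (i a) - G.h) * B₁ + B₂) ≤ Real.log ‖G.E (i a) (F z)‖ := by
        unfold Geo.lam at h3
        have h5 : 0 ≤ ((G.c (i a) : ℝ) - G.h) * (Real.log ‖F z‖ + B₁) := mul_nonneg (by linarith) (by linarith)
        nlinarith
      have h6 : Real.exp (Real.log (c a) - ((G.c (i a) - G.h) * B₁ + B₂)) ≤ c a * ‖G.E (i a) (F z)‖ := by
        rw [sub_eq_add_neg, Real.exp_add, Real.exp_log (hc0 a)]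
        refine mul_le_mul_of_nonneg_left ?_ (hc0 a).le
        rw [← Real.exp_log hE0]
        exact Real.exp_le_exp.2 h4
      exact h6.trans h1)
    (fun k z hz => by
      have h1 := H.bdd k z hz
      have h2 : ‖F z‖ ≤ Real.exp B := by
        rw [← Real.exp_log (hn0 z)]
        exact Real.exp_le_exp.2 h1
      have h3 : ‖(G.E (i a) (F z)).ofLp (l a)‖ ≤ ‖G.E (i a) (F z)‖ := PiLp.norm_apply_le _ _
      have h4 := hD a (F z) (hn0 z).ne'
      have hDa : 0 < D a := by linarith [hD1 a]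
      show ‖(G.E (i a) (F z)).ofLp (l a)‖ ≤ Real.exp (Real.log (D a) + G.c (i a) * B)
      rw [Real.exp_add, Real.exp_log hDa, Real.exp_nat_mul]
      exact h3.trans (h4.trans (mul_le_mul_of_nonneg_left (pow_le_pow_left₀ (norm_nonneg _) h2 _) hDa.le)))
  refine ⟨n, n', b, b', g, g', hg, hg', hb, hb', hfg, hfg', fun k => ⟨?_, ?_⟩⟩
  · rw [le_div_iff₀ h73]
    have h1 := hn k
    have h2 := le_abs_self (B + B₁ + Real.log 2)
    have h3 : 0 ≤ ∑ a, q a := Finset.sum_nonneg fun a _ => hq0 a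
    linarith
  · rw [le_div_iff₀ h73]
    have h1 := hn' k
    have h2 := abs_nonneg (B + B₁ + Real.log 2)
    have h3 := hqs a
    have h4 := hq1 a
    linarith

end Pool.Agent.SR3
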