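import Pool.Agent.H43.TL2.M149
import Pool.Agent.H43.TL2.M153
import Pool.Agent.H43.TL2.SR3.GDefs_1

/-!
# SR3 Cnt: the number of holes

The zeros of `F l - 2 exp B₃` near the holes; Jensen's inequality (`card_zeros_le`) with a hole as centre, and `growth`.
-/

set_option autoImplicit false

open Topology Filter Metric

noncomputable section

namespace Pool.Agent.SR3

open Pool.Agent.H36.BP (EN fs wd Sub OrdTwo)
open Pool.Agent.H14.PP (IsCone Tan)
open Pool.Agent.SY (Ent)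
open Pool.Agent.SDA (EnergyK Near AffOpen Nm nForms)
open Pool.Agent.H62.EF (MN pr)
open Geo (Gd)

variable {N : ℕ} {G : Geo N} {T : Set (EN N)} {rho : EN N → ℝ} {M : ℕ} {c₀ C δ : ℝ} {g : (ℂ → EN N) → ℂ → ℝ}

private lemma coord_diff {F : ℂ → EN N} (hF : Differentiable ℂ F) (l : Fin (N + 1)) : Differentiable ℂ fun z => (F z).ofLp l :=
  (EuclideanSpace.proj (𝕜 := ℂ) l).differentiable.comp hF

private lemma coord_le (x : EN N) (l : Fin (N + 1)) : ‖x.ofLp l‖ ≤ ‖x‖ := PiLp.norm_apply_le x l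

private lemma cnt_aux {F : ℂ → EN N} (hF : Differentiable ℂ F) {a : ℂ} {r R A B : ℝ} (hr : 0 < r) (hR : r < R) (hA : 0 ≤ A) (h0 : ‖F a‖ ≤ Real.exp B)
    (hb : ∀ z ∈ closedBall a R, ‖F z‖ ≤ Real.exp A) (u : Finset ℂ) (s : ℂ → ℝ) (hsep : ∀ b ∈ u, ∀ c ∈ u, b ≠ c → max (s b) (s c) < ‖b - c‖)
    (hz : ∀ b ∈ u, ∃ (l : Fin (N + 1)) (ζ : ℂ), ‖ζ - b‖ < s b / 2 ∧ ‖ζ - a‖ ≤ r ∧ (F ζ).ofLp l = 2 * (Real.exp B : ℝ)) :
    (u.card : ℝ) * Real.log (R / r) ≤ (N + 1) * (A + 2 * |B| + 2) := by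
  classical
  choose! l ζ h1 h2 h3 using hz
  have hinj : ∀ b ∈ u, ∀ c ∈ u, ζ b = ζ c → b = c := by
    intro b hb' c hc h
    by_contra hbc
    have h4 := hsep b hb' c hc hbc
    have h5 : ‖b - c‖ ≤ ‖ζ b - b‖ + ‖ζ c - c‖ := by
      have h6 : b - c = (ζ c - c) - (ζ b - b) := by rw [h]; ring
      rw [h6]
      exact (norm_sub_le _ _).trans (by rw [add_comm])
    have h7 := h1 b hb'
    have h8 := h1 c hc
    have h9 := le_max_left (s b) (s c)
    have h10 := le_max_right (s b) (s c)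
    linarith
  have hexp : Real.exp B ≤ Real.exp (A + |B|) := Real.exp_le_exp.2 (by have := le_abs_self B; linarith)
  have hone : ∀ k : Fin (N + 1), ((u.filter fun b => l b = k).card : ℝ) * Real.log (R / r) ≤ A + 2 * |B| + 2 := by
    intro k
    have h4 : (u.filter fun b => l b = k).card = ((u.filter fun b => l b = k).image ζ).card := by
      rw [Finset.card_image_of_injOn]
      intro b hb' c hc h
      have hb'' := (Finset.mem_filter.1 (Finset.mem_coe.1 hb')).1
      have hc'' := (Finset.mem_filter.1 (Finset.mem_coe.1 hc)).1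
      exact hinj b hb'' c hc'' h
    have h5 : Real.exp B ≤ ‖(F a).ofLp k - 2 * ((Real.exp B : ℝ) : ℂ)‖ := by
      have h6 : ‖(2 * ((Real.exp B : ℝ) : ℂ))‖ = 2 * Real.exp B := by
        rw [norm_mul, Complex.norm_real, Real.norm_eq_abs, abs_of_pos (Real.exp_pos _)]
        norm_num
      have h7 := norm_sub_norm_le (2 * ((Real.exp B : ℝ) : ℂ)) ((F a).ofLp k)
      rw [h6, norm_sub_rev] at h7
      have h8 := (coord_le (F a) k).trans h0
      linarith
    have h9 : B ≤ Real.log ‖(F a).ofLp k - 2 * ((Real.exp B : ℝ) : ℂ)‖ := by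
      rw [Real.le_log_iff_exp_le (lt_of_lt_of_le (Real.exp_pos _) h5)]
      exact h5
    rw [h4]
    have h10 := card_zeros_le (f := fun z => (F z).ofLp k - 2 * ((Real.exp B : ℝ) : ℂ)) (z₀ := a) (r := r) (R := R) (A := A + |B| + 2) hr hR
      ((coord_diff hF k).sub_const _) (fun h => by
        have h11 : ‖(F a).ofLp k - 2 * ((Real.exp B : ℝ) : ℂ)‖ = 0 := by rw [h, norm_zero]
        have := Real.exp_pos B
        linarith) (fun z hz => by
        have h12 := (coord_le (F z) k).trans (hb z hz)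
        have h13 := norm_sub_le ((F z).ofLp k) (2 * ((Real.exp B : ℝ) : ℂ))
        have h6 : ‖(2 * ((Real.exp B : ℝ) : ℂ))‖ = 2 * Real.exp B := by
          rw [norm_mul, Complex.norm_real, Real.norm_eq_abs, abs_of_pos (Real.exp_pos _)]
          norm_num
        have h14 : Real.exp A ≤ Real.exp (A + |B|) := Real.exp_le_exp.2 (by have := abs_nonneg B; linarith)
        have h15 : Real.exp (A + |B| + 2) = Real.exp (A + |B|) * Real.exp 2 := Real.exp_add _ _
        have h16 : (3 : ℝ) ≤ Real.exp 2 := by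
          have := Real.add_one_le_exp (2 : ℝ)
          linarith
        have h17 := mul_le_mul_of_nonneg_left h16 (Real.exp_pos (A + |B|)).le
        rw [h6] at h13
        rw [h15]
        linarith) ((u.filter fun b => l b = k).image ζ) (fun w hw => by
        obtain ⟨b, hb', rfl⟩ := Finset.mem_image.1 hw
        obtain ⟨hb1, hb2⟩ := Finset.mem_filter.1 hb'
        refine ⟨h2 b hb1, ?_⟩
        have h11 := h3 b hb1
        rw [hb2] at h11
        simp only
        rw [h11, sub_self])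
    have h18 := neg_abs_le B
    linarith
  have hsum : u.card = ∑ k : Fin (N + 1), (u.filter fun b => l b = k).card :=
    Finset.card_eq_sum_card_fiberwise (fun b _ => Finset.mem_coe.2 (Finset.mem_univ _))
  rw [hsum, Nat.cast_sum, Finset.sum_mul]
  refine (Finset.sum_le_sum fun k _ => hone k).trans (le_of_eq ?_)
  rw [Finset.sum_const, Finset.card_univ, Fintype.card_fin, nsmul_eq_mul]
  push_cast
  ring

/-- the theorem, with `growth` as hypothesis -/
private theorem Cnt_core (hG : G.Ok)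
    (hgrowth : ∃ B : ℝ, 0 ≤ B ∧ ∀ (q : G.J → ℂ) (F : ℂ → EN N), G.Cl T q F → ∀ z, Real.log ‖F z‖ ≤ B * (1 + infDist z (Gd rho δ F))) {Y : Finset (EN N)} {B₃ η θ θ' : ℝ} (hη : 0 < η) (h0 : 0 < θ') (h1 : θ' < θ) (h2 : θ < 1) :
    ∃ B₅ : ℝ, 0 < B₅ ∧ ∀ B₄ ε K : ℝ, 20 ≤ K → ∃ R : ℝ, 0 < R ∧ ∀ (q : G.J → ℂ) (F : ℂ → EN N), G.Cl T q F → ∀ z₀ t s y, R ≤ infDist z₀ (Gd rho δ F) →
      G.Holes Y B₃ B₄ ε K (Real.exp (-(η * infDist z₀ (Gd rho δ F)))) F z₀ (θ * infDist z₀ (Gd rho δ F)) t s y →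
      (t.card : ℝ) ≤ B₅ * infDist z₀ (Gd rho δ F) ∧
      ∀ a ∈ t, ‖a - z₀‖ ≤ θ' * infDist z₀ (Gd rho δ F) → ∀ r : ℝ, 0 < r → r < infDist z₀ (Gd rho δ F) →
        (((t.erase a).filter (fun b => ‖b - a‖ ≤ r)).card : ℝ) * Real.log (infDist z₀ (Gd rho δ F) / r) ≤ B₅ * infDist z₀ (Gd rho δ F) := by
  classical
  obtain ⟨B, hB, hgr⟩ := hgrowth
  refine ⟨(N + 1) * (12 * B + 2 * |B₃| + 2), by positivity, fun B₄ ε K hK => ⟨1, one_pos, fun q F hF z₀ t s y hd hH => ?_⟩⟩
  obtain ⟨d, hdd⟩ : ∃ d : ℝ, d = infDist z₀ (Gd rho δ F) := ⟨_, rfl⟩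
  rw [← hdd] at hd hH ⊢
  have hpos0 : ∀ z, 0 < ‖F z‖ := fun z => norm_pos_iff.2 (ne0 hG (hF.ent.mem z))
  have hbd : ∀ a z : ℂ, ‖a - z₀‖ ≤ d → z ∈ closedBall a (9 * d) → ‖F z‖ ≤ Real.exp (12 * B * d) := by
    intro a z ha hz
    rw [← Real.log_le_iff_le_exp (hpos0 z)]
    refine (hgr q F hF z).trans ?_
    have h3 : infDist z (Gd rho δ F) ≤ infDist z₀ (Gd rho δ F) + dist z z₀ := infDist_le_infDist_add_dist
    have h4 : dist z z₀ ≤ 9 * d + d := by
      refine (dist_triangle z a z₀).trans (add_le_add (mem_closedBall.1 hz) ?_)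
      rw [dist_eq_norm]
      exact ha
    rw [← hdd] at h3
    have h5 : 1 + infDist z (Gd rho δ F) ≤ 12 * d := by linarith
    have := mul_le_mul_of_nonneg_left h5 hB
    linarith
  have hcen : ∀ a ∈ t, ‖a - z₀‖ ≤ d := by
    intro a ha
    have h3 := hH.cen a ha
    rw [mem_closedBall, dist_eq_norm] at h3
    nlinarith
  have hlow : ∀ a ∈ t, ‖F a‖ ≤ Real.exp B₃ := by
    intro a ha
    have h3 := (hH.rim a ha).low
    simp only [mul_zero, add_zero] at h3
    exact (Real.log_le_iff_le_exp (hpos0 a)).1 h3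
  have hs1 : ∀ a ∈ t, 0 < s a ∧ s a ≤ 1 := by
    intro a ha
    refine ⟨(hH.pos a ha).1, (hH.pos a ha).2.trans ?_⟩
    rw [Real.exp_le_one_iff]
    nlinarith
  have hsep : ∀ b ∈ t, ∀ c ∈ t, b ≠ c → 20 * max (s b) (s c) < ‖b - c‖ := by
    intro b hb c hc hbc
    have h3 := hH.sep b hb c hc hbc
    have h4 : 0 < max (s b) (s c) := lt_max_of_lt_left (hs1 b hb).1
    nlinarith
  have hval : ∀ b ∈ t, ∃ (l : Fin (N + 1)) (ζ : ℂ), ‖ζ - b‖ < s b / 2 ∧ (F ζ).ofLp l = 2 * (Real.exp B₃ : ℝ) := by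
    intro b hb
    obtain ⟨l, w, hw, h3⟩ := (hH.rim b hb).val
    refine ⟨l, b + s b * w, ?_, h3⟩
    rw [add_sub_cancel_left, norm_mul, Complex.norm_real, Real.norm_eq_abs, abs_of_pos (hs1 b hb).1]
    have := (hs1 b hb).1
    nlinarith
  have hA : 0 ≤ 12 * B * d := by positivity
  have hN : (0 : ℝ) ≤ N := Nat.cast_nonneg N
  have hfin : ((N : ℝ) + 1) * (12 * B * d + 2 * |B₃| + 2) ≤ (N + 1) * (12 * B + 2 * |B₃| + 2) * d := by
    have h3 : 12 * B * d + 2 * |B₃| + 2 ≤ (12 * B + 2 * |B₃| + 2) * d := by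
      have := abs_nonneg B₃
      nlinarith
    have := mul_le_mul_of_nonneg_left h3 (by linarith : (0 : ℝ) ≤ N + 1)
    linarith
  refine ⟨?_, fun a ha _ r hr hrd => ?_⟩
  · rcases t.eq_empty_or_nonempty with rfl | ⟨a, ha⟩
    · rw [Finset.card_empty, Nat.cast_zero]
      have := abs_nonneg B₃
      positivity
    · have h3 := cnt_aux hF.ent.diff (a := a) (r := 3 * d) (R := 9 * d) (A := 12 * B * d) (B := B₃) (by linarith) (by linarith) hA (hlow a ha)
        (fun z hz => hbd a z (hcen a ha) hz) t s (fun b hb c hc hbc => by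
          have h4 := hsep b hb c hc hbc
          have h5 : 0 < max (s b) (s c) := lt_max_of_lt_left (hs1 b hb).1
          linarith) (fun b hb => by
          obtain ⟨l, ζ, h4, h5⟩ := hval b hb
          refine ⟨l, ζ, h4, ?_, h5⟩
          have h6 : ζ - a = (ζ - b) + (b - z₀) - (a - z₀) := by ring
          rw [h6]
          have h7 := norm_sub_le ((ζ - b) + (b - z₀)) (a - z₀)
          have h8 := norm_add_le (ζ - b) (b - z₀)
          have h9 := hcen b hb
          have h10 := hcen a ha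
          have h11 := (hs1 b hb).2
          linarith)
      have h4 : 9 * d / (3 * d) = 3 := by
        have : d ≠ 0 := by linarith
        field_simp
        norm_num
      rw [h4] at h3
      have h5 : 1 ≤ Real.log 3 := by
        rw [Real.le_log_iff_exp_le (by norm_num)]
        have := Real.exp_one_lt_d9
        linarith
      have h6 : (t.card : ℝ) * 1 ≤ t.card * Real.log 3 := mul_le_mul_of_nonneg_left h5 (Nat.cast_nonneg _)
      linarith
  · have h3 := cnt_aux hF.ent.diff (a := a) (r := 2 * r) (R := 2 * d) (A := 12 * B * d) (B := B₃) (by linarith) (by linarith) hA (hlow a ha)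
      (fun z hz => hbd a z (hcen a ha) (closedBall_subset_closedBall (by linarith) hz)) ((t.erase a).filter (fun b => ‖b - a‖ ≤ r)) s
      (fun b hb c hc hbc => by
        have hb' := Finset.mem_of_mem_erase (Finset.mem_filter.1 hb).1
        have hc' := Finset.mem_of_mem_erase (Finset.mem_filter.1 hc).1
        have h4 := hsep b hb' c hc' hbc
        have h5 : 0 < max (s b) (s c) := lt_max_of_lt_left (hs1 b hb').1
        linarith) (fun b hb => by
        obtain ⟨hb1, hb2⟩ := Finset.mem_filter.1 hb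
        have hba := Finset.ne_of_mem_erase hb1
        have hb' := Finset.mem_of_mem_erase hb1
        obtain ⟨l, ζ, h4, h5⟩ := hval b hb'
        refine ⟨l, ζ, h4, ?_, h5⟩
        have h6 := hsep b hb' a ha hba
        have h7 := le_max_left (s b) (s a)
        have h8 := norm_add_le (ζ - b) (b - a)
        have h9 : ζ - b + (b - a) = ζ - a := by ring
        rw [h9] at h8
        linarith)
    have h4 : 2 * d / (2 * r) = d / r := by
      rw [mul_div_mul_left _ _ (by norm_num : (2 : ℝ) ≠ 0)]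
    rw [h4] at h3
    linarith

theorem holes_count (hG : G.Ok) (hM : G.Met T rho M c₀ C δ g) (hQ : G.QN rho) {Y : Finset (EN N)} {B₃ η θ θ' : ℝ} (hη : 0 < η) (h0 : 0 < θ') (h1 : θ' < θ) (h2 : θ < 1) :
    ∃ B₅ : ℝ, 0 < B₅ ∧ ∀ B₄ ε K : ℝ, 20 ≤ K → ∃ R : ℝ, 0 < R ∧ ∀ (q : G.J → ℂ) (F : ℂ → EN N), G.Cl T q F → ∀ z₀ t s y, R ≤ infDist z₀ (Gd rho δ F) →
      G.Holes Y B₃ B₄ ε K (Real.exp (-(η * infDist z₀ (Gd rho δ F)))) F z₀ (θ * infDist z₀ (Gd rho δ F)) t s y →
      (t.card : ℝ) ≤ B₅ * infDist z₀ (Gd rho δ F) ∧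
      ∀ a ∈ t, ‖a - z₀‖ ≤ θ' * infDist z₀ (Gd rho δ F) → ∀ r : ℝ, 0 < r → r < infDist z₀ (Gd rho δ F) →
        (((t.erase a).filter (fun b => ‖b - a‖ ≤ r)).card : ℝ) * Real.log (infDist z₀ (Gd rho δ F) / r) ≤ B₅ * infDist z₀ (Gd rho δ F) :=
  Cnt_core hG (growth hG hM) hη h0 h1 h2

end Pool.Agent.SR3
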