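import Pool.Agent.H43.TL2.M172
import Pool.Agent.H43.TL2.M173
import Pool.Agent.H43.TL2.M174

/-!
# SR3 LMac: the end of the local theory at a crossing
-/

set_option autoImplicit false

open Topology Filter Metric

noncomputable section

namespace Pool.Agent.SR3

open Pool.Agent.H36.BP (EN fs wd Sub OrdTwo)
open Pool.Agent.H14.PP (IsCone Tan)
open Pool.Agent.SY (Ent)
open Pool.Agent.H62.EF (MN pr)
open Geo (Gd)

variable {N : ℕ} {G : Geo N}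
variable {y : EN N} {i : Fin 2 → G.ι} {l : Fin 2 → Fin (G.M + 1)} {P : G.J → MvPolynomial (Fin 2) ℂ} {r C α : ℝ}

/-- a finite family of positive numbers has a positive lower bound -/
theorem LMac_inf {J : Type} [Fintype J] (c : J → ℝ) (hc : ∀ j, 0 < c j) : ∃ c₀ : ℝ, 0 < c₀ ∧ ∀ j, c₀ ≤ c j := by
  rcases isEmpty_or_nonempty J with hJ | hJ
  · exact ⟨1, one_pos, fun j => (hJ.false j).elim⟩
  · obtain ⟨j, hj⟩ := Finite.exists_min c
    exact ⟨c j, hc j, hj⟩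

/-- a finite family of numbers has an upper bound -/
theorem LMac_sup {J : Type} [Fintype J] (c : J → ℝ) : ∃ c₀ : ℝ, 0 ≤ c₀ ∧ ∀ j, c j ≤ c₀ :=
  ⟨∑ j, |c j|, Finset.sum_nonneg fun _ _ => abs_nonneg _,
    fun j => (le_abs_self _).trans (Finset.single_le_sum (f := fun j => |c j|) (fun _ _ => abs_nonneg _) (Finset.mem_univ j))⟩

/-- the values of length one -/
theorem LMac_nq (hG : G.Ok) {q : G.J → ℂ} (hq : G.nq q = 1) :
    (∀ j, ‖q j‖ ≤ 1) ∧ ∃ j, (1 / (Fintype.card G.J : ℝ)) ^ G.m j ≤ ‖q j‖ := by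
  have hJ := hG.neJ
  have hn : (0 : ℝ) < (Fintype.card G.J : ℝ) := by exact_mod_cast Fintype.card_pos
  have h0 : ∀ j, (‖q j‖ ^ ((G.m j : ℝ)⁻¹)) ^ G.m j = ‖q j‖ := fun j =>
    Real.rpow_inv_natCast_pow (norm_nonneg _) (by have := hG.one_m j; omega)
  have hq' : ∑ j, ‖q j‖ ^ ((G.m j : ℝ)⁻¹) = 1 := hq
  constructor
  · intro j
    have h1 : ‖q j‖ ^ ((G.m j : ℝ)⁻¹) ≤ 1 := by
      rw [← hq']
      exact Finset.single_le_sum (f := fun j => ‖q j‖ ^ ((G.m j : ℝ)⁻¹)) (fun j _ => Real.rpow_nonneg (norm_nonneg _) _)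
        (Finset.mem_univ j)
    rw [← h0 j]
    exact pow_le_one₀ (Real.rpow_nonneg (norm_nonneg _) _) h1
  · obtain ⟨j, -, hj⟩ := Finset.exists_le_of_sum_le (s := (Finset.univ : Finset G.J)) (f := fun _ => 1 / (Fintype.card G.J : ℝ))
      (g := fun j => ‖q j‖ ^ ((G.m j : ℝ)⁻¹)) Finset.univ_nonempty (by
        rw [hq', Finset.sum_const, Finset.card_univ, nsmul_eq_mul, mul_one_div_cancel hn.ne'])
    refine ⟨j, ?_⟩
    rw [← h0 j]
    exact pow_le_pow_left₀ (by positivity) hj _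

/-- from a point in a disc one reaches the circle without changing `Re (l z)` -/
theorem LMac_rim (l z ζ : ℂ) {s : ℝ} (h : ‖z - ζ‖ < s) : ∃ z' : ℂ, ‖z' - ζ‖ = s ∧ (l * (z' - z)).re = 0 := by
  obtain ⟨v, hv, hlv⟩ : ∃ v : ℂ, v ≠ 0 ∧ (l * v).re = 0 := by
    by_cases hl : l = 0
    · exact ⟨1, one_ne_zero, by simp [hl]⟩
    · refine ⟨Complex.I * star l, mul_ne_zero Complex.I_ne_zero (star_ne_zero.2 hl), ?_⟩
      simp [Complex.mul_re, Complex.mul_im]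
      ring
  have hv' : 0 < ‖v‖ := norm_pos_iff.2 hv
  have hs : 0 < s := (norm_nonneg _).trans_lt h
  have hcont : ContinuousOn (fun t : ℝ => ‖z + t * v - ζ‖) (Set.Icc 0 (2 * s / ‖v‖)) := by
    refine Continuous.continuousOn ?_
    fun_prop
  have h2 : s ≤ ‖z + ((2 * s / ‖v‖ : ℝ) : ℂ) * v - ζ‖ := by
    have h3 : ‖((2 * s / ‖v‖ : ℝ) : ℂ) * v‖ = 2 * s := by
      rw [norm_mul, Complex.norm_real, Real.norm_of_nonneg (by positivity), div_mul_cancel₀ _ hv'.ne']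
    have h4 : ‖((2 * s / ‖v‖ : ℝ) : ℂ) * v‖ ≤ ‖z + ((2 * s / ‖v‖ : ℝ) : ℂ) * v - ζ‖ + ‖z - ζ‖ := by
      calc ‖((2 * s / ‖v‖ : ℝ) : ℂ) * v‖ = ‖(z + ((2 * s / ‖v‖ : ℝ) : ℂ) * v - ζ) - (z - ζ)‖ := by
            congr 1
            ring
        _ ≤ _ := norm_sub_le _ _
    linarith only [h, h3, h4]
  obtain ⟨t, -, ht⟩ := intermediate_value_Icc (by positivity : (0 : ℝ) ≤ 2 * s / ‖v‖) hcont (show s ∈ Set.Icc _ _ from
    ⟨by simpa using h.le, h2⟩)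
  refine ⟨z + t * v, ht, ?_⟩
  rw [add_sub_cancel_left, show l * ((t : ℂ) * v) = (t : ℂ) * (l * v) by ring, Complex.re_ofReal_mul, hlv, mul_zero]

/-- the end of the local theory -/
theorem hl_macro (hG : G.Ok) (hc : G.Crs y i l P r C α) : ∃ c₁ : ℝ, 0 < c₁ ∧ ∀ B η ε : ℝ, 1 ≤ B → 0 < η → 0 < ε → ∃ K₁ ρ₁ : ℝ, ∀ (q : G.J → ℂ)
    (F : ℂ → EN N) (κ : Type) [Fintype κ] (ζ : κ → ℂ) (s : κ → ℝ) (M : κ → Fin 2 → ℕ) (z₀ : ℂ) (ρ K : ℝ), G.nq q = 1 →
      (∀ j z, G.w j (F z) (deriv F z) = q j) → G.Hl y i l r F ζ s M z₀ ρ B η K → K₁ ≤ K → ρ₁ ≤ ρ → (∃ k, ζ k = z₀) → ∃ u : ℂ, c₁ ≤ ‖u‖ ∧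
        ∀ z, ‖z - z₀‖ ≤ (1 - ε) * ρ → |(u * (z - z₀)).re| ≤ 2 * G.h * Real.log ‖F z‖ + ε * ρ := by
  have hJ := hG.neJ
  have hn : (0 : ℝ) < (Fintype.card G.J : ℝ) := by exact_mod_cast Fintype.card_pos
  have hcj : ∀ j : G.J, (0 : ℝ) < (1 / (Fintype.card G.J : ℝ)) ^ G.m j := fun j => by positivity
  have hmac := fun j : G.J => wd_macro (hG.one_m j) (hc.hom j) (hcj j)
  choose c₁ hc₁ hmac using hmac
  obtain ⟨c₀, hc0, hc01⟩ := LMac_inf c₁ hc₁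
  refine ⟨c₀, hc0, fun B η ε hB hη hε => ?_⟩
  obtain ⟨C', ρa, hC', hwd⟩ := hl_wd hG hc hB hη
  have hmac2 := fun j : G.J => hmac j C' η (ε / 2) hC' hη (by positivity)
  choose K₁ θ₁ hθ₁ hmac2 using hmac2
  obtain ⟨θ₂, hθ₂, hres⟩ := hl_res hG hc (ε := ε / 2 / 2) hB hη (by positivity) hC'
  obtain ⟨θ₃, hθ₃, hθ31⟩ := LMac_inf θ₁ hθ₁
  obtain ⟨K₂, -, hK₂⟩ := LMac_sup K₁
  set θ : ℝ := min θ₂ θ₃ with hθd
  have hθ : 0 < θ := lt_min hθ₂ hθ₃
  have hθ2 : θ ≤ θ₂ := min_le_left _ _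
  have hθ1 : ∀ j, θ ≤ θ₁ j := fun j => (min_le_right _ _).trans (hθ31 j)
  obtain ⟨ρb, hres⟩ := hres θ hθ hθ2
  have hmac3 := fun j : G.J => hmac2 j θ hθ (hθ1 j)
  choose ρc hmac3 using hmac3
  obtain ⟨ρd, -, hρd⟩ := LMac_sup ρc
  obtain ⟨BL, hBL, hlow⟩ := lam_lowerA hG
  obtain ⟨BU, hBU, hupp⟩ := lam_upperA hG
  obtain ⟨BG, hBG, hlog⟩ := log_lower hG
  have hh0 : (0 : ℝ) ≤ (G.h : ℝ) := Nat.cast_nonneg _
  set D : ℝ := C' + BU + BL + G.h * BG with hD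
  have hD0 : 0 ≤ D := by
    have := mul_nonneg hh0 hBG
    linarith only [hC', hBL, hBU, this]
  set E : ℝ := 2 * (G.h * BG) + 2 * (G.h * B) + 2 * D with hE
  have hE0 : 0 ≤ E := by
    have := mul_nonneg hh0 hBG
    have := mul_nonneg hh0 (zero_le_one.trans hB)
    linarith
  refine ⟨max 2 K₂, max (max ρa ρb) (max ρd (max 1 ((E + 5) / (ε / 2)))), ?_⟩
  intro q F κ _ ζ s M z₀ ρ K hq hval hHl hK hρ hk₀
  have hρa : ρa ≤ ρ := (le_max_left _ _).trans ((le_max_left _ _).trans hρ)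
  have hρb : ρb ≤ ρ := (le_max_right _ _).trans ((le_max_left _ _).trans hρ)
  have hρ3 : max ρd (max 1 ((E + 5) / (ε / 2))) ≤ ρ := (le_max_right _ _).trans hρ
  have hρd' : ρd ≤ ρ := (le_max_left _ _).trans hρ3
  have hρ4 : max 1 ((E + 5) / (ε / 2)) ≤ ρ := (le_max_right _ _).trans hρ3
  have hρ1 : 1 ≤ ρ := (le_max_left _ _).trans hρ4
  have hρ0 : 0 < ρ := one_pos.trans_le hρ1
  have hρE : E + 5 ≤ ε / 2 * ρ := by
    have := (le_max_right _ _).trans hρ4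
    rw [div_le_iff₀ (by positivity)] at this
    linarith only [this]
  obtain ⟨h, hCmp⟩ := hwd F κ ζ s M z₀ ρ K hHl hρa
  obtain ⟨hq1, j, hj⟩ := LMac_nq hG hq
  have hK2 : 2 ≤ K := (le_max_left _ _).trans hK
  have hqn : ‖(-1 : ℂ) ^ G.m j * q j‖ = ‖q j‖ := by
    rw [norm_mul, norm_pow, norm_neg, norm_one, one_pow, one_mul]
  obtain ⟨u, hu, hu2⟩ := hmac3 j κ ζ s M h z₀ ρ K hCmp.wd ((hK₂ j).trans ((le_max_right _ _).trans hK)) ((hρd j).trans hρd')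
    ((-1) ^ G.m j * q j) (by rw [hqn]; exact hj) (by rw [hqn]; exact (hq1 j).trans hC')
    (fun z hz hzk => hres F κ ζ s M h z₀ ρ K hHl hCmp hK2 hρb hk₀ q hval j z hz hzk) hk₀
  refine ⟨u, (hc01 j).trans hu, fun z hz => ?_⟩
  -- the bound off the holes
  have hoff : ∀ z ∈ ball z₀ ((1 - ε / 2) * ρ), (∀ k, s k ≤ ‖z - ζ k‖) →
      |(u * (z - z₀)).re| ≤ 2 * (G.h * Real.log ‖F z‖) + 2 * D + ε / 2 * ρ := by
    intro z hz hzk
    have hzρ : z ∈ ball z₀ ρ := ball_subset_ball (by linarith only [hE0, hρE]) hz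
    have h1 := hu2 z hz hzk
    have h2 : ∀ a, |sg ζ M h a z| ≤ G.h * Real.log ‖F z‖ + D := by
      intro a
      have h3 := hCmp.lam a z hzρ hzk
      have h4 := hlow (i a) (F z) (hHl.mem z)
      have h5 := (hupp (F z) (hHl.mem z) (hHl.nm z)).1 (i a)
      have h6 := mul_le_mul_of_nonneg_left (hlog (F z) (hHl.nm z)) hh0
      have h7 := mul_nonneg hh0 hBG
      rw [abs_le] at h3 ⊢
      constructor <;> linarith [h3.1, h3.2]
    linarith only [h1, h2 0, h2 1]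
  have hlogz := mul_le_mul_of_nonneg_left (hlog (F z) (hHl.nm z)) hh0
  by_cases hoffz : ∀ k, s k ≤ ‖z - ζ k‖
  · have hzb : z ∈ ball z₀ ((1 - ε / 2) * ρ) := by
      rw [mem_ball, dist_eq_norm]
      linarith only [hE0, hρE, hz]
    have h1 := hoff z hzb hoffz
    have h2 := mul_nonneg hh0 hBG
    have h3 := mul_nonneg hh0 (zero_le_one.trans hB)
    linarith only [hρE, h1, h2, h3]
  · push Not at hoffz
    obtain ⟨k, hk⟩ := hoffz
    obtain ⟨z', hz'1, hz'2⟩ := LMac_rim u z (ζ k) hk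
    have hs1 : s k ≤ 1 := (hHl.s_le k).trans (Real.exp_le_one_iff.2 (by
      have := mul_pos hη hρ0
      linarith only [this]))
    have hz'b : z' ∈ ball z₀ ((1 - ε / 2) * ρ) := by
      rw [mem_ball, dist_eq_norm]
      have h1 : ‖z' - z₀‖ ≤ ‖z' - ζ k‖ + ‖z - ζ k‖ + ‖z - z₀‖ := by
        calc ‖z' - z₀‖ = ‖((z' - ζ k) - (z - ζ k)) + (z - z₀)‖ := by
              congr 1
              ring
          _ ≤ ‖(z' - ζ k) - (z - ζ k)‖ + ‖z - z₀‖ := norm_add_le _ _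
          _ ≤ _ := by
              gcongr
              exact norm_sub_le _ _
      linarith only [hE0, hρE, hz, hk, hz'1, hs1, h1]
    have hz'off : ∀ j, s j ≤ ‖z' - ζ j‖ := by
      intro j
      by_cases hjk : j = k
      · rw [hjk, hz'1]
      · have h1 := hHl.sep j k hjk
        have h2 := hHl.sep k j (Ne.symm hjk)
        rw [norm_sub_rev] at h2
        have h3 : ‖ζ j - ζ k‖ ≤ ‖z' - ζ j‖ + ‖z' - ζ k‖ := by
          calc ‖ζ j - ζ k‖ = ‖(z' - ζ k) - (z' - ζ j)‖ := by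
                congr 1
                ring
            _ ≤ ‖z' - ζ k‖ + ‖z' - ζ j‖ := norm_sub_le _ _
            _ = _ := add_comm _ _
        have h4 := hHl.s_pos j
        have h5 := hHl.s_pos k
        rw [hz'1] at h3
        linarith only [h1, h2, h3, h4]
    have h1 := hoff z' hz'b hz'off
    have h2 : Real.log ‖F z'‖ ≤ B := hHl.bdd k z' (by
      rw [hz'1]
      linarith only [hHl.s_pos k])
    have h3 : (u * (z - z₀)).re = (u * (z' - z₀)).re := by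
      have h4 : u * (z' - z₀) = u * (z' - z) + u * (z - z₀) := by ring
      rw [h4, Complex.add_re, hz'2, zero_add]
    have h4 := mul_le_mul_of_nonneg_left h2 hh0
    have h5 := mul_nonneg hh0 hBG
    rw [h3]
    linarith only [hρE, hlogz, h1, h4]

end Pool.Agent.SR3
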