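import Pool.Agent.H43.TL2.M154
import Pool.Agent.H43.TL2.M175
import Pool.Agent.H43.TL2.M182

/-!
# SR3 Mac: the macroscopic limit

An end at a crossing stays there on the whole disc of radius `θ' d`: rescale by `d` (`macro_loc`), `U` a disc.
-/

set_option autoImplicit false

open Topology Filter Metric

noncomputable section

namespace Pool.Agent.SR3

open Pool.Agent.H36.BP (EN fs wd Sub OrdTwo)
open Pool.Agent.H14.PP (IsCone Tan)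
open Pool.Agent.SY (Ent)
open Pool.Agent.SDA (EnergyK Near AffOpen Nm nForms)
open Pool.Agent.H62.EF (MN pr)
open Pool.Agent.G3 (LLift)
open Geo (Gd)

variable {N : ℕ} {G : Geo N} {T : Set (EN N)} {rho : EN N → ℝ} {M : ℕ} {c₀ C δ : ℝ} {g : (ℂ → EN N) → ℂ → ℝ}

/-! ### rescaling -/

/-- `macro_stay` from the statements of `stay`, `speedW`, `holes_count` -/
private theorem Mac_core (hG : G.Ok) (hB : G.Bdry) {Y : Finset (EN N)} (hY : G.Ends Y)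
    (hst : ∃ ε₁ : ℝ, 0 < ε₁ ∧ ∀ ε₂ : ℝ, 0 < ε₂ → ε₂ ≤ ε₁ → ∃ B₀ : ℝ,
    ∀ B₃ : ℝ, B₀ ≤ B₃ → ∀ η θ θ' : ℝ, 0 < η → 0 < θ' → θ' < θ → θ < 1 → ∃ ε₀ : ℝ, 0 < ε₀ ∧ ∀ ε : ℝ, 0 < ε → ε ≤ ε₀ → ∀ K B₄ : ℝ, 20 ≤ K → ∃ κ R : ℝ, 0 < κ ∧ 0 < R ∧
    ∀ (q : G.J → ℂ) (F : ℂ → EN N), G.Cl T q F → ∀ z₀ t s y, R ≤ infDist z₀ (Gd rho δ F) →
      G.Holes Y B₃ B₄ ε K (Real.exp (-(η * infDist z₀ (Gd rho δ F)))) F z₀ (θ * infDist z₀ (Gd rho δ F)) t s y →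
      ∀ a ∈ t, ‖a - z₀‖ ≤ θ' * infDist z₀ (Gd rho δ F) → ∀ z, ‖z - a‖ ≤ κ * infDist z₀ (Gd rho δ F) → Off t s z → dist (pr (F z)) (pr (y a)) < ε₂)
    (hsp : ∃ B₀ : ℝ, ∀ B₃ : ℝ, B₀ ≤ B₃ → ∃ B R : ℝ, 0 < B ∧ 0 < R ∧
    ∀ (q : G.J → ℂ) (F : ℂ → EN N), G.Cl T q F → ∀ (z : ℂ) (r : ℝ), R ≤ infDist z (Gd rho δ F) → 0 < r → r ≤ infDist z (Gd rho δ F) →
      (∀ w ∈ ball z r, B₃ < Real.log ‖F w‖) → fs (F z) (deriv F z) ≤ B / r)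
    (hcnt : ∀ B₃ η θ θ' : ℝ, 0 < η → 0 < θ' → θ' < θ → θ < 1 →
    ∃ B₅ : ℝ, 0 < B₅ ∧ ∀ B₄ ε K : ℝ, 20 ≤ K → ∃ R : ℝ, 0 < R ∧ ∀ (q : G.J → ℂ) (F : ℂ → EN N), G.Cl T q F → ∀ z₀ t s y, R ≤ infDist z₀ (Gd rho δ F) →
      G.Holes Y B₃ B₄ ε K (Real.exp (-(η * infDist z₀ (Gd rho δ F)))) F z₀ (θ * infDist z₀ (Gd rho δ F)) t s y →
      (t.card : ℝ) ≤ B₅ * infDist z₀ (Gd rho δ F) ∧
      ∀ a ∈ t, ‖a - z₀‖ ≤ θ' * infDist z₀ (Gd rho δ F) → ∀ r : ℝ, 0 < r → r < infDist z₀ (Gd rho δ F) →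
        (((t.erase a).filter (fun b => ‖b - a‖ ≤ r)).card : ℝ) * Real.log (infDist z₀ (Gd rho δ F) / r) ≤ B₅ * infDist z₀ (Gd rho δ F)) : ∃ ε₁ : ℝ, 0 < ε₁ ∧ ∀ ε₂ : ℝ, 0 < ε₂ → ε₂ ≤ ε₁ → ∃ B₀ : ℝ,
    ∀ B₃ : ℝ, B₀ ≤ B₃ → ∀ η θ θ' : ℝ, 0 < η → 0 < θ' → θ' < θ → θ < 1 → ∃ ε₀ : ℝ, 0 < ε₀ ∧ ∀ ε : ℝ, 0 < ε → ε ≤ ε₀ → ∀ K B₄ : ℝ, 20 ≤ K → ∃ R : ℝ, 0 < R ∧
    ∀ (q : G.J → ℂ) (F : ℂ → EN N), G.Cl T q F → ∀ z₀ t s y, R ≤ infDist z₀ (Gd rho δ F) →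
      G.Holes Y B₃ B₄ ε K (Real.exp (-(η * infDist z₀ (Gd rho δ F)))) F z₀ (θ * infDist z₀ (Gd rho δ F)) t s y →
      ∀ a ∈ t, ‖a - z₀‖ ≤ 1 → ∀ i i' : G.ι, i ≠ i' → G.E i (y a) = 0 → G.E i' (y a) = 0 →
      ∀ z, ‖z - z₀‖ ≤ θ' * infDist z₀ (Gd rho δ F) → Off t s z → dist (pr (F z)) (pr (y a)) < ε₂ := by
  obtain ⟨e1, he1, H1⟩ := hst
  obtain ⟨Bs, HS⟩ := hsp
  obtain ⟨e2, he2, H2⟩ := exists_limH hG hY
  obtain ⟨e3, he3, H3⟩ := lim_cross hG hB hY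
  obtain ⟨e4, he4, H4⟩ := lim_end hG hB hY
  obtain ⟨e5, he5, H5⟩ := exists_sep Y hY.inj
  refine ⟨min e1 (min e2 (min e3 (min e4 e5))), lt_min he1 (lt_min he2 (lt_min he3 (lt_min he4 he5))), fun ε₂ h0 h1 => ?_⟩
  rw [le_min_iff, le_min_iff, le_min_iff, le_min_iff] at h1
  obtain ⟨h11, h12, h13, h14, h15⟩ := h1
  obtain ⟨B1, H1⟩ := H1 ε₂ h0 h11
  refine ⟨max B1 Bs, fun B₃ hB₃ η θ θ' hη hθ' hθ hθ1 => ?_⟩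
  rw [max_le_iff] at hB₃
  obtain ⟨θ₁, hθa, hθb⟩ : ∃ θ₁, θ' < θ₁ ∧ θ₁ < θ := exists_between hθ
  obtain ⟨ε₀, hε₀, H1⟩ := H1 B₃ hB₃.1 η θ θ₁ hη (hθ'.trans hθa) hθb hθ1
  obtain ⟨Bv, Rv, hBv, hRv, HV⟩ := HS B₃ hB₃.2
  obtain ⟨B₅, hB₅, HC⟩ := hcnt B₃ η _ _ hη (hθ'.trans hθa) hθb hθ1
  refine ⟨min ε₀ (ε₂ / 2), lt_min hε₀ (by positivity), fun ε he he' K B₄ hK => ?_⟩
  rw [le_min_iff] at he'
  have h2e : 2 * ε ≤ ε₂ := by linarith [he'.2]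
  obtain ⟨κ, Rs, hκ, hRs, H1⟩ := H1 ε he he'.1 K B₄ hK
  obtain ⟨Rc, hRc, HC⟩ := HC B₄ ε K hK
  by_contra hcon
  push Not at hcon
  have hseq : ∀ n : ℕ, _ := fun n => hcon (n + 1) (by positivity)
  choose q F hF z₀ t s y hR hH a ha haz i i' hii hi hi' z hz hzO hzd using hseq
  obtain ⟨d, hd⟩ : ∃ d : ℕ → ℝ, ∀ n, d n = infDist (z₀ n) (Gd rho δ (F n)) := ⟨_, fun _ => rfl⟩
  simp only [← hd] at hR hH hz
  have hd1 : ∀ n, 1 ≤ d n := fun n => le_trans (by linarith [Nat.cast_nonneg (α := ℝ) n]) (hR n)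
  have hd0 : ∀ n, 0 < d n := fun n => lt_of_lt_of_le one_pos (hd1 n)
  obtain ⟨𝒰, h𝒰⟩ : ∃ 𝒰 : Ultrafilter ℕ, (𝒰 : Filter ℕ) ≤ atTop := ⟨hyperfilter ℕ, Nat.hyperfilter_le_atTop⟩
  have hdt : Tendsto d (𝒰 : Filter ℕ) atTop := by
    refine tendsto_atTop_mono (fun n => (hR n)) ?_
    exact (tendsto_natCast_atTop_atTop.atTop_add tendsto_const_nhds).mono_left h𝒰
  have hL := macro_loc (Y := Y) (ε₂ := ε₂) hη (hθ'.trans hθa) hθb hθ1 hκ hBv H1 HV (fun q F hF z₀ t s y h1 h2 => (HC q F hF z₀ t s y h1 h2).1) (𝒰 := 𝒰) hF hd hd1 hdt hH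
  obtain ⟨f, hf⟩ := H2 B₃ B₄ ε K ε₂ hK h12 𝒰 _ _ _ _ _ hL
  -- the constant end
  obtain ⟨v, hv, hvy⟩ : ∃ v ∈ (Y : Set (EN N)), ∀ᶠ n in (𝒰 : Filter ℕ), y n (a n) = v :=
    (Ultrafilter.eventually_exists_mem_iff Y.finite_toSet).1 (Eventually.of_forall fun n => ⟨_, ((hH n).rim _ (ha n)).mem, rfl⟩)
  obtain ⟨j, hj⟩ : ∃ j : G.ι × G.ι, ∀ᶠ n in (𝒰 : Filter ℕ), (i n, i' n) = j :=
    Ultrafilter.eventually_exists_iff.1 (Eventually.of_forall fun n => ⟨_, rfl⟩)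
  obtain ⟨n₁, hn₁, hn₁'⟩ := (hvy.and hj).exists
  have hjj : j.1 ≠ j.2 := by
    rw [← hn₁']
    exact hii n₁
  have hEj : G.E j.1 v = 0 := by
    rw [← hn₁', ← hn₁]
    exact hi n₁
  have hEj' : G.E j.2 v = 0 := by
    rw [← hn₁', ← hn₁]
    exact hi' n₁
  have hv0 : v ≠ 0 := by
    rintro rfl
    exact hG.cone.zero_notMem (hY.mem _ hv).1
  have hmem : ∀ n, (a n - z₀ n) / d n ∈ ct (z₀ n) (d n) (t n) := fun n => (mem_ct (hd0 n)).2 (by rw [cz_inv (hd0 n)]; exact ha n)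
  have hend : ∀ r : ℝ, 0 < r → ∀ᶠ n in (𝒰 : Filter ℕ), ∃ b ∈ ct (z₀ n) (d n) (t n), ‖b - 0‖ < r ∧ y n (cz (z₀ n) (d n) b) = v := by
    intro r hr
    filter_upwards [hvy, hdt.eventually_gt_atTop (1 / r)] with n h1 h2
    refine ⟨(a n - z₀ n) / d n, hmem n, ?_, by rw [cz_inv (hd0 n)]; exact h1⟩
    rw [sub_zero, norm_div, Complex.norm_real, Real.norm_of_nonneg (hd0 n).le, div_lt_iff₀ (hd0 n)]
    rw [div_lt_iff₀ hr] at h2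
    exact lt_of_le_of_lt (haz n) (by linarith)
  have h0U : (0 : ℂ) ∈ ball (0 : ℂ) θ₁ := mem_ball_self (hθ'.trans hθa)
  have hbd := lim_bdry hG hK hL hf h0U fun r hr => (hend r hr).mono fun n ⟨b, hb, hb', _⟩ => ⟨b, hb, hb'⟩
  have hf0 := H4 B₃ B₄ ε K ε₂ hK he h2e h14 𝒰 _ _ _ _ _ hL f hf hbd 0 h0U v j.1 j.2 hv hjj hEj hEj' hend
  have hfc : ∀ w ∈ ball (0 : ℂ) θ₁, f w = pr v := fun w hw =>
    (H3 B₃ B₄ ε K ε₂ hK he h2e h13 𝒰 _ _ _ _ _ hL f hf hbd 0 h0U v j.1 j.2 hv0 hf0 hjj hEj hEj' w hw).trans hf0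
  -- the bad points
  obtain ⟨θ₂, hθc, hθd⟩ : ∃ θ₂, θ' < θ₂ ∧ θ₂ < θ₁ := exists_between hθa
  have hLU : closedBall (0 : ℂ) θ₂ ⊆ ball 0 θ₁ := closedBall_subset_ball hθd
  have hlim := hf.lim _ hLU (isCompact_closedBall 0 θ₂) ε₂ h0
  obtain ⟨σ, hσ, hσ1, hσ2, hσ3⟩ : ∃ σ : ℝ, 0 < σ ∧ 2 * σ ≤ κ ∧ 4 * σ ≤ θ₂ - θ' ∧ σ ≤ 1 := by
    refine ⟨min (κ / 2) (min ((θ₂ - θ') / 4) 1), lt_min (by positivity) (lt_min (by linarith) one_pos), ?_, ?_, ?_⟩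
    · have := min_le_left (κ / 2) (min ((θ₂ - θ') / 4) 1)
      linarith
    · have := (min_le_right (κ / 2) (min ((θ₂ - θ') / 4) 1)).trans (min_le_left _ _)
      linarith
    · exact (min_le_right (κ / 2) (min ((θ₂ - θ') / 4) 1)).trans (min_le_right _ _)
  have hsum : ∀ᶠ n in (𝒰 : Filter ℕ), ∑ b ∈ ct (z₀ n) (d n) (t n), √(cs (z₀ n) (d n) (s n) b) < σ := by
    filter_upwards [hdt.eventually_ge_atTop Rc, (tendsto_sm (B₅ := B₅) hdt hη).eventually_lt_const hσ] with n hn1 hn2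
    refine lt_of_le_of_lt (sum_ct (hd1 n) (Real.exp_pos _).le ?_ fun b hb => ((hH n).pos b hb).2) hn2
    have h1 := (HC (q n) (F n) (hF n) (z₀ n) (t n) (s n) (y n) (by rwa [← hd n]) (by rw [← hd n]; exact hH n)).1
    rwa [← hd n] at h1
  obtain ⟨n, hvn, hRn, hlimn, hsumn⟩ := (hvy.and ((hdt.eventually_ge_atTop Rs).and (hlim.and hsum))).exists
  have hsq : ∀ b ∈ ct (z₀ n) (d n) (t n), √(cs (z₀ n) (d n) (s n) b) < σ := fun b hb =>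
    lt_of_le_of_lt (Finset.single_le_sum (f := fun b => √(cs (z₀ n) (d n) (s n) b)) (fun b _ => Real.sqrt_nonneg _) hb) hsumn
  have hHS : ∀ b ∈ ct (z₀ n) (d n) (t n), ‖b‖ ≤ θ₁ → ∀ w, ‖w - b‖ ≤ κ → Off (ct (z₀ n) (d n) (t n)) (cs (z₀ n) (d n) (s n)) w →
      dist (pr (F n (cz (z₀ n) (d n) w))) (pr (y n (cz (z₀ n) (d n) b))) < ε₂ := by
    intro b hb hb1 w hw hoff
    refine H1 (q n) (F n) (hF n) (z₀ n) (t n) (s n) (y n) (by rwa [← hd n]) (by rw [← hd n]; exact hH n) _ ((mem_ct (hd0 n)).1 hb) ?_ _ ?_ ((off_ct (hd0 n)).1 hoff)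
    · rw [← hd n, norm_cz0 (hd0 n), mul_comm]
      exact mul_le_mul_of_nonneg_right hb1 (hd0 n).le
    · rw [← hd n, norm_cz (hd0 n), mul_comm]
      exact mul_le_mul_of_nonneg_right hw (hd0 n).le
  obtain ⟨w, hw⟩ : ∃ w, w = (z n - z₀ n) / d n := ⟨_, rfl⟩
  have hzw : cz (z₀ n) (d n) w = z n := by rw [hw, cz_inv (hd0 n)]
  have hw1 : ‖w‖ ≤ θ' := by
    rw [hw, norm_div, Complex.norm_real, Real.norm_of_nonneg (hd0 n).le, div_le_iff₀ (hd0 n)]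
    exact hz n
  have hwO : Off (ct (z₀ n) (d n) (t n)) (cs (z₀ n) (d n) (s n)) w := (off_ct (hd0 n)).2 (by rw [hzw]; exact hzO n)
  have hbad : ε₂ ≤ dist (pr (F n (cz (z₀ n) (d n) w))) (pr v) := by
    rw [hzw, ← hvn]
    exact hzd n
  by_cases hfar : Far (ct (z₀ n) (d n) (t n)) (cs (z₀ n) (d n) (s n)) w
  · have h1 := hlimn w (mem_closedBall_zero_iff.2 (hw1.trans hθc.le)) hfar
    rw [hfc w (mem_ball_zero_iff.2 (lt_of_le_of_lt hw1 hθa))] at h1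
    exact absurd h1 (not_lt.2 hbad)
  · unfold Far at hfar
    push Not at hfar
    obtain ⟨b, hb, -, hwb⟩ := hfar
    have hwb' : ‖w - b‖ < σ := hwb.trans (hsq b hb)
    have hb1 : ‖b‖ ≤ θ' + σ := by
      have := norm_sub_norm_le b w
      rw [norm_sub_rev b w] at this
      linarith
    obtain ⟨ρ, hρ0, hρ1, hρ⟩ := exists_rad (ct (z₀ n) (d n) (t n)) (fun k => √(cs (z₀ n) (d n) (s n) k)) b (a := 0) (b := 2 * σ) (fun k _ => Real.sqrt_nonneg _)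
      (by rw [sub_zero]; linarith)
    have hζb : ‖b + ρ - b‖ = ρ := by
      rw [add_sub_cancel_left, Complex.norm_real, Real.norm_of_nonneg hρ0.le]
    have hζ : ‖b + ρ‖ ≤ θ₂ := by
      have := norm_add_le b (ρ : ℂ)
      rw [Complex.norm_real, Real.norm_of_nonneg hρ0.le] at this
      linarith
    have hζF : Far (ct (z₀ n) (d n) (t n)) (cs (z₀ n) (d n) (s n)) (b + ρ) := fun k hk _ => hρ k hk _ hζb
    have hζO : Off (ct (z₀ n) (d n) (t n)) (cs (z₀ n) (d n) (s n)) (b + ρ) := by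
      intro k hk
      refine le_trans ?_ (hρ k hk _ hζb)
      have h1 : 0 ≤ cs (z₀ n) (d n) (s n) k := (div_pos ((hH n).pos _ ((mem_ct (hd0 n)).1 hk)).1 (hd0 n)).le
      have h2 := hsq k hk
      have h3 := Real.sq_sqrt h1
      have h4 := Real.sqrt_nonneg (cs (z₀ n) (d n) (s n) k)
      change cs (z₀ n) (d n) (s n) k ≤ √(cs (z₀ n) (d n) (s n) k)
      have h5 : √(cs (z₀ n) (d n) (s n) k) ≤ 1 := h2.le.trans hσ3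
      calc cs (z₀ n) (d n) (s n) k = √(cs (z₀ n) (d n) (s n) k) ^ 2 := h3.symm
        _ ≤ √(cs (z₀ n) (d n) (s n) k) := pow_le_of_le_one h4 h5 two_ne_zero
    have h1 := hlimn (b + ρ) (mem_closedBall_zero_iff.2 hζ) hζF
    rw [hfc _ (hLU (mem_closedBall_zero_iff.2 hζ))] at h1
    have h2 := hHS b hb (by linarith) (b + ρ) (by rw [hζb]; linarith) hζO
    have h3 : y n (cz (z₀ n) (d n) b) = v := by
      refine H5 _ ((hH n).rim _ ((mem_ct (hd0 n)).1 hb)).mem _ hv ?_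
      have h4 := dist_triangle_left (pr (y n (cz (z₀ n) (d n) b))) (pr v) (pr (F n (cz (z₀ n) (d n) (b + ρ))))
      linarith
    have h4 := hHS b hb (by linarith) w (by linarith) hwO
    rw [h3] at h4
    exact absurd h4 (not_lt.2 hbad)

theorem macro_stay (hG : G.Ok) (hM : G.Met T rho M c₀ C δ g) (hQ : G.QN rho) (hB : G.Bdry) {Y : Finset (EN N)} (hY : G.Ends Y) : ∃ ε₁ : ℝ, 0 < ε₁ ∧ ∀ ε₂ : ℝ, 0 < ε₂ → ε₂ ≤ ε₁ → ∃ B₀ : ℝ,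
    ∀ B₃ : ℝ, B₀ ≤ B₃ → ∀ η θ θ' : ℝ, 0 < η → 0 < θ' → θ' < θ → θ < 1 → ∃ ε₀ : ℝ, 0 < ε₀ ∧ ∀ ε : ℝ, 0 < ε → ε ≤ ε₀ → ∀ K B₄ : ℝ, 20 ≤ K → ∃ R : ℝ, 0 < R ∧
    ∀ (q : G.J → ℂ) (F : ℂ → EN N), G.Cl T q F → ∀ z₀ t s y, R ≤ infDist z₀ (Gd rho δ F) →
      G.Holes Y B₃ B₄ ε K (Real.exp (-(η * infDist z₀ (Gd rho δ F)))) F z₀ (θ * infDist z₀ (Gd rho δ F)) t s y →
      ∀ a ∈ t, ‖a - z₀‖ ≤ 1 → ∀ i i' : G.ι, i ≠ i' → G.E i (y a) = 0 → G.E i' (y a) = 0 →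
      ∀ z, ‖z - z₀‖ ≤ θ' * infDist z₀ (Gd rho δ F) → Off t s z → dist (pr (F z)) (pr (y a)) < ε₂ :=
  Mac_core hG hB hY (stay hG hM hQ hB hY) (speedW hG hM hQ hY) (fun _ _ _ _ h h0 h1 h2 => holes_count hG hM hQ h h0 h1 h2)

end Pool.Agent.SR3
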