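import Pool.Agent.H43.TL2.M149
import Pool.Agent.H43.TL2.M156

/-!
# SR3 PtZ: a point with small derivatives

Maximum principle for `φ = ∑ (κ + lam i) ^ 2 + D d (log ‖F‖ + B)` on a disc of radius `r`: `0 ≤ φ ≤ V d ^ 2`, so its Laplacian is at most a multiple of
`(d / r) ^ 2` somewhere.
-/

set_option autoImplicit false

open Topology Filter Metric

noncomputable section

namespace Pool.Agent.SR3

open Pool.Agent.H36.BP (EN fs wd Sub OrdTwo)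
open Pool.Agent.H14.PP (IsCone Tan)
open Pool.Agent.SY (Ent)
open Pool.Agent.SDA (EnergyK Near AffOpen Nm nForms)
open Geo (Gd)

variable {N : ℕ} {G : Geo N} {T : Set (EN N)} {rho : EN N → ℝ} {M : ℕ} {c₀ C δ : ℝ} {g : (ℂ → EN N) → ℂ → ℝ}

/-- the theorem, with `growth` as hypothesis -/
private theorem PtZ_core (hG : G.Ok) (hM : G.Met T rho M c₀ C δ g)
    (hgrowth : ∃ B : ℝ, 0 ≤ B ∧ ∀ (q : G.J → ℂ) (F : ℂ → EN N), G.Cl T q F → ∀ z, Real.log ‖F z‖ ≤ B * (1 + infDist z (Gd rho δ F))) :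
 ∃ B : ℝ, 0 < B ∧ ∀ (q : G.J → ℂ) (F : ℂ → EN N), G.Cl T q F → ∀ (z : ℂ) (r : ℝ),
    1 ≤ infDist z (Gd rho δ F) → 0 < r → r ≤ infDist z (Gd rho δ F) → ∃ z', ‖z' - z‖ ≤ r ∧
      ∑ i, ‖G.ell i (F z') (deriv F z')‖ ^ 2 + infDist z (Gd rho δ F) * fs (F z') (deriv F z') ^ 2 ≤ B * (infDist z (Gd rho δ F) / r) ^ 2 := by
  obtain ⟨Bl, hBl0, hBl⟩ := lam_lowerA hG
  obtain ⟨Bu, hBu0, hBu⟩ := lam_upperA hG
  obtain ⟨Bn, hBn0, hBn⟩ := log_lower hG
  obtain ⟨Bs, hBs0, hBs⟩ := lam_sub hG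
  obtain ⟨Bg, hBg0, hBg⟩ := hgrowth
  obtain ⟨k, hk⟩ : ∃ k : ℝ, k = Fintype.card G.ι := ⟨_, rfl⟩
  have hk0 : 0 ≤ k := by rw [hk]; exact Nat.cast_nonneg _
  obtain ⟨h, hh⟩ : ∃ h : ℝ, h = G.h := ⟨_, rfl⟩
  have hh0 : 0 ≤ h := by rw [hh]; exact Nat.cast_nonneg _
  obtain ⟨κ, hκ⟩ : ∃ κ : ℝ, κ = Bl + 1 := ⟨_, rfl⟩
  have hκ1 : 1 ≤ κ := by rw [hκ]; linarith
  obtain ⟨S, hS⟩ : ∃ S : ℝ, S = κ + Bu + 3 * h * Bg := ⟨_, rfl⟩
  have hS0 : 0 ≤ S := by rw [hS]; positivity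
  obtain ⟨D, hD⟩ : ∃ D : ℝ, D = 4 * (Bs * (k * S)) + 2 := ⟨_, rfl⟩
  have hD0 : 0 ≤ D := by rw [hD]; positivity
  obtain ⟨V, hV⟩ : ∃ V : ℝ, V = k * S ^ 2 + D * (3 * Bg + Bn) := ⟨_, rfl⟩
  have hV0 : 0 ≤ V := by rw [hV]; positivity
  refine ⟨4 * V + 1, by positivity, fun q F hCl z r hd1 hr0 hrd => ?_⟩
  obtain ⟨d, hd⟩ : ∃ d : ℝ, d = infDist z (Gd rho δ F) := ⟨_, rfl⟩
  rw [← hd] at hd1 hrd ⊢
  by_contra hcon
  push Not at hcon
  have hd0 : 0 < d := by linarith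
  have hF : Differentiable ℂ F := hCl.ent.diff
  have hK : ∀ w, F w ∈ G.K := hCl.ent.mem
  have hp := hCl.nm
  have hlog : ∀ w ∈ closedBall z r, Real.log ‖F w‖ ≤ 3 * Bg * d := by
    intro w hw
    have h1 := hBg q F hCl w
    have h2 : infDist w (Gd rho δ F) ≤ infDist z (Gd rho δ F) + dist w z := infDist_le_infDist_add_dist
    rw [mem_closedBall] at hw
    have h3 : 1 + infDist w (Gd rho δ F) ≤ 3 * d := by linarith
    have h4 := mul_le_mul_of_nonneg_left h3 hBg0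
    linarith
  have hlo : ∀ i w, 1 ≤ κ + G.lam i (F w) := by
    intro i w
    rw [hκ]
    linarith [hBl i (F w) (hK w)]
  have hup : ∀ i, ∀ w ∈ closedBall z r, κ + G.lam i (F w) ≤ S * d := by
    intro i w hw
    have h1 := (hBu (F w) (hK w) (hp w)).1 i
    rw [← hh] at h1
    have h2 := mul_le_mul_of_nonneg_left (hlog w hw) hh0
    have h3 : (κ + Bu) * 1 ≤ (κ + Bu) * d := mul_le_mul_of_nonneg_left hd1 (by linarith)
    rw [hS]
    linarith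
  obtain ⟨φ, hφ⟩ : ∃ φ : ℂ → ℝ, φ = fun w => (∑ i, (κ + G.lam i (F w)) ^ 2) + (D * d) * (Real.log ‖F w‖ + Bn) := ⟨_, rfl⟩
  have hφc : Continuous φ := by
    rw [hφ]
    refine (continuous_finsetSum _ fun i _ => ?_).add (continuous_const.mul (Continuous.add ?_ continuous_const))
    · refine (continuous_const.add (continuous_iff_continuousAt.2 fun w => ?_)).pow 2
      exact (lam_grad hG i (hF.analyticAt w) (hK w)).continuousAt
    · exact hF.continuous.norm.log fun w => norm_ne_zero_iff.2 (ne0 hG (hK w))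
  have hφ0 : 0 ≤ φ z := by
    rw [hφ]
    refine add_nonneg (Finset.sum_nonneg fun i _ => sq_nonneg _) (mul_nonneg (by positivity) ?_)
    linarith [hBn (F z) (hp z)]
  -- the upper bound
  have hφB : ∀ w ∈ closedBall z r, φ w ≤ V * d ^ 2 := by
    intro w hw
    have h1 : ∑ i, (κ + G.lam i (F w)) ^ 2 ≤ k * (S * d) ^ 2 := by
      have h2 : ∑ i, (κ + G.lam i (F w)) ^ 2 ≤ ∑ _i : G.ι, (S * d) ^ 2 :=
        Finset.sum_le_sum fun i _ => pow_le_pow_left₀ (by linarith [hlo i w]) (hup i w hw) 2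
      rwa [Finset.sum_const, Finset.card_univ, nsmul_eq_mul, ← hk] at h2
    have h2 : (D * d) * (Real.log ‖F w‖ + Bn) ≤ (D * d) * (3 * Bg * d + Bn * d) := by
      refine mul_le_mul_of_nonneg_left ?_ (by positivity)
      have h3 : Bn * 1 ≤ Bn * d := mul_le_mul_of_nonneg_left hd1 hBn0
      linarith [hlog w hw]
    have h9 : φ w = (∑ i, (κ + G.lam i (F w)) ^ 2) + (D * d) * (Real.log ‖F w‖ + Bn) := by rw [hφ]
    rw [h9, hV]
    calc (∑ i, (κ + G.lam i (F w)) ^ 2) + (D * d) * (Real.log ‖F w‖ + Bn) ≤ k * (S * d) ^ 2 + (D * d) * (3 * Bg * d + Bn * d) := add_le_add h1 h2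
      _ = (k * S ^ 2 + D * (3 * Bg + Bn)) * d ^ 2 := by ring
  -- the Laplacian
  obtain ⟨κ₁, hκ₁⟩ : ∃ κ₁ : ℝ, κ₁ = (4 * V + 1) * (d / r) ^ 2 / 2 := ⟨_, rfl⟩
  have hκ₁0 : 0 < κ₁ := by rw [hκ₁]; positivity
  have hsub : ∀ w ∈ ball z r, 0 < Real.exp (φ w) → Sub (fun w => Real.exp (φ w)) w κ₁ := by
    intro w hw _
    have hFw := hF.analyticAt w
    have hev : ∀ᶠ w' in 𝓝 w, F w' ∈ G.K := Eventually.of_forall hK
    obtain ⟨f, hf⟩ : ∃ f : ℝ, f = fs (F w) (deriv F w) := ⟨_, rfl⟩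
    have hf0 : 0 ≤ f := by rw [hf]; exact Pool.Agent.H36.BP.fs_nonneg _ _
    have h1 : ∀ i ∈ (Finset.univ : Finset G.ι), Sub (fun w' => Real.exp ((κ + G.lam i (F w')) ^ 2)) w
        (1 / 2 * ‖G.ell i (F w) (deriv F w)‖ ^ 2 + 2 * (-(Bs * f ^ 2)) * (κ + G.lam i (F w))) := by
      intro i _
      have h2 : Sub (fun w' => Real.exp (κ + G.lam i (F w'))) w (-(Bs * f ^ 2)) := by
        have h3 := (hBs i 1 F w hFw hev).const_mul (Real.exp_pos κ)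
        rw [abs_one, one_mul, ← hf] at h3
        refine h3.congr (Eventually.of_forall fun w' => ?_)
        show Real.exp κ * Real.exp (1 * G.lam i (F w')) = _
        rw [one_mul, ← Real.exp_add]
      have h3 := (lam_grad hG i hFw (hK w)).const_add κ
      have h4 := sub_sq h2 h3 (by linarith [hlo i w])
      rwa [norm_neg] at h4
    have h5 := Pool.Agent.SDA.La.sub_sum Finset.univ h1
    have h6 := Pool.Agent.H36.BP.Sub.norm_rpow hFw (ne0 hG (hK w)) (D * d)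
    rw [← hf] at h6
    have h7 := h5.mul (h6.const_mul (Real.exp_pos ((D * d) * Bn)))
    have h8 : Sub (fun w => Real.exp (φ w)) w (∑ i, (1 / 2 * ‖G.ell i (F w) (deriv F w)‖ ^ 2 + 2 * (-(Bs * f ^ 2)) * (κ + G.lam i (F w))) +
        D * d * f ^ 2 / 2) := by
      refine h7.congr (Eventually.of_forall fun w' => ?_)
      show Real.exp (∑ i, (κ + G.lam i (F w')) ^ 2) * (Real.exp ((D * d) * Bn) * ‖F w'‖ ^ (D * d)) = Real.exp (φ w')
      rw [Real.rpow_def_of_pos (norm_pos_iff.2 (ne0 hG (hK w'))), ← Real.exp_add, ← Real.exp_add, hφ]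
      congr 1
      ring
    refine h8.anti ?_
    have hwc : w ∈ closedBall z r := ball_subset_closedBall hw
    obtain ⟨E, hE⟩ : ∃ E : ℝ, E = ∑ i, ‖G.ell i (F w) (deriv F w)‖ ^ 2 := ⟨_, rfl⟩
    have hE0 : 0 ≤ E := by rw [hE]; exact Finset.sum_nonneg fun i _ => sq_nonneg _
    have h9 := hcon w (by rw [mem_closedBall, dist_eq_norm] at hwc; exact hwc)
    rw [← hE, ← hf] at h9
    have h12 : ∑ i, (1 / 2 * ‖G.ell i (F w) (deriv F w)‖ ^ 2 + 2 * (-(Bs * f ^ 2)) * (κ + G.lam i (F w))) =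
        1 / 2 * E - 2 * (Bs * f ^ 2) * ∑ i, (κ + G.lam i (F w)) := by
      rw [Finset.sum_add_distrib, ← Finset.mul_sum, ← Finset.mul_sum, ← hE]
      ring
    have h13 : ∑ i, (κ + G.lam i (F w)) ≤ k * (S * d) := by
      have h14 : ∑ i, (κ + G.lam i (F w)) ≤ ∑ _i : G.ι, S * d := Finset.sum_le_sum fun i _ => hup i w hwc
      rwa [Finset.sum_const, Finset.card_univ, nsmul_eq_mul, ← hk] at h14
    have h15 : 2 * (Bs * f ^ 2) * ∑ i, (κ + G.lam i (F w)) ≤ 2 * (Bs * f ^ 2) * (k * (S * d)) :=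
      mul_le_mul_of_nonneg_left h13 (by positivity)
    rw [h12, hD, hκ₁]
    have h16 : (4 * (Bs * (k * S)) + 2) * d * f ^ 2 / 2 = 2 * (Bs * f ^ 2) * (k * (S * d)) + d * f ^ 2 := by ring
    rw [h16]
    have h17 : 0 ≤ d * f ^ 2 := by positivity
    linarith only [h9, h15, h17]
  have hdec := Pool.Agent.SY.decay (m := fun w => Real.exp (φ w)) (z₀ := z) (R := r) (A := Real.exp (V * d ^ 2))
    (κ := κ₁) hr0 hκ₁0 (Real.exp_pos _).le (Real.continuous_exp.comp hφc).continuousOn.upperSemicontinuousOn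
    (fun w hw => Real.exp_le_exp.2 (hφB w hw)) hsub z (mem_closedBall_self hr0.le)
  rw [sub_self, norm_zero, ← Real.exp_add] at hdec
  have h1 := Real.exp_le_exp.1 hdec
  have h2 : κ₁ * r ^ 2 = (4 * V + 1) * d ^ 2 / 2 := by
    rw [hκ₁]
    field_simp
  have h3 : 0 < d ^ 2 := by positivity
  linarith only [h1, h2, hφ0, h3]

theorem exists_pt (hG : G.Ok) (hM : G.Met T rho M c₀ C δ g) : ∃ B : ℝ, 0 < B ∧ ∀ (q : G.J → ℂ) (F : ℂ → EN N), G.Cl T q F → ∀ (z : ℂ) (r : ℝ),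
    1 ≤ infDist z (Gd rho δ F) → 0 < r → r ≤ infDist z (Gd rho δ F) → ∃ z', ‖z' - z‖ ≤ r ∧
      ∑ i, ‖G.ell i (F z') (deriv F z')‖ ^ 2 + infDist z (Gd rho δ F) * fs (F z') (deriv F z') ^ 2 ≤ B * (infDist z (Gd rho δ F) / r) ^ 2 :=
  PtZ_core hG hM (growth hG hM)

end Pool.Agent.SR3
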