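import Pool.Agent.H43.TL2.M182
import Pool.Agent.H43.TL2.SR3.PtZ

/-!
# SR3 Smo: the wells end at crossings

Otherwise `stay` for `a`, `exists_pt` in `closedBall a (κ d)`; the point is in no hole (`Rim.bdd`, `n_le_L`, `L_le_fs`); all
`|q j| ≤ C fs L ^ (m j - 1)` tend to `0`, against `nq q = 1`.
-/

set_option autoImplicit false

open Topology Filter Metric

noncomputable section

namespace Pool.Agent.SR3

open Pool.Agent.H36.BP (EN fs wd Sub OrdTwo)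
open Pool.Agent.H14.PP (IsCone Tan)
open Pool.Agent.SY (Ent)
open Pool.Agent.SDA (EnergyK Near AffOpen Nm nForms)
open Pool.Agent.H62.EF (MN pr)
open Pool.Agent.G3 (LLift)
open Geo (Gd)

variable {N : ℕ} {G : Geo N} {T : Set (EN N)} {rho : EN N → ℝ} {M : ℕ} {c₀ C δ : ℝ} {g : (ℂ → EN N) → ℂ → ℝ}

/-- `smooth_end` from the statement of `stay` -/
private theorem Smo_core (hG : G.Ok) (hM : G.Met T rho M c₀ C δ g) {Y : Finset (EN N)}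
    (hn : ∀ y ∈ Y, (∀ i i' : G.ι, i ≠ i' → G.E i y = 0 → G.E i' y ≠ 0) → ∃ (r B : ℝ), 0 < r ∧ ∀ x ∈ G.K, dist (pr x) (pr y) < r → ∀ v, Tan G.X x v →
      ∀ j, ‖G.w j x v‖ ≤ B * fs x v * G.L x v ^ (G.m j - 1))
    (hstay : ∃ ε₁ : ℝ, 0 < ε₁ ∧ ∀ ε₂ : ℝ, 0 < ε₂ → ε₂ ≤ ε₁ → ∃ B₀ : ℝ,
    ∀ B₃ : ℝ, B₀ ≤ B₃ → ∀ η θ θ' : ℝ, 0 < η → 0 < θ' → θ' < θ → θ < 1 → ∃ ε₀ : ℝ, 0 < ε₀ ∧ ∀ ε : ℝ, 0 < ε → ε ≤ ε₀ → ∀ K B₄ : ℝ, 20 ≤ K → ∃ κ R : ℝ, 0 < κ ∧ 0 < R ∧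
    ∀ (q : G.J → ℂ) (F : ℂ → EN N), G.Cl T q F → ∀ z₀ t s y, R ≤ infDist z₀ (Gd rho δ F) →
      G.Holes Y B₃ B₄ ε K (Real.exp (-(η * infDist z₀ (Gd rho δ F)))) F z₀ (θ * infDist z₀ (Gd rho δ F)) t s y →
      ∀ a ∈ t, ‖a - z₀‖ ≤ θ' * infDist z₀ (Gd rho δ F) → ∀ z, ‖z - a‖ ≤ κ * infDist z₀ (Gd rho δ F) → Off t s z → dist (pr (F z)) (pr (y a)) < ε₂)
    : ∃ B₀ : ℝ, ∀ B₃ : ℝ, B₀ ≤ B₃ → ∀ η θ θ' : ℝ, 0 < η → 0 < θ' → θ' < θ → θ < 1 →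
    ∃ ε₀ : ℝ, 0 < ε₀ ∧ ∀ ε : ℝ, 0 < ε → ε ≤ ε₀ → ∀ K B₄ : ℝ, 20 ≤ K → ∃ R : ℝ, 0 < R ∧
    ∀ (q : G.J → ℂ) (F : ℂ → EN N), G.Cl T q F → ∀ z₀ t s y, R ≤ infDist z₀ (Gd rho δ F) →
      G.Holes Y B₃ B₄ ε K (Real.exp (-(η * infDist z₀ (Gd rho δ F)))) F z₀ (θ * infDist z₀ (Gd rho δ F)) t s y →
      ∀ a ∈ t, ‖a - z₀‖ ≤ θ' * infDist z₀ (Gd rho δ F) → ∃ i i' : G.ι, i ≠ i' ∧ G.E i (y a) = 0 ∧ G.E i' (y a) = 0 := by
  -- the constants for the ends at smooth points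
  have hn' : ∀ y : EN N, ∃ r B : ℝ, 0 < r ∧ (y ∈ Y → (∀ i i' : G.ι, i ≠ i' → G.E i y = 0 → G.E i' y ≠ 0) → ∀ x ∈ G.K, dist (pr x) (pr y) < r →
      ∀ v, Tan G.X x v → ∀ j, ‖G.w j x v‖ ≤ B * fs x v * G.L x v ^ (G.m j - 1)) := by
    intro y
    by_cases h1 : y ∈ Y
    · by_cases h2 : ∀ i i' : G.ι, i ≠ i' → G.E i y = 0 → G.E i' y ≠ 0
      · obtain ⟨r, B, hr, h⟩ := hn y h1 h2
        exact ⟨r, B, hr, fun _ _ => h⟩
      · exact ⟨1, 0, one_pos, fun _ h => absurd h h2⟩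
    · exact ⟨1, 0, one_pos, fun h => absurd h h1⟩
  choose ry By hry hn1 using hn'
  obtain ⟨r₀, hr₀, hrle⟩ := Smo_min Y ry hry
  obtain ⟨Bm, hBm, hBle⟩ := Smo_max Y By
  obtain ⟨ε₁, hε₁, hst⟩ := hstay
  obtain ⟨B₀, hB₀⟩ := hst (min ε₁ r₀) (lt_min hε₁ hr₀) (min_le_left _ _)
  refine ⟨B₀, fun B₃ hB₃ η θ θ' hη hθ' hθθ hθ1 => ?_⟩
  obtain ⟨ε₀, hε₀, hst2⟩ := hB₀ B₃ hB₃ η θ θ' hη hθ' hθθ hθ1
  refine ⟨ε₀, hε₀, fun ε hε hεε K B₄ hK => ?_⟩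
  obtain ⟨κ, R₁, hκ, hR₁, hst3⟩ := hst2 ε hε hεε K B₄ hK
  obtain ⟨Bp, hBp, hpt⟩ := exists_pt hG hM
  obtain ⟨B1, hB1, hn2⟩ := n_le_L hG
  obtain ⟨A, hA, hL⟩ := L_le_fs hG (Real.exp B₄)
  have hθ2 : 0 < 1 - θ' := by linarith
  obtain ⟨κ', hκ'⟩ : ∃ κ' : ℝ, κ' = min κ (1 - θ') := ⟨_, rfl⟩
  have hκ'0 : 0 < κ' := by
    rw [hκ']
    exact lt_min hκ hθ2
  have hκ'1 : κ' ≤ κ := by
    rw [hκ']
    exact min_le_left _ _
  have hκ'2 : κ' ≤ 1 - θ' := by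
    rw [hκ']
    exact min_le_right _ _
  obtain ⟨B', hB'⟩ : ∃ B' : ℝ, B' = Bp * (2 / κ') ^ 2 := ⟨_, rfl⟩
  have hB'0 : 0 < B' := by
    rw [hB']
    positivity
  obtain ⟨L₁, hL₁⟩ : ∃ L₁ : ℝ, L₁ = √B' + (Fintype.card G.ι : ℝ) * √B' := ⟨_, rfl⟩
  obtain ⟨τ₀, hτ₀, hsm⟩ := Smo_small hG Bm L₁
  obtain ⟨τ₁, hτ₁⟩ : ∃ τ₁ : ℝ, τ₁ = min τ₀ (1 / (2 * (B1 * A))) := ⟨_, rfl⟩
  have hτ₁0 : 0 < τ₁ := by
    rw [hτ₁]
    exact lt_min hτ₀ (by positivity)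
  refine ⟨max R₁ ((B' / τ₁ ^ 2 + 2) / (1 - θ')), lt_of_lt_of_le hR₁ (le_max_left _ _), ?_⟩
  intro q F hF z₀ t s y hR hH a ha haz
  by_contra hcon
  obtain ⟨d, hd⟩ : ∃ d : ℝ, d = infDist z₀ (Gd rho δ F) := ⟨_, rfl⟩
  obtain ⟨e, he⟩ : ∃ e : ℝ, e = infDist a (Gd rho δ F) := ⟨_, rfl⟩
  have hstay2 := hst3 q F hF z₀ t s y ((le_max_left _ _).trans hR) hH a ha haz
  have hRd : (B' / τ₁ ^ 2 + 2) / (1 - θ') ≤ d := by
    rw [hd]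
    exact (le_max_right _ _).trans hR
  have hRd2 : B' / τ₁ ^ 2 + 2 ≤ (1 - θ') * d := by
    rw [div_le_iff₀ hθ2] at hRd
    linarith
  have hq0 : 0 < B' / τ₁ ^ 2 := by positivity
  have hd0 : 0 < d := by
    by_contra h
    have h1 : (1 - θ') * d ≤ 0 := mul_nonpos_of_nonneg_of_nonpos hθ2.le (not_lt.1 h)
    linarith
  rw [← hd] at haz hstay2
  -- the distance at the centre of the hole
  have he1 : (1 - θ') * d ≤ e := by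
    have h1 : infDist z₀ (Gd rho δ F) ≤ infDist a (Gd rho δ F) + dist z₀ a := infDist_le_infDist_add_dist
    rw [← hd, ← he, dist_comm, dist_eq_norm] at h1
    linarith
  have he2 : e ≤ 2 * d := by
    have h1 : infDist a (Gd rho δ F) ≤ infDist z₀ (Gd rho δ F) + dist a z₀ := infDist_le_infDist_add_dist
    rw [← hd, ← he, dist_eq_norm] at h1
    have h2 : θ' * d ≤ 1 * d := mul_le_mul_of_nonneg_right (by linarith) hd0.le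
    linarith
  have he3 : 1 ≤ e := by linarith
  have hr : κ' * d ≤ e := (mul_le_mul_of_nonneg_right hκ'2 hd0.le).trans he1
  obtain ⟨z', hz1, hz2⟩ := hpt q F hF a (κ' * d) (by rw [← he]; exact he3) (by positivity) (by rw [← he]; exact hr)
  rw [← he] at hz2
  have hKz : F z' ∈ G.K := hF.ent.mem z'
  have htan : Tan G.X (F z') (deriv F z') := tan hG hF.ent.diff hF.ent.mem z'
  have hfs0 : 0 ≤ fs (F z') (deriv F z') := Pool.Agent.H36.BP.fs_nonneg _ _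
  have hq1 : (e / (κ' * d)) ^ 2 ≤ (2 / κ') ^ 2 := by
    have h1 : e / (κ' * d) ≤ 2 / κ' := by
      rw [div_le_div_iff₀ (by positivity) hκ'0]
      have h2 := mul_le_mul_of_nonneg_left he2 hκ'0.le
      linarith
    exact pow_le_pow_left₀ (by positivity) h1 2
  have hsum : ∑ i, ‖G.ell i (F z') (deriv F z')‖ ^ 2 + e * fs (F z') (deriv F z') ^ 2 ≤ B' := by
    refine hz2.trans ?_
    rw [hB']
    exact mul_le_mul_of_nonneg_left hq1 hBp.le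
  have hs0 : 0 ≤ ∑ i, ‖G.ell i (F z') (deriv F z')‖ ^ 2 := Finset.sum_nonneg fun i _ => by positivity
  have hfs1 : fs (F z') (deriv F z') ^ 2 ≤ B' / e := by
    rw [le_div_iff₀ (by linarith)]
    linarith
  have hfs2 : fs (F z') (deriv F z') ≤ √B' := by
    refine Real.le_sqrt_of_sq_le (hfs1.trans ?_)
    exact div_le_self hB'0.le he3
  have hell : ∀ i, ‖G.ell i (F z') (deriv F z')‖ ≤ √B' := by
    intro i
    refine Real.le_sqrt_of_sq_le ?_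
    have h1 : ‖G.ell i (F z') (deriv F z')‖ ^ 2 ≤ ∑ i, ‖G.ell i (F z') (deriv F z')‖ ^ 2 :=
      Finset.single_le_sum (f := fun i => ‖G.ell i (F z') (deriv F z')‖ ^ 2) (fun _ _ => by positivity) (Finset.mem_univ i)
    have h2 : 0 ≤ e * fs (F z') (deriv F z') ^ 2 := by positivity
    linarith
  have hL1 : G.L (F z') (deriv F z') ≤ L₁ := by
    unfold Geo.L
    rw [hL₁]
    have h1 : ∑ i, ‖G.ell i (F z') (deriv F z')‖ ≤ ∑ _i : G.ι, √B' := Finset.sum_le_sum fun i _ => hell i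
    rw [Finset.sum_const, Finset.card_univ, nsmul_eq_mul] at h1
    linarith
  have hfs3 : fs (F z') (deriv F z') < τ₁ := by
    have h1 : B' / e < τ₁ ^ 2 := by
      rw [div_lt_iff₀ (by linarith)]
      have h2 : B' / τ₁ ^ 2 < e := by linarith
      rw [div_lt_iff₀ (by positivity)] at h2
      linarith
    exact lt_of_pow_lt_pow_left₀ 2 hτ₁0.le (lt_of_le_of_lt hfs1 h1)
  by_cases hoff : Off t s z'
  · -- outside the holes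
    have h1 := hstay2 z' (hz1.trans (mul_le_mul_of_nonneg_right hκ'1 hd0.le)) hoff
    have hyY : y a ∈ Y := (hH.rim a ha).mem
    have hsmooth : ∀ i i' : G.ι, i ≠ i' → G.E i (y a) = 0 → G.E i' (y a) ≠ 0 := fun i i' h2 h3 h4 => hcon ⟨i, i', h2, h3, h4⟩
    have h2 : dist (pr (F z')) (pr (y a)) < ry (y a) := lt_of_lt_of_le h1 ((min_le_right _ _).trans (hrle _ hyY))
    have h3 := hn1 (y a) hyY hsmooth (F z') hKz h2 (deriv F z') htan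
    have h4 : G.nq q ≤ ∑ j : G.J, (Bm * fs (F z') (deriv F z') * L₁ ^ (G.m j - 1)) ^ ((G.m j : ℝ)⁻¹) := by
      unfold Geo.nq
      refine Finset.sum_le_sum fun j _ => Real.rpow_le_rpow (norm_nonneg _) ?_ (inv_nonneg.2 (Nat.cast_nonneg _))
      rw [← hF.val j z']
      refine (h3 j).trans ?_
      have hL0 := L_nonneg (G := G) (F z') (deriv F z')
      have h5 : G.L (F z') (deriv F z') ^ (G.m j - 1) ≤ L₁ ^ (G.m j - 1) := pow_le_pow_left₀ hL0 hL1 _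
      have h6 : By (y a) * fs (F z') (deriv F z') ≤ Bm * fs (F z') (deriv F z') := mul_le_mul_of_nonneg_right (hBle _ hyY) hfs0
      exact mul_le_mul h6 h5 (pow_nonneg hL0 _) (mul_nonneg hBm.le hfs0)
    have h7 := hsm (fs (F z') (deriv F z')) hfs0 (lt_of_lt_of_le hfs3 (by rw [hτ₁]; exact min_le_left _ _))
    rw [hF.one] at h4
    linarith
  · -- in a hole
    have h1 : ∃ b ∈ t, ‖z' - b‖ < s b := by
      unfold Off at hoff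
      push Not at hoff
      exact hoff
    obtain ⟨b, hb, hzb⟩ := h1
    have hsb : 0 < s b := (hH.pos b hb).1
    have h2 := (hH.rim b hb).bdd ((z' - b) / (s b : ℂ)) (by
      rw [norm_div, Complex.norm_real, Real.norm_of_nonneg hsb.le]
      have h3 : ‖z' - b‖ / s b ≤ 1 := (div_le_one hsb).2 hzb.le
      linarith)
    have h3 : b + (s b : ℂ) * ((z' - b) / (s b : ℂ)) = z' := by
      have h4 : (s b : ℂ) ≠ 0 := by exact_mod_cast hsb.ne'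
      rw [mul_div_cancel₀ _ h4]
      ring
    simp only [h3] at h2
    have h4 : ‖F z'‖ ≤ Real.exp B₄ := by
      have h5 : 0 < ‖F z'‖ := norm_pos_iff.2 (ne0 hG hKz)
      exact (Real.log_le_iff_le_exp h5).1 h2
    have h5 := hL (F z') hKz (hF.nm z') h4 (deriv F z')
    have h6 := hn2 (F z') hKz (deriv F z') htan
    rw [cl_n hF z'] at h6
    have h7 : fs (F z') (deriv F z') < 1 / (2 * (B1 * A)) := lt_of_lt_of_le hfs3 (by rw [hτ₁]; exact min_le_right _ _)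
    rw [lt_div_iff₀ (by positivity)] at h7
    have h8 : B1 * G.L (F z') (deriv F z') ≤ B1 * (A * fs (F z') (deriv F z')) := mul_le_mul_of_nonneg_left h5 hB1.le
    have h9 : B1 * (A * fs (F z') (deriv F z')) = fs (F z') (deriv F z') * (2 * (B1 * A)) / 2 := by ring
    linarith

theorem smooth_end (hG : G.Ok) (hM : G.Met T rho M c₀ C δ g) (hQ : G.QN rho) (hB : G.Bdry) {Y : Finset (EN N)} (hY : G.Ends Y)
    (hn : ∀ y ∈ Y, (∀ i i' : G.ι, i ≠ i' → G.E i y = 0 → G.E i' y ≠ 0) → ∃ (r B : ℝ), 0 < r ∧ ∀ x ∈ G.K, dist (pr x) (pr y) < r → ∀ v, Tan G.X x v →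
      ∀ j, ‖G.w j x v‖ ≤ B * fs x v * G.L x v ^ (G.m j - 1)) : ∃ B₀ : ℝ, ∀ B₃ : ℝ, B₀ ≤ B₃ → ∀ η θ θ' : ℝ, 0 < η → 0 < θ' → θ' < θ → θ < 1 →
    ∃ ε₀ : ℝ, 0 < ε₀ ∧ ∀ ε : ℝ, 0 < ε → ε ≤ ε₀ → ∀ K B₄ : ℝ, 20 ≤ K → ∃ R : ℝ, 0 < R ∧
    ∀ (q : G.J → ℂ) (F : ℂ → EN N), G.Cl T q F → ∀ z₀ t s y, R ≤ infDist z₀ (Gd rho δ F) →
      G.Holes Y B₃ B₄ ε K (Real.exp (-(η * infDist z₀ (Gd rho δ F)))) F z₀ (θ * infDist z₀ (Gd rho δ F)) t s y →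
      ∀ a ∈ t, ‖a - z₀‖ ≤ θ' * infDist z₀ (Gd rho δ F) → ∃ i i' : G.ι, i ≠ i' ∧ G.E i (y a) = 0 ∧ G.E i' (y a) = 0 :=
  Smo_core hG hM hn (stay hG hM hQ hB hY)

end Pool.Agent.SR3
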