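import Pool.Agent.H43.TL2.H39.SY.GenSm
import Pool.Agent.H43.TL2.M155
import Pool.Agent.H43.TL2.M45

/-!
# SR3 NCcA: the tangent line of a projective curve

`p` a homogeneous prime whose function field `K` has transcendence degree one.  `D = d / dz` on `K`, `a i = x i / x l`: the `D (a i)` are written as quotients of
forms with one denominator, `D (a i) = t i / w`.  Then `∑ t i ∂ Q / ∂ x i ∈ p` for `Q ∈ p`, `t l ∈ p` and some `t i` is not in `p`.  The tangent space of the cone has
dimension at most two outside the zeros of a form which is not in `p` (`exists_jac`), so it is spanned by `x` and `t (x)`.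
-/

set_option autoImplicit false

open MvPolynomial
open Pool.Agent.H62.FC (Homog)
open Pool.Agent.H17GT (coordFun functionField)
open Pool.Agent.H17LG.Variety (FunField ratio)
open Pool.Agent.H17R (gen ratio_self adjoin_ratio gen_eq_zero_iff coordFun_ne_zero_iff)
open Pool.Agent.H13.SM (conTan)

noncomputable section

namespace Pool.Agent.SR3

variable {N : ℕ}

/-- the chain rule -/
private theorem der_aeval {K : Type} [Field K] [Algebra ℂ K] {n : ℕ} (D : Derivation ℂ K K) (x : Fin n → K) (q : MvPolynomial (Fin n) ℂ) :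
    D (aeval x q) = ∑ i, D (x i) * aeval x (pderiv i q) := by
  induction q using MvPolynomial.induction_on with
  | C c =>
    simp
  | add p q hp hq =>
    simp only [map_add, mul_add, Finset.sum_add_distrib, hp, hq]
  | mul_X p i hp =>
    rw [map_mul, aeval_X, Derivation.leibniz, hp, smul_eq_mul, smul_eq_mul]
    have h4 : ∀ j, D (x j) * aeval x (pderiv j (p * X i)) =
        x i * (D (x j) * aeval x (pderiv j p)) + (if j = i then aeval x p * D (x j) else 0) := by
      intro j
      rw [Derivation.leibniz, pderiv_X]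
      by_cases hj : j = i
      · subst hj
        simp
        ring
      · rw [Pi.single_eq_of_ne (Ne.symm hj)]
        simp [hj]
        ring
    rw [Finset.sum_congr rfl fun j _ => h4 j, Finset.sum_add_distrib, ← Finset.mul_sum]
    simp
    ring

/-- the homogenization with the coordinate `l` -/
private def hmz (l : Fin (N + 1)) (D : ℕ) (R : MvPolynomial (Fin (N + 1)) ℂ) : MvPolynomial (Fin (N + 1)) ℂ :=
  ∑ d ∈ Finset.range (D + 1), X l ^ (D - d) * homogeneousComponent d R

private theorem hmz_hom (l : Fin (N + 1)) (D : ℕ) (R : MvPolynomial (Fin (N + 1)) ℂ) : (hmz l D R).IsHomogeneous D := by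
  refine IsHomogeneous.sum _ _ _ fun d hd => ?_
  have h1 : d ≤ D := Nat.lt_succ_iff.1 (Finset.mem_range.1 hd)
  have h2 := ((isHomogeneous_X ℂ l).pow (D - d)).mul (homogeneousComponent_isHomogeneous d R)
  rwa [one_mul, Nat.sub_add_cancel h1] at h2

private theorem sum_comp {R : MvPolynomial (Fin (N + 1)) ℂ} {D : ℕ} (h : R.totalDegree ≤ D) :
    ∑ d ∈ Finset.range (D + 1), homogeneousComponent d R = R := by
  conv_rhs => rw [← sum_homogeneousComponent R]
  refine (Finset.sum_subset (Finset.range_mono (Nat.succ_le_succ h)) fun d _ hd => ?_).symm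
  refine homogeneousComponent_eq_zero _ _ ?_
  rw [Finset.mem_range, not_lt] at hd
  exact hd

private theorem gen_hmz {P : Ideal (MvPolynomial (Fin (N + 1)) ℂ)} [P.IsPrime] {l : Fin (N + 1)} (h : coordFun P l ≠ 0) {D : ℕ}
    {R : MvPolynomial (Fin (N + 1)) ℂ} (hR : R.totalDegree ≤ D) : gen P l (hmz l D R) = gen P l R := by
  unfold gen hmz
  rw [map_sum]
  have h1 : ∀ d ∈ Finset.range (D + 1), aeval (fun i => ratio P i l) (X l ^ (D - d) * homogeneousComponent d R) =
      aeval (fun i => ratio P i l) (homogeneousComponent d R) := by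
    intro d _
    rw [map_mul, map_pow, aeval_X, ratio_self h, one_pow, one_mul]
  rw [Finset.sum_congr rfl h1, ← map_sum, sum_comp hR]

/-- a variety of positive dimension has a non-zero coordinate -/
private theorem exists_coord {Q : Ideal (MvPolynomial (Fin (N + 1)) ℂ)} [Q.IsPrime] {k : ℕ} {z : Fin (k + 1) → FunField Q}
    (hz : IsTranscendenceBasis ℂ z) : ∃ i, coordFun Q i ≠ 0 := by
  by_contra hcon
  push Not at hcon
  have h1 : functionField Q = ⊥ := by
    rw [functionField, IntermediateField.adjoin_eq_bot_iff]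
    rintro f ⟨i, j, rfl⟩
    rw [hcon i, zero_div]
    exact zero_mem _
  have h2 : Transcendental ℂ (z 0) := hz.1.transcendental 0
  apply h2
  set y : functionField Q := z 0 with hy
  have h3 : (y : FractionRing (MvPolynomial (Fin (N + 1)) ℂ ⧸ Q)) ∈
      (⊥ : IntermediateField ℂ (FractionRing (MvPolynomial (Fin (N + 1)) ℂ ⧸ Q))) := by
    rw [← h1]
    exact y.2
  obtain ⟨c, hc⟩ := IntermediateField.mem_bot.mp h3
  have h4 : y = algebraMap ℂ (functionField Q) c := Subtype.ext hc.symm
  have h5 : IsAlgebraic ℂ y := by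
    rw [h4]
    exact isAlgebraic_algebraMap c
  exact h5

/-- finitely many functions as quotients of forms of one degree -/
private theorem exists_forms {P : Ideal (MvPolynomial (Fin (N + 1)) ℂ)} [P.IsPrime] {l : Fin (N + 1)} (h : coordFun P l ≠ 0)
    (c : Fin (N + 1) → FunField P) : ∃ (σ : FunField P) (t : Fin (N + 1) → MvPolynomial (Fin (N + 1)) ℂ) (e : ℕ), σ ≠ 0 ∧
      (∀ i, (t i).IsHomogeneous e) ∧ ∀ i, gen P l (t i) = c i * σ := by
  classical
  have h1 : ∀ i, ∃ r s : MvPolynomial (Fin (N + 1)) ℂ, gen P l s ≠ 0 ∧ gen P l r = c i * gen P l s := by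
    intro i
    have h2 : c i ∈ IntermediateField.adjoin ℂ (Set.range fun i => ratio P i l) := by
      rw [adjoin_ratio h]
      trivial
    obtain ⟨r, s, h3⟩ := (IntermediateField.mem_adjoin_range_iff ℂ _ _).1 h2
    by_cases h4 : gen P l s = 0
    · refine ⟨0, 1, ?_, ?_⟩
      · unfold gen
        rw [map_one]
        exact one_ne_zero
      · have h5 : c i = gen P l r / gen P l s := h3
        rw [h5, h4, div_zero, zero_mul]
        unfold gen
        rw [map_zero]
    · refine ⟨r, s, h4, ?_⟩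
      have h5 : c i = gen P l r / gen P l s := h3
      rw [h5, div_mul_cancel₀ _ h4]
  choose r s hs hrs using h1
  have hprod : ∀ (S : Finset (Fin (N + 1))), gen P l (∏ j ∈ S, s j) = ∏ j ∈ S, gen P l (s j) := by
    intro S
    unfold gen
    rw [map_prod]
  have hmul : ∀ A B : MvPolynomial (Fin (N + 1)) ℂ, gen P l (A * B) = gen P l A * gen P l B := by
    intro A B
    unfold gen
    rw [map_mul]
  refine ⟨gen P l (∏ j, s j), fun i => hmz l (∑ j, (r j * ∏ k ∈ Finset.univ.erase j, s k).totalDegree) (r i * ∏ k ∈ Finset.univ.erase i, s k),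
    ∑ j, (r j * ∏ k ∈ Finset.univ.erase j, s k).totalDegree, ?_, fun i => hmz_hom _ _ _, fun i => ?_⟩
  · rw [hprod]
    exact Finset.prod_ne_zero_iff.2 fun j _ => hs j
  · rw [gen_hmz h (Finset.single_le_sum (f := fun j => (r j * ∏ k ∈ Finset.univ.erase j, s k).totalDegree) (fun j _ => Nat.zero_le _) (Finset.mem_univ i)),
      hmul, hrs, hprod, hprod, ← Finset.mul_prod_erase Finset.univ (fun j => gen P l (s j)) (Finset.mem_univ i)]
    ring

theorem exists_tangent {p : Ideal (MvPolynomial (Fin (N + 1)) ℂ)} [p.IsPrime] (hp : Homog p) {z : Fin 1 → FunField p}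
    (hz : IsTranscendenceBasis ℂ z) :
    ∃ (G : MvPolynomial (Fin (N + 1)) ℂ) (g : ℕ) (t : Fin (N + 1) → MvPolynomial (Fin (N + 1)) ℂ) (e : ℕ), G.IsHomogeneous g ∧ G ∉ p ∧
      (∀ i, (t i).IsHomogeneous e) ∧ (∀ Q ∈ p, ∑ i, t i * pderiv i Q ∈ p) ∧
      ∀ x : Fin (N + 1) → ℂ, (∀ Q ∈ p, eval x Q = 0) → eval x G ≠ 0 → x ≠ 0 ∧ (fun i => eval x (t i)) ∈ conTan p x ∧
        ∀ v ∈ conTan p x, ∃ al be : ℂ, v = al • x + be • fun i => eval x (t i) := by
  classical
  obtain ⟨l, hl⟩ := exists_coord (k := 0) hz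
  have hXl : X l ∉ p := coordFun_ne_zero_iff.1 hl
  obtain ⟨b, hb⟩ := Pool.Agent.H23.exists_basis_kaehler hz
  obtain ⟨D, hD⟩ : ∃ D : Derivation ℂ (FunField p) (FunField p), D = Pool.Agent.H23.dualDer b 0 := ⟨_, rfl⟩
  have hD1 : D (z 0) = 1 := by
    rw [hD, Pool.Agent.H23.dualDer_coord b hb]
    simp
  obtain ⟨σ, t, e, hσ, hte, htc⟩ := exists_forms hl fun i => D (ratio p i l)
  -- some `D (a i)` is not zero
  obtain ⟨i₁, hi₁⟩ : ∃ i, D (ratio p i l) ≠ 0 := by
    by_contra hcon
    push Not at hcon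
    have h2 : z 0 ∈ IntermediateField.adjoin ℂ (Set.range fun i => ratio p i l) := by
      rw [adjoin_ratio hl]
      trivial
    obtain ⟨r, s, h3⟩ := (IntermediateField.mem_adjoin_range_iff ℂ _ _).1 h2
    have h4 : ∀ q : MvPolynomial (Fin (N + 1)) ℂ, D (aeval (fun i => ratio p i l) q) = 0 := by
      intro q
      rw [der_aeval]
      refine Finset.sum_eq_zero fun i _ => ?_
      rw [hcon i, zero_mul]
    have h5 : aeval (fun i => ratio p i l) s ≠ 0 := by
      intro h6
      rw [h6, div_zero] at h3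
      rw [h3, map_zero] at hD1
      exact zero_ne_one hD1
    have h6 : z 0 * aeval (fun i => ratio p i l) s = aeval (fun i => ratio p i l) r := by
      rw [h3, div_mul_cancel₀ _ h5]
    have h7 := congrArg D h6
    rw [Derivation.leibniz, h4, h4, hD1, smul_zero, zero_add, smul_eq_mul, mul_one] at h7
    exact h5 h7
  have hti₁ : t i₁ ∉ p := by
    intro h
    have h1 := (gen_eq_zero_iff hl (hte i₁)).2 h
    rw [htc i₁] at h1
    exact mul_ne_zero hi₁ hσ h1
  have htl : t l ∈ p := by
    refine (gen_eq_zero_iff hl (hte l)).1 ?_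
    rw [htc l, ratio_self hl]
    have : D (1 : FunField p) = 0 := D.map_one_eq_zero
    rw [this, zero_mul]
  -- tangency
  have htanh : ∀ n, ∀ Q ∈ p, Q.IsHomogeneous n → ∑ i, t i * pderiv i Q ∈ p := by
    intro n Q hQ hQn
    have h1 : (∑ i, t i * pderiv i Q).IsHomogeneous (e + (n - 1)) := IsHomogeneous.sum _ _ _ fun i _ => (hte i).mul hQn.pderiv
    refine (gen_eq_zero_iff hl h1).1 ?_
    have h2 : gen p l Q = 0 := (gen_eq_zero_iff hl hQn).2 hQ
    have h3 : D (gen p l Q) = ∑ i, D (ratio p i l) * gen p l (pderiv i Q) := der_aeval D _ Q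
    rw [h2, map_zero] at h3
    have h4 : gen p l (∑ i, t i * pderiv i Q) = ∑ i, gen p l (t i) * gen p l (pderiv i Q) := by
      unfold gen
      rw [map_sum]
      exact Finset.sum_congr rfl fun i _ => map_mul _ _ _
    rw [h4]
    have h5 : ∑ i, gen p l (t i) * gen p l (pderiv i Q) = ∑ i, σ * (D (ratio p i l) * gen p l (pderiv i Q)) :=
      Finset.sum_congr rfl fun i _ => by
        rw [htc i]
        ring
    rw [h5]
    exact (Finset.mul_sum _ _ _).symm.trans ((congrArg (fun y => σ * y) h3.symm).trans (mul_zero σ))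
  have htan : ∀ Q ∈ p, ∑ i, t i * pderiv i Q ∈ p := by
    intro Q hQ
    have h1 : ∑ i, t i * pderiv i Q = ∑ d ∈ Finset.range (Q.totalDegree + 1), ∑ i, t i * pderiv i (homogeneousComponent d Q) := by
      rw [Finset.sum_comm]
      refine Finset.sum_congr rfl fun i _ => ?_
      rw [← Finset.mul_sum, ← map_sum, sum_homogeneousComponent]
    rw [h1]
    exact Ideal.sum_mem _ fun d _ => htanh d _ (hp Q hQ d) (homogeneousComponent_isHomogeneous d Q)
  -- the generic dimension
  have hTD := (Pool.Agent.H39.SY.TD_cone (P := p) (r := 1) hp ⟨l, hXl⟩ ⟨z, hz⟩).1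
  obtain ⟨G₀, g₀, hG₀, hG₀p, hdim⟩ := Pool.Agent.H39.SY.exists_jac (n := 2) inferInstance hp hTD
  refine ⟨X l * t i₁ * G₀, 1 + e + g₀, t, e, ((isHomogeneous_X ℂ l).mul (hte i₁)).mul hG₀, ?_, hte, htan, fun x hx hG => ?_⟩
  · intro h
    rcases (inferInstance : p.IsPrime).mem_or_mem h with h | h
    · rcases (inferInstance : p.IsPrime).mem_or_mem h with h | h
      · exact hXl h
      · exact hti₁ h
    · exact hG₀p h
  rw [map_mul, map_mul, eval_X] at hG
  have hG1 : eval x G₀ ≠ 0 := right_ne_zero_of_mul hG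
  have hG2 : x l ≠ 0 := left_ne_zero_of_mul (left_ne_zero_of_mul hG)
  have hG3 : eval x (t i₁) ≠ 0 := right_ne_zero_of_mul (left_ne_zero_of_mul hG)
  have hx0 : x ≠ 0 := fun h => hG2 (by rw [h]; rfl)
  have hT : (fun i => eval x (t i)) ∈ conTan p x := by
    intro Q hQ
    have h1 := hx _ (htan Q hQ)
    rw [map_sum] at h1
    rw [← h1]
    exact Finset.sum_congr rfl fun i _ => (map_mul _ _ _).symm
  refine ⟨hx0, hT, fun v hv => ?_⟩
  have hxx : x ∈ conTan p x := fun Q hQ => Pool.Agent.H13.SM.euler hp hx hQ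
  have hfr := hdim x hx hG1
  have hTl : eval x (t l) = 0 := hx _ htl
  let w : Fin 2 → conTan p x := ![⟨x, hxx⟩, ⟨_, hT⟩]
  have hli : LinearIndependent ℂ w := by
    rw [LinearIndependent.pair_iff]
    intro s₁ s₂ h
    have h1 : s₁ • x + s₂ • (fun i => eval x (t i)) = 0 := congrArg Subtype.val h
    have h2 := congrFun h1 l
    simp only [Pi.add_apply, Pi.smul_apply, smul_eq_mul, hTl, mul_zero, add_zero, Pi.zero_apply] at h2
    have h3 : s₁ = 0 := (mul_eq_zero.1 h2).resolve_right hG2
    have h4 := congrFun h1 i₁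
    rw [h3] at h4
    simp only [Pi.add_apply, Pi.smul_apply, smul_eq_mul, zero_mul, zero_add, Pi.zero_apply] at h4
    exact ⟨h3, (mul_eq_zero.1 h4).resolve_right hG3⟩
  have hcard : Fintype.card (Fin 2) = Module.finrank ℂ (conTan p x) := by
    refine le_antisymm hli.fintype_card_le_finrank ?_
    rw [Fintype.card_fin]
    exact hfr
  have hspan := hli.span_eq_top_of_card_eq_finrank' hcard
  have hmem : (⟨v, hv⟩ : conTan p x) ∈ Submodule.span ℂ (Set.range w) := by
    rw [hspan]
    trivial
  rw [Matrix.range_cons, Matrix.range_cons, Matrix.range_empty, Set.union_empty, Set.singleton_union] at hmem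
  obtain ⟨al, be, h⟩ := Submodule.mem_span_pair.1 hmem
  exact ⟨al, be, (congrArg Subtype.val h).symm⟩

end Pool.Agent.SR3
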